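import Pool.Agent.Q163.PW.Core
import Pool.Agent.Q163.EX.Exp

/-! All patterns occur in all short intervals. -/

set_option autoImplicit false

namespace Pool.Agent.Q163.PW

open Finset MeasureTheory Filter Topology Pool.Agent.Q163.RP Pool.Agent.Q163.RX Pool.Agent.Q163.GC
  Pool.Agent.Q163.HC

/-- the values wanted at the elements of a window -/
noncomputable def uu (g : ℕ → ℝ) (S : Finset ℕ) (n j : ℕ) : ℝ := (if j ∈ S then 1 else -1) * g (n + j)

lemma abs_uu {g : ℕ → ℝ} (hg : ∀ n, g n = 1 ∨ g n = -1) (S : Finset ℕ) (n j : ℕ) :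
    |uu g S n j| ≤ 1 := by
  unfold uu
  rw [abs_mul]
  rcases hg (n + j) with h | h <;> rw [h] <;> split_ifs <;> simp

/-- the good windows for the standard parameters -/
noncomputable def GG (A H k x : ℕ) : Finset ℕ :=
  Gd (2 ^ (Nat.log 2 H / 16 / ((A + 3) * (Nat.log 2 (Nat.log 2 H) + 1))))
    ((A + 3) * (Nat.log 2 (Nat.log 2 H) + 1)) (2 ^ (4 * (Nat.log 2 H / 16))) k x H

/-- simultaneous bounds for all patterns and all intervals -/
theorem ae_Yo (A E : ℕ) (hE : 2 ≤ E) (g : ℕ → ℝ) (hg : ∀ n, g n = 1 ∨ g n = -1) :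
    ∀ᵐ ω ∂cm, ∀ᶠ H : ℕ in atTop, ∀ x k : ℕ, x ≤ 2 ^ (Nat.log 2 H ^ E) →
      2 ^ (k + c2 A E * (Nat.log 2 (Nat.log 2 H) + 1) ^ 2) ≤ H → ∀ S ⊆ range k,
        |Yo (GG A H k x) k (uu g S) ω| ≤
          (H : ℝ) / 2 ^ ((A + 1) * (Nat.log 2 (Nat.log 2 H) + 1)) := by
  classical
  set T : ℕ → Finset (ℕ × ℕ × Finset ℕ) := fun H =>
    ((range (2 ^ (Nat.log 2 H ^ E) + 1)) ×ˢ ((range (Nat.log 2 H + 1)) ×ˢ
      (range (Nat.log 2 H)).powerset)).filter fun t =>
        2 ^ (t.2.1 + c2 A E * (Nat.log 2 (Nat.log 2 H) + 1) ^ 2) ≤ H with hT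
  have h1 := bcf T (fun H t => {ω | (H : ℝ) / 2 ^ ((A + 1) * (Nat.log 2 (Nat.log 2 H) + 1)) <
    |Yo (GG A H t.2.1 t.1) t.2.1 (uu g t.2.2) ω|}) (by
      filter_upwards [tendsto_log.eventually (params A E), eventually_ge_atTop 1] with H P hH1 t ht
      rw [hT] at ht
      simp only at ht
      rw [mem_filter, mem_product, mem_product, mem_range, mem_range, mem_powerset] at ht
      obtain ⟨⟨hx, hka, hS⟩, hk⟩ := ht
      set a := Nat.log 2 H with ha
      have hH : 2 ^ a ≤ H := Nat.pow_log_le_self 2 (by omega)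
      have hH' : H < 2 ^ (a + 1) := Nat.lt_pow_succ_log_self (by norm_num) H
      have h2 := P.prob (by omega) hH hH' hk (show t.1 ≤ 2 ^ (a ^ E) by omega) (uu g t.2.2)
        (fun n j => abs_uu hg _ n j)
      refine h2.trans ?_
      have ha4 := P.a4
      have hcard : (T H).card ≤ (2 ^ (a ^ E) + 1) * ((a + 1) * 2 ^ a) := by
        rw [hT]
        refine (card_filter_le _ _).trans (le_of_eq ?_)
        rw [card_product, card_product, card_range, card_range, card_powerset, card_range]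
      have hpos : 0 < (T H).card := by
        refine card_pos.2 ⟨t, ?_⟩
        rw [hT]
        simp only
        rw [mem_filter, mem_product, mem_product, mem_range, mem_range, mem_powerset]
        exact ⟨⟨hx, hka, hS⟩, hk⟩
      have h3 : (T H).card * H ^ 2 ≤ 16 ^ (a ^ E) := by
        have e1 : a + 1 ≤ 2 ^ a := Nat.lt_two_pow_self
        have e2 : 2 ^ (a ^ E) + 1 ≤ 2 ^ (a ^ E + 1) := by
          rw [pow_succ]
          have : 1 ≤ 2 ^ (a ^ E) := Nat.one_le_two_pow
          omega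
        have e3 : 4 * a ≤ a ^ E := by
          calc 4 * a ≤ a * a := Nat.mul_le_mul_right _ ha4
            _ = a ^ 2 := (sq a).symm
            _ ≤ a ^ E := Nat.pow_le_pow_right (by omega) hE
        calc (T H).card * H ^ 2 ≤ (2 ^ (a ^ E + 1) * (2 ^ a * 2 ^ a)) * (2 ^ (a + 1)) ^ 2 := by
              refine Nat.mul_le_mul (hcard.trans ?_) (Nat.pow_le_pow_left hH'.le 2)
              exact Nat.mul_le_mul e2 (Nat.mul_le_mul_right _ e1)
          _ = 2 ^ (a ^ E + 1 + (a + a) + (a + 1) * 2) := by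
              rw [← pow_mul, ← pow_add, ← pow_add, ← pow_add]
          _ ≤ 2 ^ (4 * a ^ E) := Nat.pow_le_pow_right (by norm_num) (by omega)
          _ = 16 ^ (a ^ E) := by
              rw [pow_mul]
              norm_num
      have h4 : ((T H).card : ℝ) * (H : ℝ) ^ 2 ≤ 16 ^ (a ^ E) := by exact_mod_cast h3
      have h5 : (0 : ℝ) < (T H).card := by exact_mod_cast hpos
      have h6 : (0 : ℝ) < H := by exact_mod_cast hH1
      rw [le_div_iff₀ (by positivity), one_div, inv_pow]
      have h7 : (0 : ℝ) < 16 ^ (a ^ E) := by positivity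
      calc 2 * ((16 : ℝ) ^ (a ^ E))⁻¹ * (((T H).card : ℝ) * (H : ℝ) ^ 2) ≤
            2 * ((16 : ℝ) ^ (a ^ E))⁻¹ * 16 ^ (a ^ E) :=
            mul_le_mul_of_nonneg_left h4 (by positivity)
        _ = 2 := by field_simp)
  filter_upwards [h1] with ω hω
  filter_upwards [hω, eventually_ge_atTop 1] with H hH hH1 x k hx hk S hS
  have hka : k ≤ Nat.log 2 H := by
    refine Nat.le_log_of_pow_le (by norm_num) (le_trans ?_ hk)
    exact Nat.pow_le_pow_right (by norm_num) (Nat.le_add_right _ _)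
  have h2 := hH (x, k, S) (by
    rw [hT]
    simp only
    rw [mem_filter, mem_product, mem_product, mem_range, mem_range, mem_powerset]
    refine ⟨⟨by simp only; omega, by simp only; omega, ?_⟩, hk⟩
    exact hS.trans (range_mono hka))
  simp only [not_lt] at h2
  exact h2

/-- the number of occurrences of a word with starting points in `(x, x + H]` -/
noncomputable def occ (f : ℕ → ℝ) {k : ℕ} (W : Fin k → Bool) (x H : ℕ) : ℕ := by
  classical
  exact ((Ioc x (x + H)).filter fun n => ∀ j : Fin k, f (n + j) = if W j then 1 else -1).card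

open Classical in
lemma count_eq (G : Finset ℕ) {k : ℕ} (W : Fin k → Bool) (g : ℕ → ℝ)
    (hg : ∀ n, g n = 1 ∨ g n = -1) (ω : ℕ → Bool) :
    (2 : ℝ) ^ k * (G.filter fun n => ∀ j : Fin k,
      g (n + j) * ch ω (n + j) = if W j then 1 else -1).card =
      G.card + Yo G k (uu g ((univ.filter fun j : Fin k => W j = true).image fun j : Fin k => (j : ℕ))) ω := by
  set S := (univ.filter fun j : Fin k => W j = true).image (fun j : Fin k => (j : ℕ)) with hS
  have hmem : ∀ j : Fin k, ((j : ℕ) ∈ S ↔ W j = true) := by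
    intro j
    rw [hS, mem_image]
    constructor
    · rintro ⟨i, hi, he⟩
      have : i = j := Fin.ext he
      rw [← this]
      exact (mem_filter.1 hi).2
    · intro h
      exact ⟨j, mem_filter.2 ⟨mem_univ _, h⟩, rfl⟩
  have h1 : ∀ n, ∏ j ∈ range k, (1 + uu g S n j * ch ω (n + j)) =
      if (∀ j : Fin k, g (n + j) * ch ω (n + j) = if W j then 1 else -1) then (2 : ℝ) ^ k else 0 := by
    intro n
    rw [← Fin.prod_univ_eq_prod_range (fun j => 1 + uu g S n j * ch ω (n + j)) k]
    have h2 : ∀ j : Fin k, 1 + uu g S n j * ch ω (n + j) =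
        if g (n + j) * ch ω (n + j) = (if W j then 1 else -1) then 2 else 0 := by
      intro j
      unfold uu
      have h3 : ch ω (n + j) = 1 ∨ ch ω (n + j) = -1 := by
        have := abs_ch ω (n + j)
        rcases abs_eq (by norm_num : (0 : ℝ) ≤ 1) |>.1 this with h | h
        · exact Or.inl h
        · exact Or.inr h
      by_cases hW : W j = true
      · rw [if_pos ((hmem j).2 hW), hW]
        rcases hg (n + j) with h4 | h4 <;> rcases h3 with h5 | h5 <;> rw [h4, h5] <;> norm_num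
      · rw [if_neg (fun h => hW ((hmem j).1 h))]
        rw [Bool.not_eq_true] at hW
        rw [hW]
        rcases hg (n + j) with h4 | h4 <;> rcases h3 with h5 | h5 <;> rw [h4, h5] <;> norm_num
    rw [prod_congr rfl fun j _ => h2 j]
    split_ifs with h
    · rw [prod_congr rfl fun j _ => if_pos (h j), prod_const, card_univ, Fintype.card_fin]
    · push Not at h
      obtain ⟨j, hj⟩ := h
      exact prod_eq_zero (mem_univ j) (if_neg hj)
  unfold Yo
  simp_rw [h1]
  rw [sum_sub_distrib, sum_const, nsmul_one, ← sum_filter, sum_const, nsmul_eq_mul]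
  ring

/-- a lower bound for the number of occurrences -/
lemma occ_ge (A H k x : ℕ) (W : Fin k → Bool) (g : ℕ → ℝ) (hg : ∀ n, g n = 1 ∨ g n = -1)
    (ω : ℕ → Bool) (D : ℝ) (hD : (H : ℝ) - (GG A H k x).card ≤ 2 * D)
    (hY : ∀ S ⊆ range k, |Yo (GG A H k x) k (uu g S) ω| ≤ D) :
    (H - 3 * D) / 2 ^ k ≤ occ (fun n => g n * ch ω n) W x H := by
  classical
  have h1 := count_eq (GG A H k x) W g hg ω
  have h2 := hY ((univ.filter fun j : Fin k => W j = true).image fun j : Fin k => (j : ℕ)) (by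
    intro j hj
    obtain ⟨i, _, rfl⟩ := mem_image.1 hj
    exact mem_range.2 i.2)
  have h3 := (abs_le.1 h2).1
  have h4 : ((GG A H k x).filter fun n => ∀ j : Fin k,
      g (n + j) * ch ω (n + j) = if W j then 1 else -1).card ≤
      occ (fun n => g n * ch ω n) W x H := by
    unfold occ
    exact card_le_card (filter_subset_filter _ (Gd_sub _ _ _ _ _ _))
  have h5 : (((GG A H k x).filter fun n => ∀ j : Fin k,
      g (n + j) * ch ω (n + j) = if W j then 1 else -1).card : ℝ) ≤
      occ (fun n => g n * ch ω n) W x H := by exact_mod_cast h4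
  rw [div_le_iff₀ (by positivity)]
  have h6 : (0 : ℝ) < 2 ^ k := by positivity
  nlinarith

/-- all words occur in all short intervals -/
theorem ae_words (A E : ℕ) (hE : 2 ≤ E) (g : ℕ → ℝ) (hg : ∀ n, g n = 1 ∨ g n = -1) :
    ∀ᵐ ω ∂cm, ∀ᶠ H : ℕ in atTop, ∀ x k : ℕ, x ≤ 2 ^ (Nat.log 2 H ^ E) →
      2 ^ (k + c2 A E * (Nat.log 2 (Nat.log 2 H) + 1) ^ 2) ≤ H → ∀ W : Fin k → Bool,
        (H - 3 * ((H : ℝ) / 2 ^ ((A + 1) * (Nat.log 2 (Nat.log 2 H) + 1)))) / 2 ^ k ≤
          occ (fun n => g n * ch ω n) W x H := by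
  filter_upwards [ae_Yo A E hE g hg] with ω hω
  filter_upwards [hω, tendsto_log.eventually (params A E), eventually_ge_atTop 1] with
    H hH P hH1 x k hx hk W
  have hka : k ≤ Nat.log 2 H := by
    refine Nat.le_log_of_pow_le (by norm_num) (le_trans ?_ hk)
    exact Nat.pow_le_pow_right (by norm_num) (Nat.le_add_right _ _)
  refine occ_ge A H k x W g hg ω _ ?_ fun S hS => hH x k hx hk S hS
  exact P.bad (Nat.pow_log_le_self 2 (by omega)) hka

end Pool.Agent.Q163.PW
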