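import Pool.Agent.Q163.PW.Cnt

/-! Most windows of every short interval are good. -/

set_option autoImplicit false

namespace Pool.Agent.Q163.PW

open Finset Pool.Agent.Q163.HC Pool.Agent.Q163.GC

/-- few small prime factors and a large squarefree part -/
def gd (y M s m : ℕ) : Prop := (m.primeFactors.filter fun p => p ≤ y).card < M ∧ s < ∏ p ∈ od m, p

lemma gd_og {y M s θ m : ℕ} (hs : θ ^ 2 * y ^ M ≤ s) (hy : 1 ≤ y) (h : gd y M s m) :
    θ ^ 2 < ∏ p ∈ og y m, p := by
  have h1 := prod_filter_mul_prod_filter_not (od m) (fun p => y < p) (fun p => p)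
  have h2 : ∏ p ∈ (od m).filter (fun p => ¬ y < p), p ≤ y ^ M := by
    have h3 : ∏ p ∈ (od m).filter (fun p => ¬ y < p), p ≤
        ∏ _p ∈ (od m).filter (fun p => ¬ y < p), y :=
      prod_le_prod' fun p hp => not_lt.1 (mem_filter.1 hp).2
    rw [prod_const] at h3
    refine h3.trans (Nat.pow_le_pow_right hy ?_)
    refine (card_le_card (t := m.primeFactors.filter fun p => p ≤ y) ?_).trans h.1.le
    intro p hp
    have h4 := mem_filter.1 hp
    exact mem_filter.2 ⟨(mem_filter.1 h4.1).1, not_lt.1 h4.2⟩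
  have h3 := h.2
  rw [← h1] at h3
  by_contra hcon
  push Not at hcon
  have h4 : (∏ p ∈ (od m).filter (fun p => y < p), p) *
      ∏ p ∈ (od m).filter (fun p => ¬ y < p), p ≤ θ ^ 2 * y ^ M := Nat.mul_le_mul hcon h2
  omega

lemma nonempty_og {y M s θ m : ℕ} (hs : θ ^ 2 * y ^ M ≤ s) (hy : 1 ≤ y) (hθ : 1 ≤ θ)
    (h : gd y M s m) : (og y m).Nonempty := by
  have h1 := gd_og hs hy h
  by_contra h2
  rw [not_nonempty_iff_eq_empty] at h2
  rw [h2, prod_empty] at h1
  have : 1 ≤ θ ^ 2 := Nat.one_le_pow _ _ hθ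
  omega

lemma mult_card (x H d : ℕ) : ((Ioc x (x + H)).filter fun m => d ∣ m).card ≤ H / d + 1 := by
  refine cong_card _ x H d (fun n hn => ?_) fun n hn n' hn' => ?_
  · exact mem_Ioc.1 (mem_filter.1 hn).1
  · exact (Nat.modEq_zero_iff_dvd.2 (mem_filter.1 hn).2).trans
      (Nat.modEq_zero_iff_dvd.2 (mem_filter.1 hn').2).symm

lemma many_small (y M x H : ℕ) (hy : 1 ≤ y) :
    ((Ioc x (x + H)).filter fun m => M ≤ (m.primeFactors.filter fun p => p ≤ y).card).card * 2 ^ M ≤
      ∑ d ∈ Icc 1 (y ^ M), (H / d + 1) := by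
  classical
  set A := (Ioc x (x + H)).filter fun m => M ≤ (m.primeFactors.filter fun p => p ≤ y).card with hA
  have h1 : ∀ m ∈ A, 2 ^ M ≤ ((Icc 1 (y ^ M)).filter fun d => d ∣ m).card := by
    intro m hm
    rw [hA, mem_filter] at hm
    obtain ⟨Q, hQ, hQc⟩ := exists_subset_card_eq hm.2
    have hQp : ∀ p ∈ Q, p.Prime ∧ p ∣ m ∧ p ≤ y := by
      intro p hp
      have h2 := mem_filter.1 (hQ hp)
      have h3 := Nat.mem_primeFactors.1 h2.1
      exact ⟨h3.1, h3.2.1, h2.2⟩
    rw [← hQc, ← card_powerset]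
    refine card_le_card_of_injOn (fun B => ∏ p ∈ B, p) ?_ ?_
    · intro B hB
      rw [mem_coe, mem_powerset] at hB
      rw [mem_coe, mem_filter, mem_Icc]
      refine ⟨⟨prod_pos fun p hp => (hQp p (hB hp)).1.pos, ?_⟩, ?_⟩
      · have h3 : ∏ p ∈ B, p ≤ ∏ _p ∈ B, y := prod_le_prod' fun p hp => (hQp p (hB hp)).2.2
        rw [prod_const] at h3
        refine h3.trans (Nat.pow_le_pow_right hy ?_)
        rw [hQc]
        exact hQc ▸ card_le_card hB
      · exact Finset.prod_primes_dvd _ (fun p hp => (hQp p (hB hp)).1.prime)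
          fun p hp => (hQp p (hB hp)).2.1
    · intro B hB B' hB' he
      rw [mem_coe, mem_powerset] at hB hB'
      simp only at he
      rw [← Nat.primeFactors_prod fun p hp => (hQp p (hB hp)).1, he,
        Nat.primeFactors_prod fun p hp => (hQp p (hB' hp)).1]
  calc A.card * 2 ^ M ≤ ∑ m ∈ A, ((Icc 1 (y ^ M)).filter fun d => d ∣ m).card := by
        rw [← smul_eq_mul]
        exact card_nsmul_le_sum _ _ _ h1
    _ ≤ ∑ m ∈ Ioc x (x + H), ((Icc 1 (y ^ M)).filter fun d => d ∣ m).card :=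
        sum_le_sum_of_subset (filter_subset _ _)
    _ = ∑ d ∈ Icc 1 (y ^ M), ((Ioc x (x + H)).filter fun m => d ∣ m).card := by
        simp_rw [card_filter]
        exact sum_comm
    _ ≤ _ := sum_le_sum fun d _ => mult_card x H d

lemma od_sq_mul {a b : ℕ} (ha : Squarefree a) (hb : b ≠ 0) : od (b ^ 2 * a) = a.primeFactors := by
  have ha0 : a ≠ 0 := ha.ne_zero
  ext p
  unfold od
  rw [mem_filter, Nat.factorization_mul (pow_ne_zero 2 hb) ha0, Nat.factorization_pow]
  simp only [Finsupp.coe_add, Finsupp.coe_smul, Pi.add_apply, Pi.smul_apply, smul_eq_mul]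
  constructor
  · rintro ⟨h1, h2⟩
    rw [Nat.mem_primeFactors] at h1 ⊢
    refine ⟨h1.1, ?_, ha0⟩
    by_contra h3
    rw [Nat.factorization_eq_zero_of_not_dvd h3, add_zero] at h2
    exact Nat.not_even_iff_odd.2 h2 (even_two_mul _)
  · intro h1
    rw [Nat.mem_primeFactors] at h1 ⊢
    refine ⟨⟨h1.1, Dvd.dvd.mul_left h1.2.1 _, mul_ne_zero (pow_ne_zero 2 hb) ha0⟩, ?_⟩
    have h3 : a.factorization p = 1 := by
      have h4 := ha.natFactorization_le_one p
      have h5 := (h1.1.dvd_iff_one_le_factorization ha0).1 h1.2.1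
      omega
    rw [h3]
    exact (even_two_mul _).add_one

lemma od_prod {m : ℕ} (hm : m ≠ 0) : ∃ b, b ≠ 0 ∧ m = b ^ 2 * ∏ p ∈ od m, p := by
  obtain ⟨a, b, hab, ha⟩ := Nat.sq_mul_squarefree m
  have hb : b ≠ 0 := by
    rintro rfl
    apply hm
    rw [← hab]
    simp
  refine ⟨b, hb, ?_⟩
  conv_rhs => rw [← hab, od_sq_mul ha hb, Nat.prod_primeFactors_of_squarefree ha]
  exact hab.symm

lemma small_part (s x H : ℕ) :
    ((Ioc x (x + H)).filter fun m => ∏ p ∈ od m, p ≤ s).card ≤ s * (Nat.sqrt H + 1) := by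
  classical
  have h1 : ((Ioc x (x + H)).filter fun m => ∏ p ∈ od m, p ≤ s) ⊆
      (Icc 1 s).biUnion fun a => (Ioc x (x + H)).filter fun m => ∏ p ∈ od m, p = a := by
    intro m hm
    rw [mem_filter] at hm
    rw [mem_biUnion]
    refine ⟨∏ p ∈ od m, p, mem_Icc.2 ⟨?_, hm.2⟩, mem_filter.2 ⟨hm.1, rfl⟩⟩
    exact prod_pos fun p hp => (Nat.prime_of_mem_primeFactors (mem_filter.1 hp).1).pos
  refine (card_le_card h1).trans (card_biUnion_le.trans ?_)
  have h2 : ∀ a ∈ Icc 1 s, ((Ioc x (x + H)).filter fun m => ∏ p ∈ od m, p = a).card ≤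
      Nat.sqrt H + 1 := by
    intro a ha
    have ha1 := (mem_Icc.1 ha).1
    set A := (Ioc x (x + H)).filter fun m => ∏ p ∈ od m, p = a with hA
    have h3 : ∀ m ∈ A, ∃ b, b ≠ 0 ∧ m = b ^ 2 * a := by
      intro m hm
      rw [hA, mem_filter, mem_Ioc] at hm
      obtain ⟨b, hb, h4⟩ := od_prod (show m ≠ 0 by omega)
      rw [hm.2] at h4
      exact ⟨b, hb, h4⟩
    choose! f hf using h3
    rcases A.eq_empty_or_nonempty with h4 | h4
    · rw [h4, card_empty]
      omega
    obtain ⟨m0, hm0, hmin⟩ := A.exists_min_image f h4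
    have h5 : A.card ≤ (range (Nat.sqrt H + 1)).card := by
      refine card_le_card_of_injOn (fun m => f m - f m0) ?_ ?_
      · intro m hm
        rw [mem_coe] at hm
        rw [mem_coe, mem_range]
        refine Nat.lt_succ_of_le (Nat.le_sqrt'.2 ?_)
        show (f m - f m0) ^ 2 ≤ H
        have h6 := hmin m hm
        have h7 := (hf m hm).2
        have h8 := (hf m0 hm0).2
        have h9 := mem_Ioc.1 (mem_filter.1 hm).1
        have h10 := mem_Ioc.1 (mem_filter.1 hm0).1
        obtain ⟨e, he⟩ := Nat.exists_eq_add_of_le h6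
        rw [he] at h7 ⊢
        rw [Nat.add_sub_cancel_left]
        have h11 : m = m0 + (2 * f m0 * e + e ^ 2) * a := by
          calc m = (f m0 + e) ^ 2 * a := h7
            _ = f m0 ^ 2 * a + (2 * f m0 * e + e ^ 2) * a := by ring
            _ = _ := by rw [← h8]
        have h12 : e ^ 2 ≤ (2 * f m0 * e + e ^ 2) * a := by
          calc e ^ 2 ≤ 2 * f m0 * e + e ^ 2 := Nat.le_add_left _ _
            _ ≤ _ := Nat.le_mul_of_pos_right _ (by omega)
        omega
      · intro m hm m' hm' he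
        rw [mem_coe] at hm hm'
        simp only at he
        have h6 := hmin m hm
        have h7 := hmin m' hm'
        rw [(hf m hm).2, (hf m' hm').2]
        have : f m = f m' := by omega
        rw [this]
    rwa [card_range] at h5
  refine (sum_le_card_nsmul _ _ _ h2).trans ?_
  rw [smul_eq_mul, Nat.card_Icc]
  simp

/-- the good windows of an interval -/
noncomputable def Gd (y M s k x H : ℕ) : Finset ℕ := by
  classical
  exact (Ioc x (x + H)).filter fun n => ∀ j < k, gd y M s (n + j)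

lemma mem_Gd {y M s k x H n : ℕ} :
    n ∈ Gd y M s k x H ↔ (x < n ∧ n ≤ x + H) ∧ ∀ j < k, gd y M s (n + j) := by
  classical
  unfold Gd
  rw [mem_filter, mem_Ioc]

lemma Gd_sub (y M s k x H : ℕ) : Gd y M s k x H ⊆ Ioc x (x + H) := by
  intro n hn
  exact mem_Ioc.2 (mem_Gd.1 hn).1

/-- the number of bad windows -/
theorem bad_count (y M s k x H : ℕ) (hy : 1 ≤ y) :
    (H : ℝ) - (Gd y M s k x H).card ≤
      k * (H * (1 + Real.log ((y : ℝ) ^ M)) + (y : ℝ) ^ M) / 2 ^ M + k * (s * (Nat.sqrt H + 1)) := by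
  classical
  have h1 : (Ioc x (x + H)) \ Gd y M s k x H ⊆ (range k).biUnion fun j =>
      ((Ioc x (x + H)).filter fun n => M ≤ ((n + j).primeFactors.filter fun p => p ≤ y).card) ∪
      ((Ioc x (x + H)).filter fun n => ∏ p ∈ od (n + j), p ≤ s) := by
    intro n hn
    rw [mem_sdiff, mem_Gd, mem_Ioc] at hn
    have h2 : ∃ j < k, ¬ gd y M s (n + j) := by
      by_contra hcon
      push Not at hcon
      exact hn.2 ⟨hn.1, hcon⟩
    obtain ⟨j, hj, hg⟩ := h2
    rw [mem_biUnion]
    refine ⟨j, mem_range.2 hj, ?_⟩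
    rw [mem_union, mem_filter, mem_filter, mem_Ioc]
    unfold gd at hg
    rw [not_and_or, not_lt, not_lt] at hg
    rcases hg with h | h
    · exact Or.inl ⟨hn.1, h⟩
    · exact Or.inr ⟨hn.1, h⟩
  have hsh : ∀ (j : ℕ) (P : ℕ → Prop) [DecidablePred P],
      ((Ioc x (x + H)).filter fun n => P (n + j)).card =
        ((Ioc (x + j) (x + j + H)).filter P).card := by
    intro j P _
    refine card_bij (fun n _ => n + j) ?_ ?_ ?_
    · intro n hn
      rw [mem_filter, mem_Ioc] at hn ⊢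
      exact ⟨⟨by omega, by omega⟩, hn.2⟩
    · intro a _ b _ h
      omega
    · intro m hm
      rw [mem_filter, mem_Ioc] at hm
      refine ⟨m - j, ?_, by omega⟩
      rw [mem_filter, mem_Ioc, show m - j + j = m by omega]
      exact ⟨⟨by omega, by omega⟩, hm.2⟩
  have h2 := (card_le_card h1).trans card_biUnion_le
  have hcard : ((Ioc x (x + H)) \ Gd y M s k x H).card = H - (Gd y M s k x H).card := by
    rw [card_sdiff_of_subset (Gd_sub _ _ _ _ _ _), Nat.card_Ioc, Nat.add_sub_cancel_left]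
  have hle : (Gd y M s k x H).card ≤ H := by
    have := card_le_card (Gd_sub y M s k x H)
    rwa [Nat.card_Ioc, Nat.add_sub_cancel_left] at this
  rw [hcard] at h2
  have h3 : ((H - (Gd y M s k x H).card : ℕ) : ℝ) ≤ ∑ j ∈ range k,
      ((H * (1 + Real.log ((y : ℝ) ^ M)) + (y : ℝ) ^ M) / 2 ^ M + s * (Nat.sqrt H + 1)) := by
    have h4 : ((H - (Gd y M s k x H).card : ℕ) : ℝ) ≤ ∑ j ∈ range k,
      (((((Ioc x (x + H)).filter fun n => M ≤ ((n + j).primeFactors.filter fun p => p ≤ y).card) ∪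
      ((Ioc x (x + H)).filter fun n => ∏ p ∈ od (n + j), p ≤ s)).card : ℕ) : ℝ) := by
      exact_mod_cast h2
    refine h4.trans (sum_le_sum fun j _ => ?_)
    have h5 := card_union_le ((Ioc x (x + H)).filter fun n =>
      M ≤ ((n + j).primeFactors.filter fun p => p ≤ y).card)
      ((Ioc x (x + H)).filter fun n => ∏ p ∈ od (n + j), p ≤ s)
    rw [hsh j (fun m => M ≤ (m.primeFactors.filter fun p => p ≤ y).card),
      hsh j (fun m => ∏ p ∈ od m, p ≤ s)] at h5
    have h6 := small_part s (x + j) H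
    have h7 := many_small y M (x + j) H hy
    have h8 : (∑ d ∈ Icc 1 (y ^ M), ((H / d + 1 : ℕ) : ℝ)) ≤
        H * (1 + Real.log ((y : ℝ) ^ M)) + (y : ℝ) ^ M := by
      have h9 : ∀ d ∈ Icc 1 (y ^ M), ((H / d + 1 : ℕ) : ℝ) ≤ H * (1 / (d : ℝ)) + 1 := by
        intro d _
        push_cast
        have := @Nat.cast_div_le ℝ _ _ _ H d
        rw [mul_one_div]
        linarith
      refine (sum_le_sum h9).trans ?_
      rw [sum_add_distrib, ← mul_sum, sum_const, Nat.card_Icc, nsmul_one, Nat.add_sub_cancel]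
      have h10 := harm (y ^ M)
      push_cast at h10 ⊢
      have h11 : (0 : ℝ) ≤ H := Nat.cast_nonneg H
      nlinarith
    have h7' : (((Ioc (x + j) (x + j + H)).filter fun m =>
        M ≤ (m.primeFactors.filter fun p => p ≤ y).card).card : ℝ) ≤
        (H * (1 + Real.log ((y : ℝ) ^ M)) + (y : ℝ) ^ M) / 2 ^ M := by
      rw [le_div_iff₀ (by positivity)]
      refine le_trans ?_ h8
      exact_mod_cast h7
    have h6' : (((Ioc (x + j) (x + j + H)).filter fun m => ∏ p ∈ od m, p ≤ s).card : ℝ) ≤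
        s * (Nat.sqrt H + 1) := by exact_mod_cast h6
    have h5' : (((((Ioc x (x + H)).filter fun n => M ≤ ((n + j).primeFactors.filter fun p => p ≤ y).card) ∪
      ((Ioc x (x + H)).filter fun n => ∏ p ∈ od (n + j), p ≤ s)).card : ℕ) : ℝ) ≤
      (((Ioc (x + j) (x + j + H)).filter fun m =>
        M ≤ (m.primeFactors.filter fun p => p ≤ y).card).card : ℝ) +
      (((Ioc (x + j) (x + j + H)).filter fun m => ∏ p ∈ od m, p ≤ s).card : ℝ) := by
      exact_mod_cast h5
    linarith
  rw [sum_const, card_range, nsmul_eq_mul] at h3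
  rw [Nat.cast_sub hle] at h3
  refine h3.trans (le_of_eq ?_)
  ring

end Pool.Agent.Q163.PW
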