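import Pool.Agent.Q163.PW.Seq

/-! Counting windows which share large primes with a given set of primes. -/

set_option autoImplicit false

namespace Pool.Agent.Q163.PW

open Finset Pool.Agent.Q163.HC Pool.Agent.Q163.GC

lemma cong_card (A : Finset ℕ) (x H q : ℕ) (hA : ∀ n ∈ A, x < n ∧ n ≤ x + H)
    (hc : ∀ n ∈ A, ∀ n' ∈ A, n ≡ n' [MOD q]) : A.card ≤ H / q + 1 := by
  rcases Nat.eq_zero_or_pos q with hq | hq
  · subst hq
    rw [Nat.div_zero, zero_add, card_le_one]
    intro a ha b hb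
    exact Nat.modEq_zero_iff.1 (hc a ha b hb)
  have h1 : A.card ≤ (range (H / q + 1)).card := by
    refine card_le_card_of_injOn (fun n => (n - x - 1) / q) ?_ ?_
    · intro n hn
      have := hA n hn
      rw [mem_coe, mem_range]
      refine Nat.lt_succ_of_le (Nat.div_le_div_right ?_)
      omega
    · intro n hn n' hn' he
      have h2 := hA n hn
      have h3 := hA n' hn'
      have h4 : n - x - 1 ≡ n' - x - 1 [MOD q] := by
        have h5 := hc n hn n' hn'
        have h6 : (n - x - 1) + (x + 1) ≡ (n' - x - 1) + (x + 1) [MOD q] := by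
          rwa [show n - x - 1 + (x + 1) = n by omega, show n' - x - 1 + (x + 1) = n' by omega]
        exact Nat.ModEq.add_right_cancel' _ h6
      have h7 := Nat.div_add_mod (n - x - 1) q
      have h8 := Nat.div_add_mod (n' - x - 1) q
      simp only at he
      unfold Nat.ModEq at h4
      rw [he, h4] at h7
      omega
  rwa [card_range] at h1

/-- windows with many primes in `U` -/
theorem link_count (y k c x H : ℕ) (hy : 1 ≤ y) (U : Finset ℕ) :
    ((Ioc x (x + H)).filter fun n => c ≤ (bw y k n ∩ U).card).card ≤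
      (U.card * k) ^ c * (H / y ^ c + 1) := by
  classical
  set FF : Finset (ℕ × ℕ) → Finset ℕ := fun A =>
    (Ioc x (x + H)).filter fun n => ∀ a ∈ A, a.1 ∣ n + a.2 with hFF
  set AA : Finset (Finset (ℕ × ℕ)) := (powersetCard c (U ×ˢ range k)).filter
    (fun A : Finset (ℕ × ℕ) => (∀ a ∈ A, a.1.Prime ∧ y < a.1) ∧
      Set.InjOn Prod.fst (A : Set (ℕ × ℕ))) with hAA
  have h1 : ((Ioc x (x + H)).filter fun n => c ≤ (bw y k n ∩ U).card) ⊆ AA.biUnion FF := by
    intro n hn
    rw [mem_filter] at hn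
    obtain ⟨Q, hQ, hQc⟩ := exists_subset_card_eq hn.2
    have h2 : ∀ p ∈ Q, ∃ j, j < k ∧ p ∈ bg y (n + j) := by
      intro p hp
      have := (mem_inter.1 (hQ hp)).1
      unfold bw at this
      rw [mem_biUnion] at this
      obtain ⟨j, hj, hpj⟩ := this
      exact ⟨j, mem_range.1 hj, hpj⟩
    choose! f hf using h2
    rw [mem_biUnion]
    refine ⟨Q.image fun p => (p, f p), ?_, ?_⟩
    · rw [hAA, mem_filter, mem_powersetCard]
      refine ⟨⟨?_, ?_⟩, ?_, ?_⟩
      · intro a ha
        obtain ⟨p, hp, rfl⟩ := mem_image.1 ha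
        exact mem_product.2 ⟨(mem_inter.1 (hQ hp)).2, mem_range.2 (hf p hp).1⟩
      · rw [card_image_of_injective _ (fun a b h => (Prod.mk.inj h).1), hQc]
      · intro a ha
        obtain ⟨p, hp, rfl⟩ := mem_image.1 ha
        have := mem_bg.1 (hf p hp).2
        exact ⟨this.1, this.2.2.2⟩
      · intro a ha b hb hab
        rw [mem_coe] at ha hb
        obtain ⟨p, hp, rfl⟩ := mem_image.1 ha
        obtain ⟨p', hp', rfl⟩ := mem_image.1 hb
        simp only at hab
        rw [hab]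
    · rw [hFF, mem_filter]
      refine ⟨hn.1, fun a ha => ?_⟩
      obtain ⟨p, hp, rfl⟩ := mem_image.1 ha
      exact (mem_bg.1 (hf p hp).2).2.1
  refine (card_le_card h1).trans (card_biUnion_le.trans ?_)
  have h2 : ∀ A ∈ AA, (FF A).card ≤ H / y ^ c + 1 := by
    intro A hA
    rw [hAA, mem_filter, mem_powersetCard] at hA
    obtain ⟨⟨_, hAc⟩, hA1, hA2⟩ := hA
    set q := ∏ p ∈ A.image Prod.fst, p with hq
    have hqp : ∀ p ∈ A.image Prod.fst, p.Prime ∧ y < p := by
      intro p hp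
      obtain ⟨a, ha, rfl⟩ := mem_image.1 hp
      exact hA1 a ha
    have hqc : (A.image Prod.fst).card = c := by
      rw [card_image_of_injOn hA2, hAc]
    have hqy : y ^ c ≤ q := by
      rw [hq, ← hqc, ← prod_const]
      exact prod_le_prod' fun p hp => (hqp p hp).2.le
    have h3 : (FF A).card ≤ H / q + 1 := by
      have hle : ∀ n ∈ FF A, ∀ n' ∈ FF A, n ≤ n' → n ≡ n' [MOD q] := by
        intro n hn n' hn' hnn
        rw [Nat.modEq_iff_dvd' hnn, hq]
        refine Finset.prod_primes_dvd _ (fun p hp => (hqp p hp).1.prime) fun p hp => ?_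
        obtain ⟨a, ha, rfl⟩ := mem_image.1 hp
        rw [hFF, mem_filter] at hn hn'
        have h4 := hn.2 a ha
        have h5 := hn'.2 a ha
        have h6 := Nat.dvd_sub h5 h4
        rwa [show n' + a.2 - (n + a.2) = n' - n by omega] at h6
      refine cong_card _ x H q (fun n hn => ?_) fun n hn n' hn' => ?_
      · rw [hFF, mem_filter, mem_Ioc] at hn
        exact hn.1
      · rcases le_total n n' with h | h
        · exact hle n hn n' hn' h
        · exact (hle n' hn' n hn h).symm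
    refine h3.trans (Nat.add_le_add_right (Nat.div_le_div_left hqy ?_) 1)
    exact pow_pos (by omega) c
  refine (sum_le_card_nsmul _ _ _ h2).trans ?_
  rw [smul_eq_mul]
  refine Nat.mul_le_mul_right _ ?_
  refine (card_filter_le _ _).trans ?_
  rw [card_powersetCard, card_product, card_range]
  exact Nat.choose_le_pow _ _

lemma card_small (U : Finset ℕ) (L : ℕ) :
    (U.powerset.filter fun Q => Q.card ≤ L).card ≤ (U.card + 1) ^ L := by
  classical
  have h1 : (U.powerset.filter fun Q => Q.card ≤ L) ⊆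
      (range (L + 1)).biUnion fun i => powersetCard i U := by
    intro Q hQ
    rw [mem_filter, mem_powerset] at hQ
    rw [mem_biUnion]
    exact ⟨Q.card, mem_range.2 (by omega), mem_powersetCard.2 ⟨hQ.1, rfl⟩⟩
  refine (card_le_card h1).trans (card_biUnion_le.trans ?_)
  rw [add_pow]
  refine sum_le_sum fun i hi => ?_
  rw [card_powersetCard, one_pow, mul_one]
  refine (Nat.choose_le_pow _ _).trans ?_
  refine Nat.le_mul_of_pos_right _ (Nat.choose_pos ?_)
  have := mem_range.1 hi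
  omega

/-- windows with an element sharing much with `U` -/
theorem sig_count (y k θ L x H : ℕ) (hθ : 1 ≤ θ) (hL : θ ≤ y ^ L) (U : Finset ℕ) :
    ∀ G ⊆ Ioc x (x + H), (∀ n ∈ G, sig y k θ n U) →
      G.card ≤ k * (U.card + 1) ^ L * (H / θ + 1) := by
  classical
  intro G hG hs
  set QQ := (U.powerset.filter fun Q => Q.card ≤ L).filter fun Q => θ ≤ ∏ p ∈ Q, p with hQQ
  set FF : ℕ × Finset ℕ → Finset ℕ := fun a =>
    (Ioc x (x + H)).filter fun n => (∏ p ∈ a.2, p) ∣ n + a.1 with hFF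
  have h1 : G ⊆ (range k ×ˢ QQ).biUnion FF := by
    intro n hn
    obtain ⟨j, hj, hT⟩ := hs n hn
    unfold Tp at hT
    set O := (og y (n + j)).filter (fun p => p ∈ U) with hO
    have hOp : ∀ p ∈ O, p.Prime ∧ p ∣ n + j ∧ y < p := by
      intro p hp
      have := mem_bg.1 (og_sub _ _ (mem_filter.1 hp).1)
      exact ⟨this.1, this.2.1, this.2.2.2⟩
    have h2 : ∃ Q ⊆ O, Q.card ≤ L ∧ θ ≤ ∏ p ∈ Q, p := by
      rcases le_or_gt O.card L with h | h
      · exact ⟨O, Subset.refl _, h, hT⟩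
      · obtain ⟨Q, hQ, hQc⟩ := exists_subset_card_eq h.le
        refine ⟨Q, hQ, hQc.le, hL.trans ?_⟩
        rw [← hQc, ← prod_const]
        exact prod_le_prod' fun p hp => (hOp p (hQ hp)).2.2.le
    obtain ⟨Q, hQ, hQc, hQθ⟩ := h2
    rw [mem_biUnion]
    refine ⟨(j, Q), mem_product.2 ⟨mem_range.2 hj, ?_⟩, ?_⟩
    · rw [hQQ, mem_filter, mem_filter, mem_powerset]
      refine ⟨⟨fun p hp => (mem_filter.1 (hQ hp)).2, hQc⟩, hQθ⟩
    · rw [hFF, mem_filter]
      refine ⟨hG hn, ?_⟩
      exact Finset.prod_primes_dvd _ (fun p hp => (hOp p (hQ hp)).1.prime)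
        fun p hp => (hOp p (hQ hp)).2.1
  refine (card_le_card h1).trans (card_biUnion_le.trans ?_)
  have h2 : ∀ a ∈ range k ×ˢ QQ, (FF a).card ≤ H / θ + 1 := by
    intro a ha
    have h3 := (mem_filter.1 (mem_product.1 ha).2).2
    have h4 : (FF a).card ≤ H / (∏ p ∈ a.2, p) + 1 := by
      refine cong_card _ x H _ (fun n hn => ?_) fun n hn n' hn' => ?_
      · rw [hFF, mem_filter, mem_Ioc] at hn
        exact hn.1
      · rw [hFF, mem_filter] at hn hn'
        have h5 : n + a.1 ≡ n' + a.1 [MOD (∏ p ∈ a.2, p)] :=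
          (Nat.modEq_zero_iff_dvd.2 hn.2).trans (Nat.modEq_zero_iff_dvd.2 hn'.2).symm
        exact Nat.ModEq.add_right_cancel' _ h5
    exact h4.trans (Nat.add_le_add_right (Nat.div_le_div_left h3 hθ) 1)
  refine (sum_le_card_nsmul _ _ _ h2).trans ?_
  rw [smul_eq_mul]
  refine Nat.mul_le_mul_right _ ?_
  rw [card_product, card_range]
  exact Nat.mul_le_mul_left _ ((card_filter_le _ _).trans (card_small U L))

lemma card_Sn (y k n : ℕ) (hk : k ≤ y) (U : Finset ℕ) :
    (Sn y k n U).card ≤ (bw y k n ∩ U).card := by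
  classical
  have h1 : ∀ j ∈ Sn y k n U, ∃ p, p ∈ bg y (n + j) ∧ p ∈ U := by
    intro j hj
    obtain ⟨p, hp⟩ := not_disjoint_iff.1 (mem_filter.1 hj).2
    exact ⟨p, hp⟩
  choose! f hf using h1
  refine card_le_card_of_injOn f ?_ ?_
  · intro j hj
    rw [mem_coe, mem_inter]
    refine ⟨mem_biUnion.2 ⟨j, (mem_filter.1 hj).1, (hf j hj).1⟩, (hf j hj).2⟩
  · intro j hj j' hj' he
    have h2 := mem_bg.1 (hf j hj).1
    have h3 := mem_bg.1 (hf j' hj').1
    refine uniq hk (mem_range.1 (mem_filter.1 hj).1) (mem_range.1 (mem_filter.1 hj').1) h2.2.1 ?_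
      h2.2.2.2
    rw [he]
    exact h3.2.1

lemma card_Sn_le (y k n : ℕ) (U : Finset ℕ) : (Sn y k n U).card ≤ k :=
  (card_filter_le _ _).trans (le_of_eq (card_range k))

/-- the sum of the weights over all windows -/
theorem weight_sum (y k L V x H : ℕ) (hk : k ≤ y) (hy : 1 ≤ y) (U : Finset ℕ) (hU : U.card ≤ V)
    (G : Finset ℕ) (hG : G ⊆ Ioc x (x + H)) :
    ∑ n ∈ G, (2 : ℝ) ^ (Sn y k n U).card ≤
      H + 2 ^ L * ((V * k : ℕ) * ((H / y + 1 : ℕ) : ℝ)) +
        2 ^ k * (((V * k) ^ L : ℕ) * ((H / y ^ L + 1 : ℕ) : ℝ)) := by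
  classical
  have h1 : ∀ n ∈ G, (2 : ℝ) ^ (Sn y k n U).card ≤
      1 + 2 ^ L * (if 1 ≤ (bw y k n ∩ U).card then 1 else 0) +
        2 ^ k * (if L ≤ (bw y k n ∩ U).card then 1 else 0) := by
    intro n _
    have h2 := card_Sn y k n hk U
    have h3 := card_Sn_le y k n U
    have e2 : (0 : ℝ) < 2 ^ L := by positivity
    have e3 : (0 : ℝ) < 2 ^ k := by positivity
    rcases Nat.eq_zero_or_pos (bw y k n ∩ U).card with h | h
    · have : (Sn y k n U).card = 0 := by omega
      rw [this, pow_zero]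
      split_ifs <;> nlinarith
    · rw [if_pos (show 1 ≤ (bw y k n ∩ U).card from h)]
      split_ifs with h4
      · have : (2 : ℝ) ^ (Sn y k n U).card ≤ 2 ^ k := pow_le_pow_right₀ (by norm_num) h3
        linarith
      · have : (2 : ℝ) ^ (Sn y k n U).card ≤ 2 ^ L := pow_le_pow_right₀ (by norm_num) (by omega)
        linarith
  refine (sum_le_sum h1).trans ?_
  rw [sum_add_distrib, sum_add_distrib, ← mul_sum, ← mul_sum, sum_const, nsmul_one, sum_boole,
    sum_boole]
  have hc : ∀ c : ℕ, ((G.filter fun n => c ≤ (bw y k n ∩ U).card).card : ℝ) ≤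
      ((V * k) ^ c : ℕ) * ((H / y ^ c + 1 : ℕ) : ℝ) := by
    intro c
    have h2 : (G.filter fun n => c ≤ (bw y k n ∩ U).card).card ≤
        (V * k) ^ c * (H / y ^ c + 1) := by
      refine (card_le_card (filter_subset_filter _ hG)).trans
        ((link_count y k c x H hy U).trans ?_)
      exact Nat.mul_le_mul_right _ (Nat.pow_le_pow_left (Nat.mul_le_mul_right _ hU) c)
    exact_mod_cast h2
  have h3 : (G.card : ℝ) ≤ H := by
    have := card_le_card hG
    rw [Nat.card_Ioc] at this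
    have h4 : G.card ≤ H := by omega
    exact_mod_cast h4
  have h5 := hc 1
  rw [pow_one, pow_one] at h5
  have h6 := hc L
  have e2 : (0 : ℝ) < 2 ^ L := by positivity
  have e3 : (0 : ℝ) < 2 ^ k := by positivity
  gcongr

/-- the sum of the weights over the windows sharing much with `U` -/
theorem weight_sig (y k L V θ x H : ℕ) (hk : k ≤ y) (hy : 1 ≤ y) (hθ : 1 ≤ θ) (hL : θ ≤ y ^ L)
    (U : Finset ℕ) (hU : U.card ≤ V) (G : Finset ℕ) (hG : G ⊆ Ioc x (x + H))
    (hs : ∀ n ∈ G, sig y k θ n U) :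
    ∑ n ∈ G, (2 : ℝ) ^ (Sn y k n U).card ≤
      2 ^ L * ((k * (V + 1) ^ L : ℕ) * ((H / θ + 1 : ℕ) : ℝ)) +
        2 ^ k * (((V * k) ^ L : ℕ) * ((H / y ^ L + 1 : ℕ) : ℝ)) := by
  classical
  have h1 : ∀ n ∈ G, (2 : ℝ) ^ (Sn y k n U).card ≤
      2 ^ L + 2 ^ k * (if L ≤ (bw y k n ∩ U).card then 1 else 0) := by
    intro n _
    have h2 := card_Sn y k n hk U
    have h3 := card_Sn_le y k n U
    have e2 : (0 : ℝ) < 2 ^ L := by positivity
    split_ifs with h4
    · have : (2 : ℝ) ^ (Sn y k n U).card ≤ 2 ^ k := pow_le_pow_right₀ (by norm_num) h3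
      linarith
    · have : (2 : ℝ) ^ (Sn y k n U).card ≤ 2 ^ L := pow_le_pow_right₀ (by norm_num) (by omega)
      linarith
  refine (sum_le_sum h1).trans ?_
  rw [sum_add_distrib, ← mul_sum, sum_const, sum_boole, nsmul_eq_mul, mul_comm (G.card : ℝ)]
  have h2 : ((G.filter fun n => L ≤ (bw y k n ∩ U).card).card : ℝ) ≤
      ((V * k) ^ L : ℕ) * ((H / y ^ L + 1 : ℕ) : ℝ) := by
    have h2 : (G.filter fun n => L ≤ (bw y k n ∩ U).card).card ≤
        (V * k) ^ L * (H / y ^ L + 1) := by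
      refine (card_le_card (filter_subset_filter _ hG)).trans
        ((link_count y k L x H hy U).trans ?_)
      exact Nat.mul_le_mul_right _ (Nat.pow_le_pow_left (Nat.mul_le_mul_right _ hU) L)
    exact_mod_cast h2
  have h3 : (G.card : ℝ) ≤ (k * (V + 1) ^ L : ℕ) * ((H / θ + 1 : ℕ) : ℝ) := by
    have h4 := sig_count y k θ L x H hθ hL U G hG hs
    have h5 : G.card ≤ k * (V + 1) ^ L * (H / θ + 1) := by
      refine h4.trans (Nat.mul_le_mul_right _ (Nat.mul_le_mul_left _ ?_))
      exact Nat.pow_le_pow_left (Nat.add_le_add_right hU 1) L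
    exact_mod_cast h5
  have e2 : (0 : ℝ) < 2 ^ L := by positivity
  have e3 : (0 : ℝ) < 2 ^ k := by positivity
  gcongr

end Pool.Agent.Q163.PW
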