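import Pool.Agent.Q163.PW.Par

/-! The number of occurrences of every pattern in every short interval. -/

set_option autoImplicit false

namespace Pool.Agent.Q163.PW

open Finset MeasureTheory Filter Topology Pool.Agent.Q163.RP Pool.Agent.Q163.RX Pool.Agent.Q163.GC
  Pool.Agent.Q163.HC

/-- the constant in the condition on the length -/
def c2 (A E : ℕ) : ℕ := c1 A E + 2 * (A + 1) + 9

section
variable {A E a l b M h L : ℕ}

lemma Par.thy (P : Par A E a l b M h L) : (2 ^ b) ^ 2 * (2 ^ h) ^ M ≤ 2 ^ (4 * b) := by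
  rw [← pow_mul, ← pow_mul, ← pow_add]
  refine Nat.pow_le_pow_right (by norm_num) ?_
  have := P.hhM
  omega

lemma Par.lh (P : Par A E a l b M h L) : l ≤ h := by
  have h1 := P.f3
  have h2 : l ≤ l * (2 * E + 5) := Nat.le_mul_of_pos_right _ (by omega)
  omega

/-- the sums of the weights -/
lemma Par.weights (P : Par A E a l b M h L) {H k x : ℕ} (hH : 2 ^ a ≤ H) (hH' : H < 2 ^ (a + 1))
    (hk : 2 ^ (k + c2 A E * l ^ 2) ≤ H) (hka : k ≤ a) (G : Finset ℕ) (hG : G ⊆ Ioc x (x + H))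
    (U : Finset ℕ) (hU : U.card ≤ 2 ^ (l * (2 * E + 4))) :
    (∑ n ∈ G, (2 : ℝ) ^ (Sn (2 ^ h) k n U).card ≤ 3 * H) ∧
    ((∀ n ∈ G, sig (2 ^ h) k (2 ^ b) n U) →
      ∑ n ∈ G, (2 : ℝ) ^ (Sn (2 ^ h) k n U).card ≤ H / 2 ^ (2 * (A + 1) * l + 8)) := by
  have hkl : k ≤ 2 ^ l := hka.trans P.al
  have hky : k ≤ 2 ^ h := hkl.trans (Nat.pow_le_pow_right (by norm_num) P.lh)
  have hy1 : 1 ≤ 2 ^ h := Nat.one_le_two_pow
  set V := 2 ^ (l * (2 * E + 4)) with hV
  have hVk : V * k ≤ 2 ^ (l * (2 * E + 5)) := by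
    calc V * k ≤ 2 ^ (l * (2 * E + 4)) * 2 ^ l := Nat.mul_le_mul_left _ hkl
      _ = 2 ^ (l * (2 * E + 5)) := by
          rw [← pow_add]
          congr 1
  have hc1 : l * (2 * E + 5) * L = c1 A E * l ^ 2 := by
    rw [P.hL, P.hM]
    unfold c1
    ring
  have hVkL : (V * k) ^ L ≤ 2 ^ (c1 A E * l ^ 2) := by
    calc (V * k) ^ L ≤ (2 ^ (l * (2 * E + 5))) ^ L := Nat.pow_le_pow_left hVk L
      _ = _ := by rw [← pow_mul, hc1]
  have hdiv0 : H / (2 ^ h) ^ L = 0 := by
    refine Nat.div_eq_of_lt (hH'.trans_le ?_)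
    rw [← pow_mul]
    exact Nat.pow_le_pow_right (by norm_num) P.f2
  -- third summand
  have hll : 1 ≤ l ^ 2 := Nat.one_le_pow _ _ P.l1
  have hl2 : l ≤ l ^ 2 := Nat.le_self_pow (by norm_num) l
  have ht3 : (2 : ℝ) ^ k * (((V * k) ^ L : ℕ) * ((H / (2 ^ h) ^ L + 1 : ℕ) : ℝ)) ≤
      H / 2 ^ (2 * (A + 1) * l + 9) := by
    rw [hdiv0, zero_add, Nat.cast_one, mul_one, le_div_iff₀ (by positivity)]
    have e1 : 2 ^ k * (V * k) ^ L * 2 ^ (2 * (A + 1) * l + 9) ≤ H := by
      refine le_trans ?_ hk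
      calc 2 ^ k * (V * k) ^ L * 2 ^ (2 * (A + 1) * l + 9) ≤
            2 ^ k * 2 ^ (c1 A E * l ^ 2) * 2 ^ (2 * (A + 1) * l + 9) :=
            Nat.mul_le_mul_right _ (Nat.mul_le_mul_left _ hVkL)
        _ = 2 ^ (k + c1 A E * l ^ 2 + (2 * (A + 1) * l + 9)) := by rw [← pow_add, ← pow_add]
        _ ≤ 2 ^ (k + c2 A E * l ^ 2) := by
            refine Nat.pow_le_pow_right (by norm_num) ?_
            unfold c2
            nlinarith
    exact_mod_cast e1
  constructor
  · refine (weight_sum (2 ^ h) k L V x H hky hy1 U hU G hG).trans ?_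
    have ht2 : (2 : ℝ) ^ L * ((V * k : ℕ) * ((H / 2 ^ h + 1 : ℕ) : ℝ)) ≤ H := by
      have e1 : 2 * (2 ^ L * (V * k * (H / 2 ^ h + 1))) ≤ 2 * H := by
        calc 2 * (2 ^ L * (V * k * (H / 2 ^ h + 1))) ≤
              2 * (2 ^ L * (2 ^ (l * (2 * E + 5)) * (H / 2 ^ h + 1))) := by gcongr
          _ = 2 ^ (L + l * (2 * E + 5) + 1) * (H / 2 ^ h + 1) := by
              rw [pow_succ, pow_add]
              ring
          _ ≤ 2 ^ h * (H / 2 ^ h + 1) :=
              Nat.mul_le_mul_right _ (Nat.pow_le_pow_right (by norm_num) P.f3)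
          _ = 2 ^ h * (H / 2 ^ h) + 2 ^ h := by ring
          _ ≤ H + H := by
              refine add_le_add (Nat.mul_div_le _ _) (le_trans ?_ hH)
              refine Nat.pow_le_pow_right (by norm_num) ?_
              have h1 := P.hhM
              have h2 := P.hb
              have h3 : h ≤ h * M := Nat.le_mul_of_pos_right _ (by
                rw [P.hM]
                have := P.l1
                positivity)
              omega
          _ = 2 * H := by ring
      have e2 : 2 ^ L * (V * k * (H / 2 ^ h + 1)) ≤ H := by omega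
      exact_mod_cast e2
    have e3 : (H : ℝ) / 2 ^ (2 * (A + 1) * l + 9) ≤ H :=
      div_le_self (Nat.cast_nonneg _) (one_le_pow₀ (by norm_num))
    linarith
  · intro hs
    have hbL : 2 ^ b ≤ (2 ^ h) ^ L := by
      rw [← pow_mul]
      refine Nat.pow_le_pow_right (by norm_num) ?_
      have h1 := P.f2
      have h2 := P.hb
      omega
    refine (weight_sig (2 ^ h) k L V (2 ^ b) x H hky hy1 Nat.one_le_two_pow hbL U hU G hG hs).trans ?_
    have ht1 : (2 : ℝ) ^ L * ((k * (V + 1) ^ L : ℕ) * ((H / 2 ^ b + 1 : ℕ) : ℝ)) ≤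
        H / 2 ^ (2 * (A + 1) * l + 9) := by
      rw [le_div_iff₀ (by positivity)]
      have e1 : 2 ^ b * (2 ^ L * (k * (V + 1) ^ L * (H / 2 ^ b + 1)) * 2 ^ (2 * (A + 1) * l + 9)) ≤
          2 ^ b * H := by
        have e2 : (V + 1) ^ L ≤ 2 ^ (c1 A E * l ^ 2) := by
          rw [← hc1, pow_mul]
          refine Nat.pow_le_pow_left ?_ L
          calc V + 1 ≤ V * 2 := by
                have : 1 ≤ V := Nat.one_le_two_pow
                omega
            _ ≤ V * 2 ^ l := Nat.mul_le_mul_left _ (by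
                calc 2 = 2 ^ 1 := rfl
                  _ ≤ 2 ^ l := Nat.pow_le_pow_right (by norm_num) P.l1)
            _ = 2 ^ (l * (2 * E + 5)) := by
                rw [hV, ← pow_add]
                congr 1
        have e3 : 2 ^ b * (H / 2 ^ b + 1) ≤ 2 * H := by
          have h3 : 2 ^ b ≤ H := le_trans (Nat.pow_le_pow_right (by norm_num) (by
            have := P.hb
            omega)) hH
          have := Nat.mul_div_le H (2 ^ b)
          nlinarith
        calc 2 ^ b * (2 ^ L * (k * (V + 1) ^ L * (H / 2 ^ b + 1)) * 2 ^ (2 * (A + 1) * l + 9)) =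
              2 ^ L * k * (V + 1) ^ L * 2 ^ (2 * (A + 1) * l + 9) * (2 ^ b * (H / 2 ^ b + 1)) := by ring
          _ ≤ 2 ^ L * 2 ^ l * 2 ^ (c1 A E * l ^ 2) * 2 ^ (2 * (A + 1) * l + 9) * (2 * H) := by gcongr
          _ = 2 ^ (10 + L + l + c1 A E * l ^ 2 + 2 * (A + 1) * l) * H := by
              have e5 : 2 ^ (10 + L + l + c1 A E * l ^ 2 + 2 * (A + 1) * l) =
                  2 ^ L * 2 ^ l * 2 ^ (c1 A E * l ^ 2) * 2 ^ (2 * (A + 1) * l + 9) * 2 := by
                rw [← pow_add, ← pow_add, ← pow_add, ← pow_succ]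
                congr 1
                ring
              rw [e5]
              ring
          _ ≤ 2 ^ b * H := Nat.mul_le_mul_right _ (Nat.pow_le_pow_right (by norm_num) P.f4)
      have e4 := Nat.le_of_mul_le_mul_left e1 (by positivity)
      exact_mod_cast e4
    have e5 : (H : ℝ) / 2 ^ (2 * (A + 1) * l + 8) =
        H / 2 ^ (2 * (A + 1) * l + 9) + H / 2 ^ (2 * (A + 1) * l + 9) := by
      rw [pow_succ _ (2 * (A + 1) * l + 8)]
      field_simp
      norm_num
    rw [e5]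
    exact add_le_add ht1 ht3

/-- the probability that the number of occurrences in the good windows is off -/
theorem Par.prob (P : Par A E a l b M h L) (hE : 1 ≤ E) {H k x : ℕ} (hH : 2 ^ a ≤ H)
    (hH' : H < 2 ^ (a + 1)) (hk : 2 ^ (k + c2 A E * l ^ 2) ≤ H) (hx : x ≤ 2 ^ (a ^ E))
    (u : ℕ → ℕ → ℝ) (hu : ∀ n j, |u n j| ≤ 1) :
    cm.real {ω | (H : ℝ) / 2 ^ ((A + 1) * l) < |Yo (Gd (2 ^ h) M (2 ^ (4 * b)) k x H) k u ω|} ≤
      2 * (1 / 16) ^ (a ^ E) := by
  have hka : k ≤ a := by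
    have h1 : 2 ^ k < 2 ^ (a + 1) := by
      refine lt_of_le_of_lt (Nat.pow_le_pow_right (by norm_num) (Nat.le_add_right _ _)) (hk.trans_lt hH')
    have := (Nat.pow_lt_pow_iff_right (by norm_num : 1 < 2)).1 h1
    omega
  have hkl : k ≤ 2 ^ l := hka.trans P.al
  have hky : k ≤ 2 ^ h := hkl.trans (Nat.pow_le_pow_right (by norm_num) P.lh)
  have hy1 : 1 ≤ 2 ^ h := Nat.one_le_two_pow
  have hH0 : 0 < H := lt_of_lt_of_le (by positivity) hH
  have hHR : (0 : ℝ) < H := by exact_mod_cast hH0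
  have ha4 := P.a4
  have haE : a ≤ a ^ E := Nat.le_self_pow (by omega) a
  have h1 := prob_bound (2 ^ h) k (2 ^ b) (a ^ E) (k * (a ^ E + a + 2)) (2 ^ (l * (2 * E + 4))) hky
    (Gd (2 ^ h) M (2 ^ (4 * b)) k x H) (fun n hn => by
      have := (mem_Gd.1 hn).1.1
      omega) (fun n hn j hj => (gd_og P.thy hy1 ((mem_Gd.1 hn).2 j hj)).le)
    (fun n hn j hj => nonempty_og P.thy hy1 Nat.one_le_two_pow ((mem_Gd.1 hn).2 j hj))
    (fun n hn => by
      refine card_bw _ _ _ _ ?_ ?_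
      · have := (mem_Gd.1 hn).1.1
        omega
      · have h2 := (mem_Gd.1 hn).1.2
        have h3 : 2 ^ (a ^ E) ≤ 2 ^ (a ^ E + a) := Nat.pow_le_pow_right (by norm_num) (by omega)
        have h4 : 2 ^ (a + 1) ≤ 2 * 2 ^ (a ^ E + a) := by
          rw [pow_succ, mul_comm]
          exact Nat.mul_le_mul_left _ (Nat.pow_le_pow_right (by norm_num) (by omega))
        have h5 : a < 2 ^ a := Nat.lt_two_pow_self
        have h6 : 2 ^ a ≤ 2 ^ (a ^ E + a) := Nat.pow_le_pow_right (by norm_num) (by omega)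
        have h7 : 2 ^ (a ^ E + a + 2) = 4 * 2 ^ (a ^ E + a) := by
          rw [pow_succ, pow_succ]
          ring
        omega)
    (by
      have h2 : a ^ E + a + 2 ≤ 3 * a ^ E := by omega
      have h3 : a ^ (2 * E + 1) ≤ (2 ^ l) ^ (2 * E + 1) := Nat.pow_le_pow_left P.al _
      calc 2 * a ^ E * (k * (a ^ E + a + 2)) ≤ 2 * a ^ E * (a * (3 * a ^ E)) := by gcongr
        _ = 6 * a ^ (2 * E + 1) := by
            rw [show 2 * E + 1 = E + E + 1 by ring, pow_succ, pow_add]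
            ring
        _ ≤ 2 ^ (3 * l) * (2 ^ l) ^ (2 * E + 1) := by
            refine Nat.mul_le_mul ?_ h3
            calc 6 ≤ 2 ^ 3 := by norm_num
              _ ≤ 2 ^ (3 * l) := Nat.pow_le_pow_right (by norm_num) (by
                  have := P.l1
                  omega)
        _ = 2 ^ (l * (2 * E + 4)) := by
            rw [← pow_mul, ← pow_add]
            congr 1
            ring)
    (3 * H) (H / 2 ^ (2 * (A + 1) * l + 8)) (by positivity) (by
      have : (H : ℝ) / 2 ^ (2 * (A + 1) * l + 8) ≤ H :=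
        div_le_self (Nat.cast_nonneg _) (one_le_pow₀ (by norm_num))
      linarith)
    (fun U hU => (P.weights hH hH' hk hka _ (Gd_sub _ _ _ _ _ _) U hU).1)
    (fun U hU G' hG' hs => (P.weights hH hH' hk hka G' (hG'.trans (Gd_sub _ _ _ _ _ _)) U hU).2 hs)
    u hu (H / 2 ^ ((A + 1) * l)) (by positivity)
  refine h1.trans ?_
  refine mul_le_mul_of_nonneg_left (pow_le_pow_left₀ (by positivity) ?_ _) (by norm_num)
  have e1 : 4 * (3 * (H : ℝ)) * (H / 2 ^ (2 * (A + 1) * l + 8)) / (H / 2 ^ ((A + 1) * l)) ^ 2 =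
      12 / 256 := by
    have e2 : (2 : ℝ) ^ (2 * (A + 1) * l + 8) = ((2 : ℝ) ^ ((A + 1) * l)) ^ 2 * 256 := by
      rw [pow_add, ← pow_mul]
      congr 2
      · ring
      · norm_num
    rw [e2]
    have e3 : (0 : ℝ) < (2 : ℝ) ^ ((A + 1) * l) := by positivity
    field_simp
    norm_num
  rw [e1]
  norm_num

/-- the number of bad windows -/
theorem Par.bad (P : Par A E a l b M h L) {H k x : ℕ} (hH : 2 ^ a ≤ H) (hka : k ≤ a) :
    (H : ℝ) - (Gd (2 ^ h) M (2 ^ (4 * b)) k x H).card ≤ 2 * (H / 2 ^ ((A + 1) * l)) := by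
  have hkl : k ≤ 2 ^ l := hka.trans P.al
  have hy1 : 1 ≤ 2 ^ h := Nat.one_le_two_pow
  have hH0 : 0 < H := lt_of_lt_of_le (by positivity) hH
  have hHR : (0 : ℝ) < H := by exact_mod_cast hH0
  have h1 := bad_count (2 ^ h) M (2 ^ (4 * b)) k x H hy1
  refine h1.trans ?_
  have hkR : (k : ℝ) ≤ 2 ^ l := by exact_mod_cast hkl
  have hbM := P.hhM
  have hb16 := P.hb
  have ha4 := P.a4
  have e1 : (k : ℝ) * (H * (1 + Real.log (((2 ^ h : ℕ) : ℝ) ^ M)) + ((2 ^ h : ℕ) : ℝ) ^ M) / 2 ^ M ≤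
      H / 2 ^ ((A + 1) * l) := by
    have e2 : Real.log (((2 ^ h : ℕ) : ℝ) ^ M) ≤ b := by
      push_cast
      rw [← pow_mul, Real.log_pow]
      have : Real.log 2 ≤ 1 := by
        have := Real.log_two_lt_d9
        linarith
      have h3 : ((h * M : ℕ) : ℝ) ≤ b := by exact_mod_cast hbM
      have h4 : (0 : ℝ) ≤ ((h * M : ℕ) : ℝ) := Nat.cast_nonneg _
      have h5 : 0 ≤ Real.log 2 := Real.log_nonneg (by norm_num)
      nlinarith
    have e3 : ((2 ^ h : ℕ) : ℝ) ^ M ≤ H := by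
      have : (2 ^ h) ^ M ≤ H := by
        rw [← pow_mul]
        exact le_trans (Nat.pow_le_pow_right (by norm_num) (by omega)) hH
      exact_mod_cast this
    have e4 : (b : ℝ) + 2 ≤ 2 ^ l := by
      have h3 := P.al
      have : b + 2 ≤ 2 ^ l := by omega
      exact_mod_cast this
    rw [div_le_div_iff₀ (by positivity) (by positivity), P.hM]
    have e5 : (2 : ℝ) ^ ((A + 3) * l) = 2 ^ l * 2 ^ l * 2 ^ ((A + 1) * l) := by
      rw [← pow_add, ← pow_add]
      congr 1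
      ring
    rw [e5]
    rw [P.hM] at e2 e3
    have e6 : (H : ℝ) * (1 + Real.log (((2 ^ h : ℕ) : ℝ) ^ ((A + 3) * l))) +
        ((2 ^ h : ℕ) : ℝ) ^ ((A + 3) * l) ≤ H * 2 ^ l := by nlinarith
    have e7 : (0 : ℝ) < (2 : ℝ) ^ ((A + 1) * l) := by positivity
    calc (k : ℝ) * (H * (1 + Real.log (((2 ^ h : ℕ) : ℝ) ^ ((A + 3) * l))) +
          ((2 ^ h : ℕ) : ℝ) ^ ((A + 3) * l)) * 2 ^ ((A + 1) * l) ≤
          2 ^ l * (H * 2 ^ l) * 2 ^ ((A + 1) * l) := by
            refine mul_le_mul_of_nonneg_right ?_ e7.le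
            exact (mul_le_mul_of_nonneg_left e6 (Nat.cast_nonneg _)).trans
              (mul_le_mul_of_nonneg_right hkR (by positivity))
      _ = _ := by ring
  have e2 : (k : ℝ) * (((2 ^ (4 * b) : ℕ) : ℝ) * (Nat.sqrt H + 1)) ≤ H / 2 ^ ((A + 1) * l) := by
    rw [le_div_iff₀ (by positivity)]
    have h8 : 2 ^ (8 * b) ≤ Nat.sqrt H := by
      rw [Nat.le_sqrt, ← pow_add]
      exact le_trans (Nat.pow_le_pow_right (by norm_num) (by omega)) hH
    have h9 : Nat.sqrt H * Nat.sqrt H ≤ H := Nat.sqrt_le H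
    have h10 : k * (2 ^ (4 * b) * (Nat.sqrt H + 1)) * 2 ^ ((A + 1) * l) ≤ H := by
      have h11 : 1 ≤ 2 ^ (8 * b) := Nat.one_le_two_pow
      have f4 := P.f4
      have f5 : 2 * (A + 1) * l = 2 * ((A + 1) * l) := by ring
      calc k * (2 ^ (4 * b) * (Nat.sqrt H + 1)) * 2 ^ ((A + 1) * l) ≤
            2 ^ l * (2 ^ (4 * b) * (2 * Nat.sqrt H)) * 2 ^ ((A + 1) * l) := by
            gcongr
            omega
        _ = 2 ^ (l + 4 * b + (A + 1) * l + 1) * Nat.sqrt H := by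
            rw [pow_succ, pow_add, pow_add]
            ring
        _ ≤ 2 ^ (8 * b) * Nat.sqrt H := by
            refine Nat.mul_le_mul_right _ (Nat.pow_le_pow_right (by norm_num) ?_)
            omega
        _ ≤ Nat.sqrt H * Nat.sqrt H := Nat.mul_le_mul_right _ h8
        _ ≤ H := h9
    exact_mod_cast h10
  linarith

end

end Pool.Agent.Q163.PW
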