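import Pool.Agent.Q163.PW.Two
import Pool.Agent.Q163.PW.All

/-! Factorial moments of the number of occurrences of a random word. -/

set_option autoImplicit false

namespace Pool.Agent.Q163.PW

open Finset MeasureTheory Filter Pool.Agent.Q163.RP Pool.Agent.Q163.RX Pool.Agent.Q163.GC Pool.Agent.Q163.HC

open Classical in
/-- the injective tuples -/
noncomputable def IT (G : Finset ℕ) (r : ℕ) : Finset (Fin r → ℕ) :=
  (Fintype.piFinset fun _ : Fin r => G).filter fun z => Function.Injective z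

lemma mem_IT {G : Finset ℕ} {r : ℕ} {z : Fin r → ℕ} :
    z ∈ IT G r ↔ (∀ i, z i ∈ G) ∧ Function.Injective z := by
  unfold IT
  simp only [mem_filter, Fintype.mem_piFinset]

lemma card_IT (G : Finset ℕ) (r : ℕ) : (IT G r).card = G.card.descFactorial r := by
  classical
  have h1 : (IT G r).card = Fintype.card (Fin r ↪ G) := by
    rw [← Fintype.card_coe]
    refine Fintype.card_congr ⟨fun z => ⟨fun i => ⟨z.1 i, (mem_IT.1 z.2).1 i⟩, fun i j h =>
      (mem_IT.1 z.2).2 (Subtype.mk.inj h)⟩, fun e => ⟨fun i => (e i : ℕ), mem_IT.2 ⟨fun i => (e i).2,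
      fun i j h => e.injective (Subtype.ext h)⟩⟩, fun z => rfl, fun e => rfl⟩
  rw [h1, Fintype.card_embedding_eq, Fintype.card_coe, Fintype.card_fin]

/-- the starting points in `G` of the occurrences of a word -/
noncomputable def Mt (G : Finset ℕ) (f : ℕ → ℝ) {k : ℕ} (W : Fin k → Bool) : Finset ℕ := by
  classical
  exact G.filter fun n => ∀ j : Fin k, f (n + j) = if W j then 1 else -1

lemma mem_Mt {G : Finset ℕ} {f : ℕ → ℝ} {k : ℕ} {W : Fin k → Bool} {n : ℕ} :
    n ∈ Mt G f W ↔ n ∈ G ∧ ∀ j : Fin k, f (n + j) = if W j then 1 else -1 := by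
  unfold Mt
  simp only [mem_filter]

/-- the signs of a word -/
noncomputable def sw {k : ℕ} (W : Fin k → Bool) (j : ℕ) : ℝ :=
  if h : j < k then (if W ⟨j, h⟩ then 1 else -1) else 1

open Classical in
lemma ind_eq {k : ℕ} (W : Fin k → Bool) (f : ℕ → ℝ) (hf : ∀ n, f n = 1 ∨ f n = -1) (n : ℕ) :
    (if (∀ j : Fin k, f (n + j) = if W j then 1 else -1) then (1 : ℝ) else 0) =
      (∑ J ∈ (range k).powerset, (∏ j ∈ J, sw W j) * ∏ j ∈ J, f (n + j)) / 2 ^ k := by
  have h1 : ∑ J ∈ (range k).powerset, (∏ j ∈ J, sw W j) * ∏ j ∈ J, f (n + j) =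
      ∏ j ∈ range k, (1 + sw W j * f (n + j)) := by
    rw [prod_one_add]
    refine sum_congr rfl fun J _ => ?_
    rw [prod_mul_distrib]
  rw [h1, ← Fin.prod_univ_eq_prod_range (fun j => 1 + sw W j * f (n + j)) k]
  have h2 : ∀ j : Fin k, 1 + sw W j * f (n + j) =
      if f (n + j) = (if W j then 1 else -1) then 2 else 0 := by
    intro j
    unfold sw
    rw [dif_pos j.2, Fin.eta]
    by_cases hW : W j = true
    · rw [hW]
      rcases hf (n + j) with h4 | h4 <;> rw [h4] <;> norm_num
    · rw [Bool.not_eq_true] at hW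
      rw [hW]
      rcases hf (n + j) with h4 | h4 <;> rw [h4] <;> norm_num
  rw [prod_congr rfl fun j _ => h2 j]
  split_ifs with h
  · rw [prod_congr rfl fun j _ => if_pos (h j), prod_const, card_univ, Fintype.card_fin, div_self]
    positivity
  · push Not at h
    obtain ⟨j, hj⟩ := h
    rw [prod_eq_zero (mem_univ j) (if_neg hj), zero_div]

/-- balanced for one group -/
def bal1 {r : ℕ} (K : Fin r → Finset ℕ) : Prop :=
  ∀ j : ℕ, ∑ i, (if j ∈ K i then (1 : ZMod 2) else 0) = 0

lemma sum_sw {k r : ℕ} (K : Fin r → Finset ℕ) (hK : ∀ i, K i ⊆ range k) :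
    ∑ W : Fin k → Bool, ∏ i, ∏ j ∈ K i, sw W j =
      open Classical in if bal1 K then (2 : ℝ) ^ k else 0 := by
  classical
  set c : ℕ → ℕ := fun j => (univ.filter fun i => j ∈ K i).card with hc
  have h1 : ∀ W : Fin k → Bool, ∏ i, ∏ j ∈ K i, sw W j =
      ∏ j : Fin k, ((if W j then 1 else -1 : ℝ)) ^ c j := by
    intro W
    have e1 : ∀ i, ∏ j ∈ K i, sw W j = ∏ j ∈ range k, if j ∈ K i then sw W j else 1 := by
      intro i
      rw [← prod_filter, filter_mem_eq_inter, inter_eq_right.2 (hK i)]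
    simp_rw [e1]
    rw [Finset.prod_comm,
      ← Fin.prod_univ_eq_prod_range (fun j => ∏ i, if j ∈ K i then sw W j else 1) k]
    refine prod_congr rfl fun j _ => ?_
    rw [← prod_filter, prod_const]
    unfold sw
    rw [dif_pos j.2, Fin.eta]
  simp_rw [h1]
  have h2 := prod_univ_sum (fun _ : Fin k => (univ : Finset Bool))
    (fun j b => ((if b then 1 else -1 : ℝ)) ^ c j)
  rw [Fintype.piFinset_univ] at h2
  rw [← h2]
  have h3 : ∀ j : Fin k, ∑ b : Bool, ((if b then 1 else -1 : ℝ)) ^ c j =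
      if Even (c j) then 2 else 0 := by
    intro j
    rw [Fintype.sum_bool]
    simp only [if_true, Bool.false_eq_true, if_false, one_pow]
    rcases Nat.even_or_odd (c j) with h | h
    · rw [if_pos h, h.neg_one_pow]
      norm_num
    · rw [if_neg (Nat.not_even_iff_odd.2 h), h.neg_one_pow]
      norm_num
  rw [prod_congr rfl fun j _ => h3 j]
  have h4 : ∀ j, ∑ i, (if j ∈ K i then (1 : ZMod 2) else 0) = (c j : ZMod 2) := by
    intro j
    rw [sum_boole]
  split_ifs with h
  · rw [prod_congr rfl fun j _ => if_pos ?_, prod_const, card_univ, Fintype.card_fin]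
    have := h j
    rw [h4] at this
    exact (ZMod.natCast_eq_zero_iff_even).1 this
  · unfold bal1 at h
    push Not at h
    obtain ⟨j, hj⟩ := h
    rw [h4] at hj
    have hjk : j < k := by
      by_contra hge
      apply hj
      have : c j = 0 := by
        rw [hc]
        simp only
        rw [card_eq_zero, filter_eq_empty_iff]
        intro i _ hji
        exact hge (mem_range.1 (hK i hji))
      rw [this, Nat.cast_zero]
    refine prod_eq_zero (mem_univ (⟨j, hjk⟩ : Fin k)) (if_neg fun he => hj ?_)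
    exact (ZMod.natCast_eq_zero_iff_even).2 he

open Classical in
/-- the balanced families with a nonempty member -/
noncomputable def BB (k r : ℕ) : Finset (Fin r → Finset ℕ) :=
  (Fintype.piFinset fun _ : Fin r => (range k).powerset).filter fun K =>
    bal1 K ∧ ∃ i, (K i).Nonempty

lemma mem_BB {k r : ℕ} {K : Fin r → Finset ℕ} :
    K ∈ BB k r ↔ (∀ i, K i ⊆ range k) ∧ bal1 K ∧ ∃ i, (K i).Nonempty := by
  unfold BB
  simp only [mem_filter, Fintype.mem_piFinset, mem_powerset]

/-- the remainder in the factorial moment -/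
noncomputable def Xr (G : Finset ℕ) (k r : ℕ) (g : ℕ → ℝ) (ω : ℕ → Bool) : ℝ :=
  ∑ q ∈ IT G r ×ˢ BB k r, (∏ i, ∏ j ∈ q.2 i, g (q.1 i + j)) * ∏ i, cw ω (q.1 i, q.2 i)

/-- the factorial moments -/
theorem fact_eq (G : Finset ℕ) (k r : ℕ) (g : ℕ → ℝ) (hg : ∀ n, g n = 1 ∨ g n = -1) (ω : ℕ → Bool) :
    ∑ W : Fin k → Bool, (((Mt G (fun n => g n * ch ω n) W).card.descFactorial r : ℕ) : ℝ) =
      2 ^ k / (2 ^ k) ^ r * ((G.card.descFactorial r : ℕ) + Xr G k r g ω) := by
  classical
  set f := fun n => g n * ch ω n with hf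
  have hf1 : ∀ n, f n = 1 ∨ f n = -1 := by
    intro n
    have h3 : ch ω n = 1 ∨ ch ω n = -1 := by
      rcases abs_eq (by norm_num : (0 : ℝ) ≤ 1) |>.1 (abs_ch ω n) with h | h
      · exact Or.inl h
      · exact Or.inr h
    rw [hf]
    rcases hg n with h4 | h4 <;> rcases h3 with h5 | h5 <;> simp only [h4, h5] <;> norm_num
  have h1 : ∀ W : Fin k → Bool, (((Mt G f W).card.descFactorial r : ℕ) : ℝ) =
      ∑ z ∈ IT G r, ∏ i, (if (∀ j : Fin k, f (z i + j) = if W j then 1 else -1) then (1 : ℝ) else 0) := by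
    intro W
    rw [← card_IT]
    have e1 : IT (Mt G f W) r = (IT G r).filter fun z =>
        ∀ i, ∀ j : Fin k, f (z i + j) = if W j then 1 else -1 := by
      ext z
      rw [mem_filter, mem_IT, mem_IT]
      simp only [mem_Mt]
      constructor
      · rintro ⟨h1, h2⟩
        exact ⟨⟨fun i => (h1 i).1, h2⟩, fun i => (h1 i).2⟩
      · rintro ⟨⟨h1, h2⟩, h3⟩
        exact ⟨fun i => ⟨h1 i, h3 i⟩, h2⟩
    rw [e1, card_filter]
    push_cast
    refine sum_congr rfl fun z _ => ?_
    split_ifs with h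
    · exact (prod_eq_one fun i _ => if_pos (h i)).symm
    · push Not at h
      obtain ⟨i, j, hij⟩ := h
      refine (prod_eq_zero (mem_univ i) (if_neg fun h' => hij (h' j))).symm
  simp_rw [h1]
  rw [sum_comm]
  have h2 : ∀ z ∈ IT G r, ∑ W : Fin k → Bool,
      ∏ i, (if (∀ j : Fin k, f (z i + j) = if W j then 1 else -1) then (1 : ℝ) else 0) =
      2 ^ k / (2 ^ k) ^ r * (1 + ∑ K ∈ BB k r, (∏ i, ∏ j ∈ K i, g (z i + j)) * ∏ i, cw ω (z i, K i)) := by
    intro z _
    have e1 : ∀ W : Fin k → Bool,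
        ∏ i, (if (∀ j : Fin k, f (z i + j) = if W j then 1 else -1) then (1 : ℝ) else 0) =
        (∑ K ∈ Fintype.piFinset fun _ : Fin r => (range k).powerset,
          (∏ i, ∏ j ∈ K i, sw W j) * ∏ i, ∏ j ∈ K i, f (z i + j)) / (2 ^ k) ^ r := by
      intro W
      rw [prod_congr rfl fun i _ => ind_eq W f hf1 (z i), prod_div_distrib, prod_const, card_univ,
        Fintype.card_fin, prod_univ_sum]
      congr 1
      refine sum_congr rfl fun K _ => ?_
      rw [prod_mul_distrib]
    simp_rw [e1]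
    rw [← sum_div, sum_comm]
    have e2 : ∀ K ∈ Fintype.piFinset fun _ : Fin r => (range k).powerset,
        ∑ W : Fin k → Bool, (∏ i, ∏ j ∈ K i, sw W j) * ∏ i, ∏ j ∈ K i, f (z i + j) =
        if bal1 K then 2 ^ k * ∏ i, ∏ j ∈ K i, f (z i + j) else 0 := by
      intro K hK
      rw [Fintype.mem_piFinset] at hK
      rw [← sum_mul, sum_sw K fun i => mem_powerset.1 (hK i)]
      split_ifs
      · rfl
      · rw [zero_mul]
    rw [sum_congr rfl e2, ← sum_filter, ← mul_sum]
    have hsplit : (Fintype.piFinset fun _ : Fin r => (range k).powerset).filter (fun K => bal1 K) =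
        insert (fun _ => ∅) (BB k r) := by
      ext K
      rw [mem_filter, Fintype.mem_piFinset, mem_insert, mem_BB]
      constructor
      · rintro ⟨h3, h4⟩
        by_cases h5 : ∃ i, (K i).Nonempty
        · exact Or.inr ⟨fun i => mem_powerset.1 (h3 i), h4, h5⟩
        · left
          funext i
          push Not at h5
          exact h5 i
      · rintro (h3 | h3)
        · subst h3
          refine ⟨fun i => mem_powerset.2 (empty_subset _), fun j => ?_⟩
          simp
        · exact ⟨fun i => mem_powerset.2 (h3.1 i), h3.2.1⟩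
    have hnot : (fun _ => ∅ : Fin r → Finset ℕ) ∉ BB k r := by
      intro h
      obtain ⟨i, hi⟩ := (mem_BB.1 h).2.2
      exact not_nonempty_empty hi
    rw [hsplit, sum_insert hnot]
    have e3 : ∏ i : Fin r, ∏ j ∈ (∅ : Finset ℕ), f (z i + j) = 1 := by simp
    rw [e3]
    have e4 : ∀ K : Fin r → Finset ℕ, ∏ i, ∏ j ∈ K i, f (z i + j) =
        (∏ i, ∏ j ∈ K i, g (z i + j)) * ∏ i, cw ω (z i, K i) := by
      intro K
      rw [← prod_mul_distrib]
      refine prod_congr rfl fun i _ => ?_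
      unfold cw
      rw [← prod_mul_distrib]
    rw [sum_congr rfl fun K _ => e4 K]
    ring
  rw [sum_congr rfl h2, ← mul_sum, sum_add_distrib, sum_const, nsmul_one, card_IT]
  unfold Xr
  rw [sum_product]

open Classical in
/-- the second moment of the remainder -/
theorem Xr_sec (G : Finset ℕ) (hG : ∀ n ∈ G, n ≠ 0) (k n r : ℕ) (hr : n + 2 = r + r) (g : ℕ → ℝ)
    (hg : ∀ n, g n = 1 ∨ g n = -1) : ∃ grp : Fin (n + 2) → Bool,
    ∫ ω, Xr G k r g ω ^ 2 ∂cm ≤ ∑ z ∈ (Fintype.piFinset fun _ : Fin (n + 2) => G).filter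
        (fun z => ∀ i i', i ≠ i' → grp i = grp i' → z i ≠ z i'), ((BF k grp z).card : ℝ) := by
  have hcardeq : Fintype.card (Fin (n + 2)) = Fintype.card (Fin r ⊕ Fin r) := by
    rw [Fintype.card_sum, Fintype.card_fin, Fintype.card_fin, hr]
  set e : Fin (n + 2) ≃ Fin r ⊕ Fin r := Fintype.equivOfCardEq hcardeq with he
  set grp : Fin (n + 2) → Bool := fun i => (e i).isLeft with hgrp
  refine ⟨grp, ?_⟩
  set Q := IT G r ×ˢ BB k r with hQ
  set c : (Fin r → ℕ) × (Fin r → Finset ℕ) → ℝ := fun q => ∏ i, ∏ j ∈ q.2 i, g (q.1 i + j) with hc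
  have hc1 : ∀ q, |c q| ≤ 1 := by
    intro q
    rw [hc]
    simp only
    rw [abs_prod]
    refine prod_le_one (fun _ _ => abs_nonneg _) fun i _ => ?_
    rw [abs_prod]
    refine prod_le_one (fun _ _ => abs_nonneg _) fun j _ => ?_
    rcases hg (q.1 i + j) with h | h <;> rw [h] <;> simp
  have hsq : ∀ ω, Xr G k r g ω ^ 2 = ∑ x ∈ Q ×ˢ Q, (c x.1 * c x.2) *
      ∏ i : Fin r ⊕ Fin r, cw ω (Sum.elim x.1.1 x.2.1 i, Sum.elim x.1.2 x.2.2 i) := by
    intro ω
    unfold Xr
    rw [sq, sum_mul_sum, ← sum_product']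
    refine sum_congr rfl fun x _ => ?_
    rw [Fintype.prod_sum_type]
    simp only [Sum.elim_inl, Sum.elim_inr]
    rw [hc]
    ring
  simp_rw [hsq]
  have hint : ∀ x : ((Fin r → ℕ) × (Fin r → Finset ℕ)) × ((Fin r → ℕ) × (Fin r → Finset ℕ)),
      Integrable (fun ω => (c x.1 * c x.2) *
        ∏ i : Fin r ⊕ Fin r, cw ω (Sum.elim x.1.1 x.2.1 i, Sum.elim x.1.2 x.2.2 i)) cm := by
    intro x
    refine Integrable.const_mul ?_ _
    refine Integrable.of_bound (Finset.measurable_fun_prod _ fun i _ =>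
      meas_cw _).aestronglyMeasurable 1 (Eventually.of_forall fun ω => ?_)
    rw [Real.norm_eq_abs, abs_prod]
    exact (prod_eq_one fun i _ => abs_cw ω _).le
  rw [integral_finsetSum _ fun x _ => hint x]
  have h1 : ∀ x ∈ Q ×ˢ Q, ∫ ω, (c x.1 * c x.2) *
      ∏ i : Fin r ⊕ Fin r, cw ω (Sum.elim x.1.1 x.2.1 i, Sum.elim x.1.2 x.2.2 i) ∂cm ≤
      if rel (Sum.elim x.1.1 x.2.1) (Sum.elim x.1.2 x.2.2) then 1 else 0 := by
    intro x hx
    rw [mem_product, hQ, mem_product, mem_product, mem_IT, mem_IT] at hx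
    rw [integral_const_mul]
    refine (le_abs_self _).trans ?_
    rw [abs_mul, abs_mul]
    have h2 := mean_cw (Sum.elim x.1.1 x.2.1) (fun i => by
      rcases i with i | i
      · exact hG _ (hx.1.1.1 i)
      · exact hG _ (hx.2.1.1 i)) (Sum.elim x.1.2 x.2.2)
    have h3 : |c x.1| * |c x.2| ≤ 1 := mul_le_one₀ (hc1 _) (abs_nonneg _) (hc1 _)
    calc _ ≤ 1 * |∫ ω, ∏ i : Fin r ⊕ Fin r,
          cw ω (Sum.elim x.1.1 x.2.1 i, Sum.elim x.1.2 x.2.2 i) ∂cm| :=
          mul_le_mul_of_nonneg_right h3 (abs_nonneg _)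
      _ ≤ _ := by
          rw [one_mul]
          exact h2
  refine (sum_le_sum h1).trans ?_
  rw [sum_boole]
  set B := (Q ×ˢ Q).filter (fun x => rel (Sum.elim x.1.1 x.2.1) (Sum.elim x.1.2 x.2.2)) with hB
  set Z := (Fintype.piFinset fun _ : Fin (n + 2) => G).filter
        (fun z => ∀ i i', i ≠ i' → grp i = grp i' → z i ≠ z i') with hZ
  have h4 : B.card ≤ (Z.sigma fun z => BF k grp z).card := by
    refine card_le_card_of_injOn (fun x => ⟨fun i => Sum.elim x.1.1 x.2.1 (e i),
      fun i => Sum.elim x.1.2 x.2.2 (e i)⟩) ?_ ?_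
    · intro x hx
      rw [mem_coe, hB, mem_filter, mem_product, hQ, mem_product, mem_product, mem_IT, mem_IT,
        mem_BB, mem_BB] at hx
      obtain ⟨⟨⟨⟨z1, z2⟩, K1, K2, K3⟩, ⟨z3, z4⟩, K4, K5, K6⟩, hrel⟩ := hx
      rw [mem_coe, mem_sigma, mem_BF, hZ, mem_filter, Fintype.mem_piFinset]
      refine ⟨⟨fun i => ?_, fun i i' hne hgi => ?_⟩, fun i => ?_, ?_, ?_, ?_⟩
      · simp only
        rcases e i with j | j
        · exact z1 j
        · exact z3 j
      · simp only
        rw [hgrp] at hgi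
        simp only at hgi
        have hne' : e i ≠ e i' := fun h => hne (e.injective h)
        rcases hi : e i with j | j <;> rcases hi' : e i' with j' | j' <;> rw [hi, hi'] at hgi hne'
        · simp only [Sum.elim_inl]
          exact fun h => hne' (by rw [z2 h])
        · simp at hgi
        · simp at hgi
        · simp only [Sum.elim_inr]
          exact fun h => hne' (by rw [z4 h])
      · simp only
        rcases e i with j | j
        · exact K1 j
        · exact K4 j
      · intro p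
        rw [← hrel p]
        exact Equiv.sum_comp e fun i => ∑ j ∈ Sum.elim x.1.2 x.2.2 i,
          vv (Sum.elim x.1.1 x.2.1 i + j) p
      · intro γ j
        have h5 : ∑ i, (if grp i = γ ∧ j ∈ Sum.elim x.1.2 x.2.2 (e i) then (1 : ZMod 2) else 0) =
            ∑ i : Fin r ⊕ Fin r, (if i.isLeft = γ ∧ j ∈ Sum.elim x.1.2 x.2.2 i
              then (1 : ZMod 2) else 0) :=
          Equiv.sum_comp e fun i : Fin r ⊕ Fin r => (if i.isLeft = γ ∧
            j ∈ Sum.elim x.1.2 x.2.2 i then (1 : ZMod 2) else 0)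
        refine h5.trans ?_
        rw [Fintype.sum_sum_type]
        simp only [Sum.elim_inl, Sum.elim_inr, Sum.isLeft_inl, Sum.isLeft_inr]
        cases γ
        · simp only [Bool.true_eq_false, false_and, if_false, sum_const_zero, true_and, zero_add]
          exact K5 j
        · simp only [true_and, Bool.false_eq_true, false_and, if_false, sum_const_zero, add_zero]
          exact K2 j
      · obtain ⟨i, hi⟩ := K3
        refine ⟨e.symm (Sum.inl i), ?_⟩
        simp only
        rw [Equiv.apply_symm_apply]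
        exact hi
    · intro x _ x' _ h
      simp only [Sigma.mk.injEq, heq_eq_eq] at h
      obtain ⟨h6, h7⟩ := h
      have h8 : ∀ i, Sum.elim x.1.1 x.2.1 i = Sum.elim x'.1.1 x'.2.1 i := fun i => by
        have := congrFun h6 (e.symm i)
        simpa using this
      have h9 : ∀ i, Sum.elim x.1.2 x.2.2 i = Sum.elim x'.1.2 x'.2.2 i := fun i => by
        have := congrFun h7 (e.symm i)
        simpa using this
      refine Prod.ext (Prod.ext ?_ ?_) (Prod.ext ?_ ?_)
      · funext i
        exact h8 (Sum.inl i)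
      · funext i
        exact h9 (Sum.inl i)
      · funext i
        exact h8 (Sum.inr i)
      · funext i
        exact h9 (Sum.inr i)
  rw [card_sigma] at h4
  exact_mod_cast h4

end Pool.Agent.Q163.PW
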