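import Pool.Agent.Q163.PW.Law

/-! All Jordan measurable sets at once. -/

set_option autoImplicit false

namespace Pool.Agent.Q163.PW

open Finset MeasureTheory Filter Topology Pool.Agent.Q163.RP Pool.Agent.Q163.RX Pool.Agent.Q163.GC
  Pool.Agent.Q163.HC

/-- the union of the dyadic intervals `(t / 2 ^ m, (t + 1) / 2 ^ m]` -/
def dy (T : Finset ℕ) (m : ℕ) : Set ℝ := {x | ∃ t ∈ T, (t : ℝ) / 2 ^ m < x ∧ x ≤ (t + 1) / 2 ^ m}

lemma dy_eq (T : Finset ℕ) (m : ℕ) :
    dy T m = ⋃ t ∈ T, Set.Ioc ((t : ℝ) / 2 ^ m) ((t + 1) / 2 ^ m) := by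
  ext x
  unfold dy
  simp only [Set.mem_iUnion, Set.mem_Ioc, exists_prop]
  rfl

lemma dy_disj {t t' m : ℕ} (h : t ≠ t') :
    Disjoint (Set.Ioc ((t : ℝ) / 2 ^ m) ((t + 1) / 2 ^ m)) (Set.Ioc ((t' : ℝ) / 2 ^ m) ((t' + 1) / 2 ^ m)) := by
  rw [Set.disjoint_left]
  rintro x ⟨h1, h2⟩ ⟨h3, h4⟩
  have e1 : (0 : ℝ) < 2 ^ m := by positivity
  rw [div_lt_iff₀ e1] at h1 h3
  rw [le_div_iff₀ e1] at h2 h4
  have h5 : (t : ℝ) < t' + 1 := by linarith
  have h6 : (t' : ℝ) < t + 1 := by linarith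
  have h7 : t < t' + 1 := by exact_mod_cast h5
  have h8 : t' < t + 1 := by exact_mod_cast h6
  omega

lemma vol_dy (T : Finset ℕ) (m : ℕ) : volume (dy T m) = ENNReal.ofReal (T.card / 2 ^ m) := by
  rw [dy_eq, measure_biUnion_finset (fun t _ t' _ h => dy_disj h) fun t _ => measurableSet_Ioc]
  have h1 : ∀ t ∈ T, volume (Set.Ioc ((t : ℝ) / 2 ^ m) ((t + 1) / 2 ^ m)) =
      ENNReal.ofReal (1 / 2 ^ m) := by
    intro t _
    rw [Real.volume_Ioc]
    congr 1
    ring
  rw [sum_congr rfl h1, sum_const, nsmul_eq_mul, div_eq_mul_one_div (T.card : ℝ),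
    ENNReal.ofReal_mul (Nat.cast_nonneg _), ENNReal.ofReal_natCast]

lemma meets {I U : Set ℝ} (hI : IsPreconnected I) (h1 : (I ∩ U).Nonempty) (h2 : ¬ I ⊆ U) :
    (I ∩ frontier U).Nonempty := by
  by_contra hcon
  rw [Set.not_nonempty_iff_eq_empty] at hcon
  have h3 : I ⊆ interior U ∪ (closure U)ᶜ := by
    intro x hx
    by_cases h4 : x ∈ closure U
    · left
      by_contra h5
      have : x ∈ I ∩ frontier U := ⟨hx, h4, h5⟩
      rw [hcon] at this
      exact this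
    · exact Or.inr h4
  rcases IsPreconnected.subset_or_subset isOpen_interior isClosed_closure.isOpen_compl
    (Set.disjoint_left.2 fun x hx hx' => hx' (subset_closure (interior_subset hx))) h3 hI with h | h
  · exact h2 (h.trans interior_subset)
  · obtain ⟨x, hx, hxU⟩ := h1
    exact h hx (subset_closure hxU)

/-- a bounded set with a null boundary is close to unions of dyadic intervals -/
theorem jordan (U : Set ℝ) (hb : Bornology.IsBounded U) (hU : U ⊆ Set.Ioi 0)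
    (hf : volume (frontier U) = 0) (ε : ℝ) (hε : 0 < ε) :
    ∃ (m : ℕ) (T1 T2 : Finset ℕ), dy T1 m ⊆ U ∧ U ⊆ dy T2 m ∧
      |(T1.card : ℝ) / 2 ^ m - (volume U).toReal| < ε ∧
      |(T2.card : ℝ) / 2 ^ m - (volume U).toReal| < ε := by
  classical
  obtain ⟨B, hB⟩ : ∃ B : ℕ, ∀ x ∈ U, x ≤ B := by
    obtain ⟨R, hR⟩ := hb.subset_closedBall 0
    obtain ⟨B, hB⟩ := exists_nat_ge R
    refine ⟨B, fun x hx => ?_⟩
    have := hR hx
    rw [mem_closedBall_zero_iff, Real.norm_eq_abs] at this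
    exact ((le_abs_self x).trans this).trans hB
  have hK : IsCompact (frontier U) :=
    Metric.isCompact_of_isClosed_isBounded isClosed_frontier
      (hb.closure.subset frontier_subset_closure)
  have h1 := tendsto_measure_cthickening_of_isCompact (μ := (volume : Measure ℝ)) hK
  rw [hf] at h1
  have h2 : Tendsto (fun m : ℕ => 1 / (2 : ℝ) ^ m) atTop (𝓝 0) := by
    have := tendsto_pow_atTop_nhds_zero_of_lt_one (r := (1 / 2 : ℝ)) (by norm_num) (by norm_num)
    refine this.congr fun m => ?_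
    rw [div_pow, one_pow]
  obtain ⟨m, hm⟩ := ((h1.comp h2).eventually (gt_mem_nhds (ENNReal.ofReal_pos.2 hε))).exists
  set I : ℕ → Set ℝ := fun t => Set.Ioc ((t : ℝ) / 2 ^ m) ((t + 1) / 2 ^ m) with hI
  set T2 := (range (B * 2 ^ m)).filter (fun t => (I t ∩ U).Nonempty) with hT2
  set T1 := (range (B * 2 ^ m)).filter (fun t => I t ⊆ U) with hT1
  have e2 : (0 : ℝ) < 2 ^ m := by positivity
  have hIne : ∀ t, (I t).Nonempty := by
    intro t
    refine ⟨(t + 1) / 2 ^ m, ?_, le_rfl⟩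
    exact div_lt_div_of_pos_right (by linarith) e2
  have h12 : T1 ⊆ T2 := by
    intro t ht
    rw [hT1, mem_filter] at ht
    rw [hT2, mem_filter]
    obtain ⟨x, hx⟩ := hIne t
    exact ⟨ht.1, x, hx, ht.2 hx⟩
  have hd1 : dy T1 m ⊆ U := by
    rintro x ⟨t, ht, hx⟩
    rw [hT1, mem_filter] at ht
    exact ht.2 hx
  have hd2 : U ⊆ dy T2 m := by
    intro x hx
    have hx0 : 0 < x := hU hx
    have hx1 := hB x hx
    have h3 : 0 < x * 2 ^ m := by positivity
    have h4 : 0 < ⌈x * 2 ^ m⌉₊ := Nat.ceil_pos.2 h3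
    obtain ⟨t, ht⟩ : ∃ t, ⌈x * 2 ^ m⌉₊ = t + 1 := ⟨⌈x * 2 ^ m⌉₊ - 1, by omega⟩
    have h5 : x * 2 ^ m ≤ t + 1 := by
      have := Nat.le_ceil (x * 2 ^ m)
      rw [ht] at this
      exact_mod_cast this
    have h6 : (t : ℝ) < x * 2 ^ m := by
      have := Nat.ceil_lt_add_one h3.le
      rw [ht] at this
      push_cast at this
      linarith
    have h7 : x ∈ I t := ⟨by rwa [div_lt_iff₀ e2], by rwa [le_div_iff₀ e2]⟩
    refine ⟨t, ?_, h7⟩
    rw [hT2, mem_filter, mem_range]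
    refine ⟨?_, x, h7, hx⟩
    have h8 : (t : ℝ) < B * 2 ^ m := by nlinarith
    exact_mod_cast h8
  have hd3 : dy (T2 \ T1) m ⊆ Metric.cthickening (1 / 2 ^ m) (frontier U) := by
    rintro x ⟨t, ht, hx⟩
    rw [Finset.mem_sdiff, hT1, hT2, mem_filter, mem_filter] at ht
    obtain ⟨⟨h3, h4⟩, h5⟩ := ht
    have h6 : ¬ I t ⊆ U := fun h => h5 ⟨h3, h⟩
    obtain ⟨y, hy, hyf⟩ := meets isPreconnected_Ioc h4 h6
    refine Metric.mem_cthickening_of_dist_le x y _ _ hyf ?_
    have h7 := hx.1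
    have h8 := hx.2
    have h9 := hy.1
    have h10 := hy.2
    have e3 : ((t : ℝ) + 1) / 2 ^ m = t / 2 ^ m + 1 / 2 ^ m := by ring
    rw [e3] at h8 h10
    rw [Real.dist_eq, abs_le]
    constructor <;> linarith
  have hvU : volume U ≠ ⊤ := by
    refine ((measure_mono hd2).trans_lt ?_).ne
    rw [vol_dy]
    exact ENNReal.ofReal_lt_top
  have q1 : (T1.card : ℝ) / 2 ^ m ≤ (volume U).toReal := by
    have h3 := measure_mono (μ := volume) hd1
    rw [vol_dy] at h3
    exact (ENNReal.ofReal_le_iff_le_toReal hvU).1 h3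
  have q2 : (volume U).toReal ≤ (T2.card : ℝ) / 2 ^ m := by
    have h3 := measure_mono (μ := volume) hd2
    rw [vol_dy] at h3
    exact ENNReal.toReal_le_of_le_ofReal (by positivity) h3
  have q3 : (T2.card : ℝ) / 2 ^ m - T1.card / 2 ^ m < ε := by
    have h3 := (measure_mono (μ := volume) hd3).trans_lt hm
    rw [vol_dy] at h3
    have h4 := (ENNReal.ofReal_lt_ofReal_iff hε).1 h3
    have h5 := card_sdiff_add_card_eq_card h12
    have h6 : (T2.card : ℝ) = (T2 \ T1).card + T1.card := by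
      rw [← h5]
      push_cast
      rfl
    rw [h6, add_div]
    linarith
  refine ⟨m, T1, T2, hd1, hd2, ?_, ?_⟩
  · rw [abs_lt]
    constructor <;> linarith
  · rw [abs_lt]
    constructor <;> linarith

/-- the integers `n` with `n / 2 ^ k` in `dy T m` -/
def dS (T : Finset ℕ) (m k : ℕ) : Finset ℕ :=
  T.biUnion fun t => Ioc (t * 2 ^ (k - m)) ((t + 1) * 2 ^ (k - m))

lemma mem_dS {T : Finset ℕ} {m k n : ℕ} (h : m ≤ k) : n ∈ dS T m k ↔ (n : ℝ) / 2 ^ k ∈ dy T m := by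
  unfold dS dy
  rw [mem_biUnion]
  refine exists_congr fun t => and_congr_right fun _ => ?_
  rw [mem_Ioc]
  have e0 : (2 : ℝ) ^ k = 2 ^ (k - m) * 2 ^ m := by
    rw [← pow_add]
    congr 1
    omega
  have e1 : (0 : ℝ) < 2 ^ m := by positivity
  have e2 : (0 : ℝ) < 2 ^ (k - m) := by positivity
  refine and_congr ?_ ?_
  · rw [e0, div_lt_div_iff₀ e1 (by positivity), ← mul_assoc, mul_lt_mul_iff_left₀ e1]
    exact_mod_cast Iff.rfl
  · rw [e0, div_le_div_iff₀ (by positivity) e1, ← mul_assoc, mul_le_mul_iff_left₀ e1]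
    exact_mod_cast Iff.rfl

lemma card_dS (T : Finset ℕ) (m k : ℕ) : (dS T m k).card = T.card * 2 ^ (k - m) := by
  unfold dS
  rw [card_biUnion, sum_congr rfl (g := fun _ => 2 ^ (k - m)), sum_const, smul_eq_mul]
  · intro t _
    rw [Nat.card_Ioc, add_mul, one_mul, Nat.add_sub_cancel_left]
  · intro t _ t' _ h
    rw [Function.onFun, Finset.disjoint_left]
    intro n hn hn'
    rw [mem_Ioc] at hn hn'
    have h1 : t < t' + 1 := lt_of_mul_lt_mul_right (hn.1.trans_le hn'.2) (Nat.zero_le _)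
    have h2 : t' < t + 1 := lt_of_mul_lt_mul_right (hn'.1.trans_le hn.2) (Nat.zero_le _)
    omega

/-- almost surely for all dyadic unions -/
theorem ae_dS (g : ℕ → ℝ) (hg : ∀ n, g n = 1 ∨ g n = -1) :
    ∀ᵐ ω ∂cm, ∀ (T : Finset ℕ) (m j : ℕ),
      Tendsto (fun k => freq (fun n => g n * ch ω n) k (dS T m k) j) atTop
        (𝓝 (Real.exp (-(T.card / 2 ^ m : ℝ)) * ((T.card / 2 ^ m : ℝ) ^ j / j.factorial))) := by
  rw [ae_all_iff]
  intro T
  rw [ae_all_iff]
  intro m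
  obtain ⟨d, hd⟩ : ∃ d, ∀ t ∈ T, t + 1 ≤ d := by
    refine ⟨T.sup id + 1, fun t ht => ?_⟩
    have := le_sup (f := id) ht
    simp only [id] at this
    omega
  refine ae_law 1 d le_rfl g hg (fun _ => 0) (fun k => dS T m k) _
    (Eventually.of_forall fun k => Nat.zero_le _) ?_ ?_
  · filter_upwards [eventually_ge_atTop m] with k hk n hn
    unfold dS at hn
    rw [mem_biUnion] at hn
    obtain ⟨t, ht, hn⟩ := hn
    rw [mem_Ioc] at hn ⊢
    refine ⟨by omega, ?_⟩
    rw [zero_add]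
    refine hn.2.trans ?_
    calc (t + 1) * 2 ^ (k - m) ≤ 2 ^ d * 2 ^ k := by
          refine Nat.mul_le_mul ?_ (Nat.pow_le_pow_right (by norm_num) (Nat.sub_le _ _))
          exact (hd t ht).trans Nat.lt_two_pow_self.le
      _ = 2 ^ (k + d) := by
          rw [← pow_add, add_comm]
  · refine tendsto_const_nhds.congr' ?_
    filter_upwards [eventually_ge_atTop m] with k hk
    rw [card_dS]
    push_cast
    have e0 : (2 : ℝ) ^ k = 2 ^ (k - m) * 2 ^ m := by
      rw [← pow_add]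
      congr 1
      omega
    rw [e0]
    field_simp

/-- the proportion of the words which occur at most `j` times -/
noncomputable def cdf (f : ℕ → ℝ) (k : ℕ) (S : Finset ℕ) (j : ℕ) : ℝ :=
  ∑ i ∈ range (j + 1), freq f k S i

lemma cdf_eq (f : ℕ → ℝ) (k : ℕ) (S : Finset ℕ) (j : ℕ) :
    cdf f k S j = ((univ.filter fun W : Fin k → Bool => (Mt S f W).card ≤ j).card : ℝ) / 2 ^ k := by
  unfold cdf
  simp_rw [freq_eq]
  rw [← sum_div]
  congr 1
  simp_rw [← sum_boole]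
  rw [sum_comm]
  refine sum_congr rfl fun W _ => ?_
  by_cases h : (Mt S f W).card ≤ j
  · rw [if_pos h, sum_ite_eq (range (j + 1)) (Mt S f W).card, if_pos (mem_range.2 (by omega))]
  · rw [if_neg h, sum_ite_eq (range (j + 1)) (Mt S f W).card, if_neg (fun h' => h (by
      have := mem_range.1 h'
      omega))]

lemma cdf_anti (f : ℕ → ℝ) (k : ℕ) {S S' : Finset ℕ} (h : S ⊆ S') (j : ℕ) :
    cdf f k S' j ≤ cdf f k S j := by
  rw [cdf_eq, cdf_eq]
  refine div_le_div_of_nonneg_right ?_ (by positivity)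
  have h1 : (univ.filter fun W : Fin k → Bool => (Mt S' f W).card ≤ j).card ≤
      (univ.filter fun W : Fin k → Bool => (Mt S f W).card ≤ j).card := by
    refine card_le_card fun W hW => ?_
    rw [mem_filter] at hW ⊢
    refine ⟨hW.1, (card_le_card ?_).trans hW.2⟩
    intro n hn
    rw [mem_Mt] at hn ⊢
    exact ⟨h hn.1, hn.2⟩
  exact_mod_cast h1

/-- the distribution function of the Poisson law -/
noncomputable def pcdf (v : ℝ) (j : ℕ) : ℝ :=
  ∑ i ∈ range (j + 1), Real.exp (-v) * (v ^ i / i.factorial)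

lemma cont_pcdf (j : ℕ) : Continuous fun v => pcdf v j := by
  unfold pcdf
  fun_prop

/-- from the dyadic unions to all sets with content -/
theorem sandwich (f : ℕ → ℝ) (hd : ∀ (T : Finset ℕ) (m j : ℕ),
      Tendsto (fun k => freq f k (dS T m k) j) atTop
        (𝓝 (Real.exp (-(T.card / 2 ^ m : ℝ)) * ((T.card / 2 ^ m : ℝ) ^ j / j.factorial))))
    (v : ℝ) (S : ℕ → Finset ℕ)
    (hS : ∀ ε : ℝ, 0 < ε → ∃ (m : ℕ) (T1 T2 : Finset ℕ), |(T1.card : ℝ) / 2 ^ m - v| < ε ∧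
      |(T2.card : ℝ) / 2 ^ m - v| < ε ∧ ∀ᶠ k in atTop, dS T1 m k ⊆ S k ∧ S k ⊆ dS T2 m k) (j : ℕ) :
    Tendsto (fun k => freq f k (S k) j) atTop (𝓝 (Real.exp (-v) * (v ^ j / j.factorial))) := by
  have hcd : ∀ (T : Finset ℕ) (m j : ℕ), Tendsto (fun k => cdf f k (dS T m k) j) atTop
      (𝓝 (pcdf (T.card / 2 ^ m : ℝ) j)) := by
    intro T m j
    exact tendsto_finsetSum _ fun i _ => hd T m i
  have h1 : ∀ j, Tendsto (fun k => cdf f k (S k) j) atTop (𝓝 (pcdf v j)) := by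
    intro j
    rw [Metric.tendsto_nhds]
    intro ε hε
    obtain ⟨δ, hδ, hδ'⟩ := Metric.continuousAt_iff.1 ((cont_pcdf j).continuousAt (x := v)) (ε / 2)
      (by positivity)
    obtain ⟨m, T1, T2, q1, q2, q3⟩ := hS δ hδ
    have r1 := hδ' (show dist ((T1.card : ℝ) / 2 ^ m) v < δ by rwa [Real.dist_eq])
    have r2 := hδ' (show dist ((T2.card : ℝ) / 2 ^ m) v < δ by rwa [Real.dist_eq])
    filter_upwards [q3, Metric.tendsto_nhds.1 (hcd T1 m j) (ε / 2) (by positivity),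
      Metric.tendsto_nhds.1 (hcd T2 m j) (ε / 2) (by positivity)] with k hk s1 s2
    have t1 := cdf_anti f k hk.1 j
    have t2 := cdf_anti f k hk.2 j
    rw [Real.dist_eq, abs_lt] at r1 r2 s1 s2
    rw [Real.dist_eq, abs_lt]
    constructor <;> linarith
  rcases Nat.eq_zero_or_pos j with h0 | h0
  · subst h0
    have h2 := h1 0
    unfold cdf pcdf at h2
    simp only [zero_add, sum_range_one] at h2
    exact h2
  · obtain ⟨i, rfl⟩ : ∃ i, j = i + 1 := ⟨j - 1, by omega⟩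
    have h2 := (h1 (i + 1)).sub (h1 i)
    have e1 : pcdf v (i + 1) - pcdf v i = Real.exp (-v) * (v ^ (i + 1) / (i + 1).factorial) := by
      unfold pcdf
      rw [sum_range_succ _ (i + 1), add_sub_cancel_left]
    rw [e1] at h2
    refine h2.congr fun k => ?_
    unfold cdf
    rw [sum_range_succ _ (i + 1), add_sub_cancel_left]

end Pool.Agent.Q163.PW
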