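import Pool.Agent.Q163.PW.Poi

/-! The law of the number of occurrences of a random word is asymptotically Poisson. -/

set_option autoImplicit false

namespace Pool.Agent.Q163.PW

open Finset MeasureTheory Filter Topology Pool.Agent.Q163.RP Pool.Agent.Q163.RX Pool.Agent.Q163.GC
  Pool.Agent.Q163.HC

/-- the proportion of the words of length `k` which occur exactly `j` times with starting point
in `S` -/
noncomputable def freq (f : ℕ → ℝ) (k : ℕ) (S : Finset ℕ) (j : ℕ) : ℝ := by
  classical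
  exact ((univ.filter fun W : Fin k → Bool =>
    (S.filter fun n => ∀ i : Fin k, f (n + i) = if W i then 1 else -1).card = j).card : ℝ) / 2 ^ k

lemma freq_eq (f : ℕ → ℝ) (k : ℕ) (S : Finset ℕ) (j : ℕ) :
    freq f k S j = ((univ.filter fun W : Fin k → Bool => (Mt S f W).card = j).card : ℝ) / 2 ^ k := by
  classical
  unfold freq Mt
  congr!

/-- the words whose numbers of occurrences differ -/
lemma card_diff (f : ℕ → ℝ) (k : ℕ) (S G : Finset ℕ) (hG : G ⊆ S) :
    (univ.filter fun W : Fin k → Bool => (Mt S f W).card ≠ (Mt G f W).card).card ≤ (S \ G).card := by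
  classical
  refine le_trans (card_le_card (t := (S \ G).image fun n => fun i : Fin k =>
    decide (f (n + i) = 1)) ?_) card_image_le
  intro W hW
  have h1 := (mem_filter.1 hW).2
  have h2 : ¬ Mt S f W ⊆ Mt G f W := by
    intro h
    apply h1
    congr 1
    refine Subset.antisymm h fun n hn => ?_
    rw [mem_Mt] at hn ⊢
    exact ⟨hG hn.1, hn.2⟩
  obtain ⟨n, hn, hn'⟩ := not_subset.1 h2
  rw [mem_Mt] at hn hn'
  rw [mem_image]
  refine ⟨n, Finset.mem_sdiff.2 ⟨hn.1, fun h => hn' ⟨h, hn.2⟩⟩, ?_⟩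
  funext i
  have h3 := hn.2 i
  rw [h3]
  cases W i <;> norm_num

lemma freq_diff (f : ℕ → ℝ) (k : ℕ) (S G : Finset ℕ) (hG : G ⊆ S) (j : ℕ) : |freq f k S j - freq f k G j| ≤ ((S \ G).card : ℝ) / 2 ^ k := by
  classical
  rw [freq_eq, freq_eq, ← sub_div, abs_div, abs_of_pos (show (0 : ℝ) < 2 ^ k by positivity)]
  refine div_le_div_of_nonneg_right ?_ (by positivity)
  have h1 := card_diff f k S G hG
  set A := univ.filter fun W : Fin k → Bool => (Mt S f W).card = j with hA
  set B := univ.filter fun W : Fin k → Bool => (Mt G f W).card = j with hB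
  set D := univ.filter fun W : Fin k → Bool => (Mt S f W).card ≠ (Mt G f W).card with hD
  have h2 : A ⊆ B ∪ D := by
    intro W hW
    rw [mem_union, hB, hD, mem_filter, mem_filter]
    have := (mem_filter.1 hW).2
    by_cases h : (Mt S f W).card = (Mt G f W).card
    · exact Or.inl ⟨mem_univ _, h ▸ this⟩
    · exact Or.inr ⟨mem_univ _, h⟩
  have h3 : B ⊆ A ∪ D := by
    intro W hW
    rw [mem_union, hA, hD, mem_filter, mem_filter]
    have := (mem_filter.1 hW).2
    by_cases h : (Mt S f W).card = (Mt G f W).card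
    · exact Or.inl ⟨mem_univ _, h.symm ▸ this⟩
    · exact Or.inr ⟨mem_univ _, h⟩
  have h4 : (A.card : ℝ) ≤ B.card + (S \ G).card := by
    have : A.card ≤ B.card + (S \ G).card :=
      (card_le_card h2).trans ((card_union_le _ _).trans (Nat.add_le_add_left h1 _))
    exact_mod_cast this
  have h5 : (B.card : ℝ) ≤ A.card + (S \ G).card := by
    have : B.card ≤ A.card + (S \ G).card :=
      (card_le_card h3).trans ((card_union_le _ _).trans (Nat.add_le_add_left h1 _))
    exact_mod_cast this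
  rw [abs_le]
  constructor <;> linarith

lemma tendsto_desc (c : ℕ → ℕ) (l : ℝ) (h : Tendsto (fun k : ℕ => (c k : ℝ) / 2 ^ k) atTop (𝓝 l))
    (r : ℕ) : Tendsto (fun k : ℕ => ((c k).descFactorial r : ℝ) / (2 ^ k) ^ r) atTop (𝓝 (l ^ r)) := by
  have h1 : ∀ k, ((c k).descFactorial r : ℝ) / (2 ^ k) ^ r =
      ∏ i ∈ range r, (((c k - i : ℕ) : ℝ) / 2 ^ k) := by
    intro k
    rw [Nat.descFactorial_eq_prod_range, prod_div_distrib, prod_const, card_range]
    push_cast
    rfl
  simp_rw [h1]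
  have h2 : ∀ i ∈ range r, Tendsto (fun k : ℕ => ((c k - i : ℕ) : ℝ) / 2 ^ k) atTop (𝓝 l) := by
    intro i _
    have h3 : Tendsto (fun k : ℕ => (c k : ℝ) / 2 ^ k - i * (1 / 2) ^ k) atTop (𝓝 l) := by
      have h4 := (tendsto_pow_atTop_nhds_zero_of_lt_one (r := (1 / 2 : ℝ)) (by norm_num)
        (by norm_num)).const_mul (i : ℝ)
      have h5 := h.sub h4
      rw [mul_zero, sub_zero] at h5
      exact h5
    refine tendsto_of_tendsto_of_tendsto_of_le_of_le h3 h (fun k => ?_) (fun k => ?_)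
    · simp only
      rw [one_div, inv_pow, ← div_eq_mul_inv, ← sub_div]
      refine div_le_div_of_nonneg_right ?_ (by positivity)
      rcases le_or_gt i (c k) with h6 | h6
      · rw [Nat.cast_sub h6]
      · rw [Nat.sub_eq_zero_of_le h6.le, Nat.cast_zero]
        have : (c k : ℝ) < i := by exact_mod_cast h6
        linarith
    · simp only
      refine div_le_div_of_nonneg_right ?_ (by positivity)
      exact_mod_cast Nat.sub_le _ _
  have h3 := tendsto_finsetProd (range r) h2
  rw [prod_const, card_range] at h3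
  exact h3

/-- the law of the numbers of occurrences -/
theorem law (d : ℕ) (g : ℕ → ℝ) (hg : ∀ n, g n = 1 ∨ g n = -1) (ω : ℕ → Bool) (x : ℕ → ℕ)
    (S : ℕ → Finset ℕ) (l : ℝ) (hS : ∀ᶠ k in atTop, S k ⊆ Ioc (x k) (x k + 2 ^ (k + d)))
    (hl : Tendsto (fun k : ℕ => ((S k).card : ℝ) / 2 ^ k) atTop (𝓝 l))
    (hX : ∀ r, 1 ≤ r → ∀ᶠ k in atTop, |Xr (S k ∩ G2 (k + d) k (x k)) k r g ω| ≤
      (2 ^ (k + d)) ^ r / 2 ^ (Nat.log 2 (k + d) + 1)) (j : ℕ) :
    Tendsto (fun k => freq (fun n => g n * ch ω n) k (S k) j) atTop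
      (𝓝 (Real.exp (-l) * (l ^ j / j.factorial))) := by
  classical
  set f := fun n => g n * ch ω n with hf
  have hf1 : ∀ n, f n = 1 ∨ f n = -1 := by
    intro n
    have h3 : ch ω n = 1 ∨ ch ω n = -1 := by
      rcases abs_eq (by norm_num : (0 : ℝ) ≤ 1) |>.1 (abs_ch ω n) with h | h
      · exact Or.inl h
      · exact Or.inr h
    rw [hf]
    rcases hg n with h4 | h4 <;> rcases h3 with h5 | h5 <;> simp only [h4, h5] <;> norm_num
  set G : ℕ → Finset ℕ := fun k => S k ∩ G2 (k + d) k (x k) with hG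
  have hshift : Tendsto (fun k : ℕ => k + d) atTop atTop := tendsto_add_atTop_nat d
  have hlog : Tendsto (fun k : ℕ => (2 : ℝ) ^ d * (2 / 2 ^ (Nat.log 2 (k + d) + 1))) atTop (𝓝 0) := by
    have h1 : Tendsto (fun k : ℕ => (1 / 2 : ℝ) ^ (Nat.log 2 (k + d))) atTop (𝓝 0) :=
      (tendsto_pow_atTop_nhds_zero_of_lt_one (r := (1 / 2 : ℝ)) (by norm_num)
        (by norm_num)).comp (tendsto_log.comp hshift)
    have h2 := h1.const_mul ((2 : ℝ) ^ d)
    rw [mul_zero] at h2
    refine h2.congr fun k => ?_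
    rw [pow_succ, one_div, inv_pow]
    field_simp
  -- bad windows
  have hbad : ∀ᶠ k in atTop, (((S k) \ (G k)).card : ℝ) / 2 ^ k ≤
      (2 : ℝ) ^ d * (2 / 2 ^ (Nat.log 2 (k + d) + 1)) := by
    filter_upwards [hS, hshift.eventually (params 0 1)] with k hk P
    have h1 := P.bad (H := 2 ^ (k + d)) (k := k) (x := x k) le_rfl (Nat.le_add_right k d)
    have h2 : S k \ G k ⊆ Ioc (x k) (x k + 2 ^ (k + d)) \ G2 (k + d) k (x k) := by
      intro n hn
      rw [Finset.mem_sdiff, hG] at hn
      simp only at hn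
      rw [mem_inter] at hn
      exact Finset.mem_sdiff.2 ⟨hk hn.1, fun h => hn.2 ⟨hn.1, h⟩⟩
    have h3 : ((S k \ G k).card : ℝ) ≤ 2 ^ (k + d) - (G2 (k + d) k (x k)).card := by
      have h4 := card_le_card h2
      have h5 := card_sdiff_add_card_eq_card (Gd_sub (2 ^ ((k + d) / 16 / ((0 + 3) *
        (Nat.log 2 (k + d) + 1)))) ((0 + 3) * (Nat.log 2 (k + d) + 1)) (2 ^ (4 * ((k + d) / 16))) k
        (x k) (2 ^ (k + d)))
      rw [Nat.card_Ioc, Nat.add_sub_cancel_left] at h5
      have h6 : (S k \ G k).card + (G2 (k + d) k (x k)).card ≤ 2 ^ (k + d) := by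
        rw [← h5]
        exact Nat.add_le_add_right h4 _
      have h7 : ((S k \ G k).card : ℝ) + (G2 (k + d) k (x k)).card ≤ 2 ^ (k + d) := by
        exact_mod_cast h6
      linarith
    rw [div_le_iff₀ (by positivity)]
    refine h3.trans ?_
    have h8 : (2 : ℝ) ^ (k + d) - ((G2 (k + d) k (x k)).card : ℝ) ≤
        2 * (2 ^ (k + d) / 2 ^ ((0 + 1) * (Nat.log 2 (k + d) + 1))) := by
      have := h1
      push_cast at this
      exact this
    refine h8.trans (le_of_eq ?_)
    rw [zero_add, one_mul, pow_add 2 k d]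
    ring
  have hGS : ∀ k, G k ⊆ S k := fun k => inter_subset_left
  have hGl : Tendsto (fun k : ℕ => ((G k).card : ℝ) / 2 ^ k) atTop (𝓝 l) := by
    have h1 : Tendsto (fun k : ℕ => ((S k).card : ℝ) / 2 ^ k -
        (2 : ℝ) ^ d * (2 / 2 ^ (Nat.log 2 (k + d) + 1))) atTop (𝓝 l) := by
      have := hl.sub hlog
      rwa [sub_zero] at this
    refine tendsto_of_tendsto_of_tendsto_of_le_of_le' h1 hl ?_ (Eventually.of_forall fun k => ?_)
    · filter_upwards [hbad] with k hk
      have h2 : ((S k).card : ℝ) = ((S k) \ (G k)).card + (G k).card := by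
        have := card_sdiff_add_card_eq_card (hGS k)
        rw [← this]
        push_cast
        rfl
      rw [h2, add_div]
      linarith
    · refine div_le_div_of_nonneg_right ?_ (by positivity)
      exact_mod_cast card_le_card (hGS k)
  have hmom : ∀ r : ℕ, Tendsto (fun k : ℕ =>
      (∑ W : Fin k → Bool, (((Mt (G k) f W).card.descFactorial r : ℕ) : ℝ)) / 2 ^ k) atTop
        (𝓝 (l ^ r)) := by
    intro r
    rcases Nat.eq_zero_or_pos r with h0 | h0
    · subst h0
      refine tendsto_const_nhds.congr fun k => ?_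
      simp
    · have h1 : Tendsto (fun k : ℕ => Xr (G k) k r g ω / (2 ^ k) ^ r) atTop (𝓝 0) := by
        have h2 : Tendsto (fun k : ℕ => ((2 : ℝ) ^ d) ^ r *
            (1 / 2 : ℝ) ^ (Nat.log 2 (k + d))) atTop (𝓝 0) := by
          have h1 : Tendsto (fun k : ℕ => (1 / 2 : ℝ) ^ (Nat.log 2 (k + d))) atTop (𝓝 0) :=
            (tendsto_pow_atTop_nhds_zero_of_lt_one (r := (1 / 2 : ℝ)) (by norm_num)
              (by norm_num)).comp (tendsto_log.comp hshift)
          have h2 := h1.const_mul (((2 : ℝ) ^ d) ^ r)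
          rwa [mul_zero] at h2
        refine squeeze_zero_norm' ?_ h2
        filter_upwards [hX r h0] with k hk
        rw [Real.norm_eq_abs, abs_div, abs_of_pos (show (0 : ℝ) < (2 ^ k) ^ r by positivity),
          div_le_iff₀ (by positivity)]
        refine hk.trans ?_
        rw [pow_add, mul_pow, one_div, inv_pow, pow_succ]
        have e1 : (0 : ℝ) < 2 ^ Nat.log 2 (k + d) := by positivity
        rw [div_le_iff₀ (by positivity)]
        field_simp
        norm_num
      have h2 := (tendsto_desc (fun k => (G k).card) l hGl r).add h1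
      rw [add_zero] at h2
      refine h2.congr fun k => ?_
      rw [hf, fact_eq (G k) k r g hg ω]
      field_simp
  have hP := poisson_of_moments (fun k W => (Mt (G k) f W).card) l hmom j
  have hfq : Tendsto (fun k => freq f k (G k) j) atTop
      (𝓝 (Real.exp (-l) * (l ^ j / j.factorial))) := by
    refine hP.congr fun k => ?_
    rw [freq_eq]
  have hd0 : Tendsto (fun k => freq f k (S k) j - freq f k (G k) j) atTop (𝓝 0) := by
    refine squeeze_zero_norm' ?_ hlog
    filter_upwards [hbad] with k hk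
    rw [Real.norm_eq_abs]
    exact (freq_diff f k (S k) (G k) (hGS k) j).trans hk
  have h2 := hfq.add hd0
  rw [add_zero] at h2
  refine h2.congr fun k => ?_
  ring

/-- almost surely the law is asymptotically Poisson -/
theorem ae_law (E d : ℕ) (hE : 1 ≤ E) (g : ℕ → ℝ) (hg : ∀ n, g n = 1 ∨ g n = -1) (x : ℕ → ℕ)
    (S : ℕ → Finset ℕ) (l : ℝ) (hx : ∀ᶠ k in atTop, x k ≤ 2 ^ ((k + d) ^ E))
    (hS : ∀ᶠ k in atTop, S k ⊆ Ioc (x k) (x k + 2 ^ (k + d)))
    (hl : Tendsto (fun k : ℕ => ((S k).card : ℝ) / 2 ^ k) atTop (𝓝 l)) :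
    ∀ᵐ ω ∂cm, ∀ j : ℕ, Tendsto (fun k => freq (fun n => g n * ch ω n) k (S k) j) atTop
      (𝓝 (Real.exp (-l) * (l ^ j / j.factorial))) := by
  have h1 : ∀ᵐ ω ∂cm, ∀ r : ℕ, 1 ≤ r → ∀ᶠ k in atTop,
      |Xr (S k ∩ G2 (k + d) k (x k)) k r g ω| ≤
        (2 ^ (k + d)) ^ r / 2 ^ (Nat.log 2 (k + d) + 1) := by
    rw [ae_all_iff]
    intro r
    by_cases hr : 1 ≤ r
    · filter_upwards [ae_Xr E d r hE hr g hg x S hx] with ω hω _
      exact hω
    · exact Eventually.of_forall fun ω h => absurd h hr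
  filter_upwards [h1] with ω hω j
  exact law d g hg ω x S l hS hl hω j

end Pool.Agent.Q163.PW
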