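import Pool.Agent.Q163.PW.Sec

/-! Limits of the factorial moments. -/

set_option autoImplicit false

namespace Pool.Agent.Q163.PW

open Finset MeasureTheory Filter Topology Pool.Agent.Q163.RP Pool.Agent.Q163.RX Pool.Agent.Q163.GC
  Pool.Agent.Q163.HC

lemma meas_Xr (G : Finset ℕ) (k r : ℕ) (g : ℕ → ℝ) : Measurable (Xr G k r g) := by
  unfold Xr
  refine Finset.measurable_fun_sum _ fun q _ => Measurable.const_mul ?_ _
  exact Finset.measurable_fun_prod _ fun i _ => meas_cw _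

lemma abs_Xr (G : Finset ℕ) (k r : ℕ) (g : ℕ → ℝ) (hg : ∀ n, g n = 1 ∨ g n = -1) (ω : ℕ → Bool) :
    |Xr G k r g ω| ≤ (IT G r ×ˢ BB k r).card := by
  unfold Xr
  refine (abs_sum_le_sum_abs _ _).trans ?_
  rw [card_eq_sum_ones]
  push_cast
  refine sum_le_sum fun q _ => ?_
  rw [abs_mul, abs_prod, abs_prod]
  have h1 : ∏ i, |cw ω (q.1 i, q.2 i)| = 1 := prod_eq_one fun i _ => abs_cw ω _
  rw [h1, mul_one]
  refine prod_le_one (fun _ _ => abs_nonneg _) fun i _ => ?_
  rw [abs_prod]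
  refine prod_le_one (fun _ _ => abs_nonneg _) fun j _ => ?_
  rcases hg (q.1 i + j) with h | h <;> rw [h] <;> simp

/-- the probability that the remainder is large -/
theorem prob_Xr (G : Finset ℕ) (k r : ℕ) (g : ℕ → ℝ) (hg : ∀ n, g n = 1 ∨ g n = -1) (B t : ℝ)
    (ht : 0 < t) (hB : ∫ ω, Xr G k r g ω ^ 2 ∂cm ≤ B) :
    cm.real {ω | t < |Xr G k r g ω|} ≤ B / t ^ 2 := by
  have hint : Integrable (fun ω => Xr G k r g ω ^ 2) cm :=
    Integrable.of_bound ((meas_Xr G k r g).pow_const _).aestronglyMeasurable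
      (((IT G r ×ˢ BB k r).card : ℝ) ^ 2)
      (Eventually.of_forall fun ω => by
        rw [Real.norm_eq_abs, abs_pow]
        exact pow_le_pow_left₀ (abs_nonneg _) (abs_Xr G k r g hg ω) _)
  have h3 := mul_meas_ge_le_integral_of_nonneg (μ := cm) (f := fun ω => Xr G k r g ω ^ 2)
    (Eventually.of_forall fun ω => sq_nonneg _) hint (t ^ 2)
  have h4 : cm.real {ω | t < |Xr G k r g ω|} ≤ cm.real {ω | t ^ 2 ≤ Xr G k r g ω ^ 2} := by
    refine measureReal_mono (fun ω hω => ?_)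
    simp only [Set.mem_ofPred_eq] at hω ⊢
    rw [← sq_abs (Xr G k r g ω)]
    exact pow_le_pow_left₀ ht.le hω.le _
  refine h4.trans ?_
  rw [le_div_iff₀ (by positivity), mul_comm]
  exact h3.trans hB

/-- the good windows of length `k` in an interval of length `2 ^ a` -/
noncomputable def G2 (a k x : ℕ) : Finset ℕ :=
  Gd (2 ^ (a / 16 / ((0 + 3) * (Nat.log 2 a + 1)))) ((0 + 3) * (Nat.log 2 a + 1))
    (2 ^ (4 * (a / 16))) k x (2 ^ a)

lemma sq_ev (K : ℕ) : ∀ᶠ a : ℕ in atTop, K * (Nat.log 2 a + 1) ^ 2 ≤ a / 16 := by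
  filter_upwards [log_sq (16 * K + 16)] with a ha
  have h1 : 1 ≤ (Nat.log 2 a + 1) ^ 2 := Nat.one_le_pow _ _ (by omega)
  have h2 : (16 * K + 16) * (Nat.log 2 a + 1) ^ 2 =
      16 * (K * (Nat.log 2 a + 1) ^ 2) + 16 * (Nat.log 2 a + 1) ^ 2 := by ring
  omega

open Classical in
/-- almost surely the remainders are small -/
theorem ae_Xr (E d r : ℕ) (hE : 1 ≤ E) (hr : 1 ≤ r) (g : ℕ → ℝ) (hg : ∀ n, g n = 1 ∨ g n = -1)
    (x : ℕ → ℕ) (S : ℕ → Finset ℕ) (hx : ∀ᶠ k in atTop, x k ≤ 2 ^ ((k + d) ^ E)) :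
    ∀ᵐ ω ∂cm, ∀ᶠ k in atTop, |Xr (S k ∩ G2 (k + d) k (x k)) k r g ω| ≤
      (2 ^ (k + d)) ^ r / 2 ^ (Nat.log 2 (k + d) + 1) := by
  have hshift : Tendsto (fun k : ℕ => k + d) atTop atTop := tendsto_add_atTop_nat d
  have h1 := bcf (fun _ : ℕ => ({()} : Finset Unit)) (fun k _ =>
    {ω | (2 ^ (k + d)) ^ r / 2 ^ (Nat.log 2 (k + d) + 1) <
      |Xr (S k ∩ G2 (k + d) k (x k)) k r g ω|}) (by
      obtain ⟨n, hn⟩ : ∃ n, n + 2 = r + r := ⟨r + r - 2, by omega⟩
      filter_upwards [hx, hshift.eventually (params 0 E),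
        hshift.eventually (sq_ev ((n + 1) * c1 0 E + 4 * n + 20)),
        hshift.eventually (sq_ev ((n + 2) * ((n + 2) * 120) + n + 9 + c1 0 E)),
        hshift.eventually (eventually_ge_atTop (128 + n)), eventually_ge_atTop 1] with
        k hxk P q1 q2 hk2 hk1 t _
      obtain ⟨a, ha⟩ : ∃ a, a = k + d := ⟨_, rfl⟩
      rw [← ha] at hxk P q1 q2 hk2 ⊢
      obtain ⟨l, hl⟩ : ∃ l, l = Nat.log 2 a + 1 := ⟨_, rfl⟩
      rw [← hl] at P q1 q2 ⊢
      have hl1 : 1 ≤ l := by omega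
      have hll : l ≤ l ^ 2 := Nat.le_self_pow (by norm_num) l
      have hG2 : G2 a k (x k) = Gd (2 ^ (a / 16 / ((0 + 3) * l))) ((0 + 3) * l)
          (2 ^ (4 * (a / 16))) k (x k) (2 ^ a) := by
        rw [hl]
        rfl
      have hGsub : S k ∩ G2 a k (x k) ⊆ Gd (2 ^ (a / 16 / ((0 + 3) * l))) ((0 + 3) * l)
          (2 ^ (4 * (a / 16))) k (x k) (2 ^ a) := by
        rw [← hG2]
        exact inter_subset_right
      have haE : a ≤ a ^ E := Nat.le_self_pow (by omega) a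
      obtain ⟨grp, hgrp⟩ := Xr_sec (S k ∩ G2 a k (x k)) (fun m hm => by
        have h2 := (mem_Gd.1 (hGsub hm)).1.1
        omega) k n r hn g hg
      have h2 := P.sec hE n (x := x k) (k := k) (by omega) hxk (by omega) (by omega) (by omega)
        (by
          have e1 : ((n + 1) * c1 0 E + 4 * n + 20) * l ^ 2 =
            (n + 1) * (c1 0 E * l ^ 2) + 4 * (n * l ^ 2) + 20 * l ^ 2 := by ring
          have e2 : n * 1 ≤ n * l ^ 2 := Nat.mul_le_mul_left _ (by omega)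
          omega)
        (by
          have e1 : ((n + 2) * ((n + 2) * 120) + n + 9 + c1 0 E) * l ^ 2 =
            (n + 2) * ((n + 2) * (120 * l ^ 2)) + n * l ^ 2 + 9 * l ^ 2 + c1 0 E * l ^ 2 := by ring
          have e2 : n * 1 ≤ n * l ^ 2 := Nat.mul_le_mul_left _ (by omega)
          have e3 : (n + 2) * ((n + 2) * (40 * ((0 + 3) * l))) ≤
            (n + 2) * ((n + 2) * (120 * l ^ 2)) := by
            refine Nat.mul_le_mul_left _ (Nat.mul_le_mul_left _ ?_)
            omega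
          omega)
        (S k ∩ G2 a k (x k)) hGsub grp
      have h3 := prob_Xr (S k ∩ G2 a k (x k)) k r g hg _ ((2 ^ a) ^ r / 2 ^ l) (by positivity)
        (hgrp.trans h2)
      refine h3.trans ?_
      rw [hn]
      have e1 : ((2 : ℝ) ^ a) ^ (r + r) / 2 ^ (4 * l) / ((2 ^ a) ^ r / 2 ^ l) ^ 2 = 1 / (2 ^ l) ^ 2 := by
        rw [pow_add, mul_comm 4 l, pow_mul]
        have : (0 : ℝ) < (2 ^ a) ^ r := by positivity
        have : (0 : ℝ) < 2 ^ l := by positivity
        field_simp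
      rw [e1, card_singleton, Nat.cast_one, one_mul]
      have e2 : (k : ℝ) ≤ 2 ^ l := by
        have h5 : k ≤ 2 ^ l := by
          have := P.al
          omega
        exact_mod_cast h5
      have e3 : (0 : ℝ) < k := by exact_mod_cast hk1
      calc 1 / ((2 : ℝ) ^ l) ^ 2 ≤ 1 / (k : ℝ) ^ 2 := by
            refine one_div_le_one_div_of_le (by positivity) ?_
            exact pow_le_pow_left₀ e3.le e2 2
        _ ≤ 2 / (k : ℝ) ^ 2 := by
            refine div_le_div_of_nonneg_right (by norm_num) (by positivity))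
  filter_upwards [h1] with ω hω
  filter_upwards [hω] with k hk
  have := hk () (mem_singleton_self _)
  simp only [not_lt, Set.mem_ofPred_eq] at this
  exact this

end Pool.Agent.Q163.PW
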