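import Pool.Agent.Q163.PW.Bad

/-! High moments of the number of occurrences of a pattern. -/

set_option autoImplicit false

namespace Pool.Agent.Q163.PW

open Finset MeasureTheory Filter Pool.Agent.Q163.RP Pool.Agent.Q163.RX Pool.Agent.Q163.GC Pool.Agent.Q163.HC

lemma ch_prod (ω : ℕ → Bool) {ι : Type*} (s : Finset ι) (f : ι → ℕ) (hf : ∀ i ∈ s, f i ≠ 0) :
    ch ω (∏ i ∈ s, f i) = ∏ i ∈ s, ch ω (f i) := by
  classical
  induction s using Finset.induction_on with
  | empty =>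
    rw [prod_empty, prod_empty]
    exact Pool.Agent.Q163.RP.mult_one _
  | insert i s hi ih =>
    rw [prod_insert hi, prod_insert hi, ch_mul ω (hf i (mem_insert_self _ _))
      (prod_ne_zero_iff.2 fun j hj => hf j (mem_insert_of_mem hj)),
      ih fun j hj => hf j (mem_insert_of_mem hj)]

/-- product of the values at a set of positions of a window -/
noncomputable def cw (ω : ℕ → Bool) (q : ℕ × Finset ℕ) : ℝ := ∏ j ∈ q.2, ch ω (q.1 + j)

lemma abs_cw (ω : ℕ → Bool) (q : ℕ × Finset ℕ) : |cw ω q| = 1 := by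
  unfold cw
  rw [abs_prod]
  exact prod_eq_one fun j _ => abs_ch ω _

lemma meas_cw (q : ℕ × Finset ℕ) : Measurable fun ω => cw ω q :=
  Finset.measurable_fun_prod _ fun j _ => meas_ch _

lemma rel_of_square {ι : Type*} [Fintype ι] (z : ι → ℕ) (hz : ∀ i, z i ≠ 0) (J : ι → Finset ℕ)
    (h : IsSquare (∏ i, ∏ j ∈ J i, (z i + j))) : rel z J := by
  intro p
  have hne : ∀ i, ∀ j ∈ J i, z i + j ≠ 0 := fun i _ _ => by
    have := hz i
    omega
  have h1 : (((∏ i, ∏ j ∈ J i, (z i + j)).factorization p : ℕ) : ZMod 2) =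
      ∑ i, ∑ j ∈ J i, vv (z i + j) p := by
    rw [Nat.factorization_prod fun i _ => prod_ne_zero_iff.2 (hne i), Finsupp.finsetSum_apply]
    rw [Nat.cast_sum]
    refine sum_congr rfl fun i _ => ?_
    rw [Nat.factorization_prod (hne i), Finsupp.finsetSum_apply, Nat.cast_sum]
    rfl
  rw [← h1]
  obtain ⟨r, hr⟩ := h
  have hr0 : r ≠ 0 := by
    rintro rfl
    rw [mul_zero] at hr
    exact prod_ne_zero_iff.2 (fun i _ => prod_ne_zero_iff.2 (hne i)) hr
  rw [hr, Nat.factorization_mul hr0 hr0, Finsupp.coe_add, Pi.add_apply, Nat.cast_add]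
  have h4 : ∀ x : ZMod 2, x + x = 0 := by decide
  exact h4 _

open Classical in
/-- the mean of a product of values is zero unless the product is a square -/
theorem mean_cw {ι : Type*} [Fintype ι] (z : ι → ℕ) (hz : ∀ i, z i ≠ 0) (J : ι → Finset ℕ) :
    |∫ ω, ∏ i, cw ω (z i, J i) ∂cm| ≤ if rel z J then 1 else 0 := by
  have hne : ∀ i, ∀ j ∈ J i, z i + j ≠ 0 := fun i _ _ => by
    have := hz i
    omega
  have h1 : ∀ ω, ∏ i, cw ω (z i, J i) = ch ω (∏ i, ∏ j ∈ J i, (z i + j)) := by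
    intro ω
    rw [ch_prod ω _ _ fun i _ => prod_ne_zero_iff.2 (hne i)]
    refine prod_congr rfl fun i _ => ?_
    unfold cw
    rw [ch_prod ω _ _ (hne i)]
  simp_rw [h1]
  split_ifs with h
  · exact abs_mean_ch _
  · rw [mean_ch (prod_ne_zero_iff.2 fun i _ => prod_ne_zero_iff.2 (hne i))
      (fun h2 => h (rel_of_square z hz J h2)), abs_zero]

/-- the centred number of occurrences of a pattern, times `2 ^ k` -/
noncomputable def Yo (G : Finset ℕ) (k : ℕ) (u : ℕ → ℕ → ℝ) (ω : ℕ → Bool) : ℝ :=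
  ∑ n ∈ G, (∏ j ∈ range k, (1 + u n j * ch ω (n + j)) - 1)

lemma Yo_eq (G : Finset ℕ) (k : ℕ) (u : ℕ → ℕ → ℝ) (ω : ℕ → Bool) :
    Yo G k u ω = ∑ q ∈ G ×ˢ ((range k).powerset.erase ∅), (∏ j ∈ q.2, u q.1 j) * cw ω q := by
  unfold Yo
  rw [sum_product]
  refine sum_congr rfl fun n _ => ?_
  rw [prod_one_add, ← add_sum_erase _ _ (empty_mem_powerset (range k)), prod_empty,
    add_sub_cancel_left]
  refine sum_congr rfl fun J _ => ?_
  rw [prod_mul_distrib]
  rfl

open Classical in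
/-- the moments are bounded by the number of relations -/
theorem mom_rel (G : Finset ℕ) (hG : ∀ n ∈ G, n ≠ 0) (k R : ℕ) (u : ℕ → ℕ → ℝ)
    (hu : ∀ n j, |u n j| ≤ 1) :
    ∫ ω, Yo G k u ω ^ R ∂cm ≤
      (((Fintype.piFinset fun _ : Fin R => G ×ˢ ((range k).powerset.erase ∅)).filter
        fun p => rel (fun i => (p i).1) fun i => (p i).2).card : ℝ) := by
  set Q := G ×ˢ ((range k).powerset.erase ∅) with hQ
  set c : ℕ × Finset ℕ → ℝ := fun q => ∏ j ∈ q.2, u q.1 j with hc
  have hc1 : ∀ q, |c q| ≤ 1 := by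
    intro q
    rw [hc]
    simp only
    rw [abs_prod]
    exact prod_le_one (fun _ _ => abs_nonneg _) fun j _ => hu _ _
  have h1 : ∀ ω, Yo G k u ω ^ R = ∑ p ∈ Fintype.piFinset fun _ : Fin R => Q,
      (∏ i, c (p i)) * ∏ i, cw ω (p i) := by
    intro ω
    rw [Yo_eq]
    have h2 := prod_univ_sum (fun _ : Fin R => Q) (fun _ q => c q * cw ω q)
    rw [prod_const, card_univ, Fintype.card_fin] at h2
    rw [← hQ]
    refine h2.trans (sum_congr rfl fun p _ => ?_)
    rw [prod_mul_distrib]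
  simp_rw [h1]
  have hint : ∀ p : Fin R → ℕ × Finset ℕ, Integrable (fun ω => (∏ i, c (p i)) * ∏ i, cw ω (p i)) cm := by
    intro p
    refine Integrable.const_mul ?_ _
    refine Integrable.of_bound (Finset.measurable_fun_prod _ fun i _ =>
      meas_cw _).aestronglyMeasurable 1 (Eventually.of_forall fun ω => ?_)
    rw [Real.norm_eq_abs, abs_prod]
    exact (prod_eq_one fun i _ => abs_cw ω _).le
  rw [integral_finsetSum _ fun p _ => hint p, card_filter]
  push_cast
  refine sum_le_sum fun p hp => ?_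
  rw [integral_const_mul]
  have hz : ∀ i, (p i).1 ≠ 0 := fun i =>
    hG _ (mem_product.1 (Fintype.mem_piFinset.1 hp i)).1
  have h2 := mean_cw (fun i => (p i).1) hz (fun i => (p i).2)
  have h3 : |∏ i, c (p i)| ≤ 1 := by
    rw [abs_prod]
    exact prod_le_one (fun _ _ => abs_nonneg _) fun j _ => hc1 _
  refine (le_abs_self _).trans ?_
  rw [abs_mul]
  calc |∏ i, c (p i)| * |∫ ω, ∏ i, cw ω (p i) ∂cm| ≤ 1 * |∫ ω, ∏ i, cw ω (p i) ∂cm| :=
        mul_le_mul_of_nonneg_right h3 (abs_nonneg _)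
    _ ≤ _ := by
        rw [one_mul]
        exact h2

end Pool.Agent.Q163.PW
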