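import Pool.Agent.Q163.PW.Par

/-! Two windows with the same word: a small set meets all relations. -/

set_option autoImplicit false

namespace Pool.Agent.Q163.PW

open Finset Pool.Agent.Q163.HC

lemma prod_dvd_diff (u v : ℕ) (h : u < v) (Q : Finset ℕ)
    (hQ : ∀ p ∈ Q, p.Prime ∧ ∃ j, p ∣ u + j ∧ p ∣ v + j) : ∏ p ∈ Q, p ≤ v - u := by
  refine Nat.le_of_dvd (by omega) ?_
  refine Finset.prod_primes_dvd _ (fun p hp => (hQ p hp).1.prime) fun p hp => ?_
  obtain ⟨j, h1, h2⟩ := (hQ p hp).2
  have := Nat.dvd_sub h2 h1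
  rwa [show v + j - (u + j) = v - u by omega] at this

/-- the positions where the odd large primes of the first window are shared by the same position
of the second window -/
lemma card_iso (y k θ u v H c : ℕ) (hk : k ≤ y) (huv : u ≠ v) (h1 : u ≤ v + H) (h2 : v ≤ u + H)
    (hθ : H < (θ ^ 2) ^ (c + 1)) (ht : ∀ j < k, θ ^ 2 ≤ ∏ p ∈ og y (u + j), p) :
    ((range k).filter fun j => ∀ p ∈ og y (u + j), p ∣ v + j).card ≤ c := by
  classical
  by_contra hcon
  push Not at hcon
  obtain ⟨Q, hQ, hQc⟩ := exists_subset_card_eq (show c + 1 ≤ _ from hcon)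
  have hQ1 : ∀ j ∈ Q, j < k ∧ ∀ p ∈ og y (u + j), p ∣ v + j := by
    intro j hj
    have := mem_filter.1 (hQ hj)
    exact ⟨mem_range.1 this.1, this.2⟩
  have hdisj : Set.PairwiseDisjoint (Q : Set ℕ) fun j => og y (u + j) := by
    intro j hj j' hj' hne
    rw [Function.onFun, disjoint_left]
    intro p hp hp'
    have e1 := mem_bg.1 (og_sub _ _ hp)
    have e2 := mem_bg.1 (og_sub _ _ hp')
    exact hne (uniq hk (hQ1 j hj).1 (hQ1 j' hj').1 e1.2.1 e2.2.1 e1.2.2.2)
  have h3 : (θ ^ 2) ^ (c + 1) ≤ ∏ p ∈ Q.biUnion fun j => og y (u + j), p := by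
    rw [prod_biUnion hdisj, ← hQc, ← prod_const]
    exact prod_le_prod' fun j hj => ht j (hQ1 j hj).1
  have h4 : ∀ p ∈ Q.biUnion (fun j => og y (u + j)), p.Prime ∧ ∃ j, p ∣ u + j ∧ p ∣ v + j := by
    intro p hp
    obtain ⟨j, hj, hpj⟩ := mem_biUnion.1 hp
    have e1 := mem_bg.1 (og_sub _ _ hpj)
    exact ⟨e1.1, j, e1.2.1, (hQ1 j hj).2 p hpj⟩
  rcases lt_or_gt_of_ne huv with h | h
  · have := prod_dvd_diff u v h _ h4
    omega
  · have := prod_dvd_diff v u h _ fun p hp => by
      obtain ⟨e1, j, e2, e3⟩ := h4 p hp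
      exact ⟨e1, j, e3, e2⟩
    omega

/-- a small set meets all relations between two windows with the same word -/
theorem hit (y k θ u v H c : ℕ) (hk : k ≤ y) (huv : u ≠ v) (h1 : u ≤ v + H) (h2 : v ≤ u + H)
    (hθ : H < (θ ^ 2) ^ (c + 1)) (ht : ∀ j < k, θ ^ 2 ≤ ∏ p ∈ og y (u + j), p) :
    ∃ T ⊆ range k, T.card ≤ k / 2 + c ∧ ∀ K ⊆ range k,
      (∀ p, ∑ j ∈ K, vv (u + j) p + ∑ j ∈ K, vv (v + j) p = 0) → Disjoint K T → K = ∅ := by
  classical
  set H0 := (range k).filter fun j => ∀ p ∈ og y (u + j), p ∣ v + j with hH0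
  have hc0 : H0.card ≤ c := card_iso y k θ u v H c hk huv h1 h2 hθ ht
  have hch : ∀ j ∈ range k \ H0, ∃ p ∈ og y (u + j), ¬ p ∣ v + j := by
    intro j hj
    rw [mem_sdiff, hH0, mem_filter] at hj
    by_contra hcon
    push Not at hcon
    exact hj.2 ⟨hj.1, hcon⟩
  choose! q hq hqn using hch
  set H1 := (range k \ H0).filter fun j => ∃ j', j' < k ∧ j < j' ∧ q j ∣ v + j' with hH1
  set H2 := (range k \ H0).filter fun j => ∃ j', j' < k ∧ j' < j ∧ q j ∣ v + j' with hH2
  have hdis : Disjoint H1 H2 := by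
    rw [disjoint_left]
    intro j hj1 hj2
    rw [hH1, mem_filter] at hj1
    rw [hH2, mem_filter] at hj2
    obtain ⟨a, ha, hja, hqa⟩ := hj1.2
    obtain ⟨b, hb, hjb, hqb⟩ := hj2.2
    have := uniq hk ha hb hqa hqb (mem_bg.1 (og_sub _ _ (hq j hj1.1))).2.2.2
    omega
  have hsum : H1.card + H2.card ≤ k := by
    rw [← card_union_of_disjoint hdis]
    have : H1 ∪ H2 ⊆ range k := union_subset
      ((filter_subset _ _).trans sdiff_subset) ((filter_subset _ _).trans sdiff_subset)
    exact (card_le_card this).trans (le_of_eq (card_range k))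
  have hH0k : H0 ⊆ range k := filter_subset _ _
  -- the partner of a position
  have key : ∀ K ⊆ range k, (∀ p, ∑ j ∈ K, vv (u + j) p + ∑ j ∈ K, vv (v + j) p = 0) →
      Disjoint K H0 → ∀ j ∈ K, j ∈ range k \ H0 ∧ ∃ i ∈ K, i ≠ j ∧ q j ∣ v + i := by
    intro K hK hr hd j hj
    have hj0 : j ∈ range k \ H0 := mem_sdiff.2 ⟨hK hj, fun h => disjoint_left.1 hd hj h⟩
    refine ⟨hj0, ?_⟩
    by_contra hcon
    push Not at hcon
    have e1 := mem_bg.1 (og_sub _ _ (hq j hj0))
    have e2 := hr (q j)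
    rw [sum_eq_single j, sum_eq_zero, add_zero, vv_one (mem_filter.1 (hq j hj0)).1] at e2
    · exact one_ne_zero e2
    · intro i hi
      refine vv_zero fun hd => ?_
      by_cases hij : i = j
      · subst hij
        exact hqn i hj0 hd
      · exact hcon i hi hij hd
    · intro i hi hne
      refine vv_zero fun hd => hne ?_
      exact (uniq hk (mem_range.1 (hK hj)) (mem_range.1 (hK hi)) e1.2.1 hd e1.2.2.2).symm
    · intro h
      exact absurd hj h
  rcases le_or_gt H1.card (k / 2) with h | h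
  · refine ⟨H0 ∪ H1, union_subset hH0k ((filter_subset _ _).trans sdiff_subset), ?_, ?_⟩
    · have := card_union_le H0 H1
      omega
    · intro K hK hr hd
      by_contra hne
      rw [disjoint_union_right] at hd
      have hKn := nonempty_iff_ne_empty.2 hne
      obtain ⟨hj0, i, hi, hij, hqi⟩ := key K hK hr hd.1 (K.min' hKn) (min'_mem K hKn)
      have hle := K.min'_le i hi
      refine disjoint_left.1 hd.2 (min'_mem K hKn) ?_
      rw [hH1, mem_filter]
      exact ⟨hj0, i, mem_range.1 (hK hi), lt_of_le_of_ne hle (Ne.symm hij), hqi⟩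
  · refine ⟨H0 ∪ H2, union_subset hH0k ((filter_subset _ _).trans sdiff_subset), ?_, ?_⟩
    · have := card_union_le H0 H2
      omega
    · intro K hK hr hd
      by_contra hne
      rw [disjoint_union_right] at hd
      have hKn := nonempty_iff_ne_empty.2 hne
      obtain ⟨hj0, i, hi, hij, hqi⟩ := key K hK hr hd.1 (K.max' hKn) (max'_mem K hKn)
      have hle := K.le_max' i hi
      refine disjoint_left.1 hd.2 (max'_mem K hKn) ?_
      rw [hH2, mem_filter]
      exact ⟨hj0, i, mem_range.1 (hK hi), lt_of_le_of_ne hle hij, hqi⟩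

/-- every position is in an even number of the sets of every group -/
def bal {ι : Type*} [Fintype ι] (grp : ι → Bool) (K : ι → Finset ℕ) : Prop :=
  ∀ (γ : Bool) (j : ℕ), ∑ i, (if grp i = γ ∧ j ∈ K i then (1 : ZMod 2) else 0) = 0

lemma bal_symmDiff {ι : Type*} [Fintype ι] {grp : ι → Bool} {J J' : ι → Finset ℕ}
    (h : bal grp J) (h' : bal grp J') : bal grp fun i => symmDiff (J i) (J' i) := by
  intro γ j
  have h1 : ∀ i, (if grp i = γ ∧ j ∈ symmDiff (J i) (J' i) then (1 : ZMod 2) else 0) =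
      (if grp i = γ ∧ j ∈ J i then (1 : ZMod 2) else 0) +
        (if grp i = γ ∧ j ∈ J' i then (1 : ZMod 2) else 0) := by
    intro i
    have h4 : (1 : ZMod 2) + 1 = 0 := by decide
    by_cases e1 : grp i = γ <;> by_cases e2 : j ∈ J i <;> by_cases e3 : j ∈ J' i <;>
      simp [mem_symmDiff, e1, e2, e3, h4]
  simp_rw [h1]
  rw [sum_add_distrib, h γ j, h' γ j, add_zero]

/-- the number of balanced relations when the first two windows are linked -/
theorem card_pair {n : ℕ} (y k θ H c : ℕ) (hk : k ≤ y) (z : Fin (n + 2) → ℕ) (hz : ∀ i, z i ≠ 0)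
    (hg : ∀ i, ∀ j < k, (og y (z i + j)).Nonempty)
    (ht : ∀ i, ∀ j < k, θ ^ 2 ≤ ∏ p ∈ og y (z i + j), p)
    (hθ : H < (θ ^ 2) ^ (c + 1)) (hd : ∀ i i', z i ≤ z i' + H) (grp : Fin (n + 2) → Bool)
    (hne : grp 0 = grp 1 → z 0 ≠ z 1) (F : Finset (Fin (n + 2) → Finset ℕ))
    (hF : ∀ J ∈ F, (∀ i, J i ⊆ range k) ∧ rel z J ∧ bal grp J) :
    F.card ≤ 2 ^ (k / 2 + c) * ∏ i : Fin (n + 2),
      if (i : ℕ) < 2 then 1 else 2 ^ (Sn y k (z i) (Ux (bw y k) ∅ z i)).card := by
  classical
  have h01 : (0 : Fin (n + 2)) ≠ 1 := by simp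
  obtain ⟨T, _, hTc, hT⟩ : ∃ T ⊆ range k, T.card ≤ k / 2 + c ∧ ∀ K ⊆ range k, grp 0 = grp 1 →
      (∀ p, ∑ j ∈ K, vv (z 0 + j) p + ∑ j ∈ K, vv (z 1 + j) p = 0) → Disjoint K T → K = ∅ := by
    by_cases h : grp 0 = grp 1
    · obtain ⟨T, h1, h2, h3⟩ := hit y k θ (z 0) (z 1) H c hk (hne h) (hd 0 1) (hd 1 0)
        hθ (ht 0)
      exact ⟨T, h1, h2, fun K hK _ => h3 K hK⟩
    · exact ⟨∅, empty_subset _, by simp, fun K _ h' => absurd h' h⟩
  have h1 : F.card ≤ (T.powerset ×ˢ Fintype.piFinset fun i : Fin (n + 2) =>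
      if (i : ℕ) < 2 then {∅} else (Sn y k (z i) (Ux (bw y k) ∅ z i)).powerset).card := by
    refine card_le_card_of_injOn (fun J => (J 0 ∩ T, fun i =>
      if (i : ℕ) < 2 then ∅ else J i ∩ Sn y k (z i) (Ux (bw y k) ∅ z i))) ?_ ?_
    · intro J _
      rw [mem_coe, mem_product, Fintype.mem_piFinset, mem_powerset]
      refine ⟨inter_subset_right, fun i => ?_⟩
      simp only
      split_ifs
      · exact mem_singleton_self _
      · exact mem_powerset.2 inter_subset_right
    · intro J hJ J' hJ' he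
      simp only [Prod.mk.injEq] at he
      obtain ⟨he0, he1⟩ := he
      by_contra hneJ
      set D : Fin (n + 2) → Finset ℕ := fun i => symmDiff (J i) (J' i) with hD
      have hDe : ∃ i, (D i).Nonempty := by
        by_contra hcon
        push Not at hcon
        apply hneJ
        funext i
        have := hcon i
        rw [hD] at this
        rw [← Finset.bot_eq_empty, symmDiff_eq_bot] at this
        exact this
      have hDr : rel z D := rel_symmDiff (hF J hJ).2.1 (hF J' hJ').2.1
      have hDb : bal grp D := bal_symmDiff (hF J hJ).2.2 (hF J' hJ').2.2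
      have hDk : ∀ i, D i ⊆ range k := fun i => sub_symmDiff ((hF J hJ).1 i) ((hF J' hJ').1 i)
      have hbig : ∀ i : Fin (n + 2), 2 ≤ (i : ℕ) → D i = ∅ := by
        intro i0 hi0
        by_contra hcon
        obtain ⟨i, hi, hl⟩ := exists_last D ⟨i0, nonempty_iff_ne_empty.2 hcon⟩
        have hi2 : 2 ≤ (i : ℕ) := by
          by_contra h
          have : i < i0 := Fin.lt_def.2 (by omega)
          exact hcon (hl i0 this)
        have e1 := congrFun he1 i
        rw [if_neg (by omega), if_neg (by omega)] at e1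
        exact hi.ne_empty (last_empty y k hk z hz hg D hDk hDr i hl (disj_symmDiff e1))
      have hi2 : ∀ i : Fin (n + 2), i ≠ 0 → i ≠ 1 → D i = ∅ := by
        intro i hi hi'
        refine hbig i ?_
        have e1 : (i : ℕ) ≠ 0 := fun h => hi (Fin.ext h)
        have e2 : (i : ℕ) ≠ 1 := fun h => hi' (Fin.ext (by simpa using h))
        omega
      have hb : ∀ (γ : Bool) (j : ℕ), (if grp 0 = γ ∧ j ∈ D 0 then (1 : ZMod 2) else 0) +
          (if grp 1 = γ ∧ j ∈ D 1 then (1 : ZMod 2) else 0) = 0 := by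
        intro γ j
        have e0 := hDb γ j
        have e2 : ∑ i ∈ ({0, 1} : Finset (Fin (n + 2))),
            (if grp i = γ ∧ j ∈ D i then (1 : ZMod 2) else 0) = 0 := by
          refine Eq.trans (sum_subset (subset_univ _) fun i _ hi => ?_) e0
          rw [mem_insert, mem_singleton, not_or] at hi
          rw [if_neg]
          rintro ⟨_, h⟩
          rw [hi2 i hi.1 hi.2] at h
          exact notMem_empty _ h
        rw [sum_pair h01] at e2
        exact e2
      have hD0 : D 0 = ∅ ∧ D 1 = ∅ := by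
        by_cases h : grp 0 = grp 1
        · have hDD : D 0 = D 1 := by
            ext j
            have := hb (grp 0) j
            by_cases e1 : j ∈ D 0 <;> by_cases e2 : j ∈ D 1 <;> simp [e1, e2, h] at this ⊢
          have h0 : D 0 = ∅ := by
            refine hT (D 0) (hDk 0) h (fun p => ?_) (disj_symmDiff he0)
            have e1 := hDr p
            have e2 : ∑ i ∈ ({0, 1} : Finset (Fin (n + 2))), ∑ j ∈ D i, vv (z i + j) p = 0 := by
              rw [← e1]
              refine (sum_subset (subset_univ _) fun i _ hi => ?_)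
              rw [mem_insert, mem_singleton, not_or] at hi
              rw [hi2 i hi.1 hi.2, sum_empty]
            rw [sum_pair h01, ← hDD] at e2
            exact e2
          exact ⟨h0, hDD ▸ h0⟩
        · constructor
          · rw [eq_empty_iff_forall_notMem]
            intro j hj
            have := hb (grp 0) j
            rw [if_pos ⟨rfl, hj⟩, if_neg (fun h' => h h'.1.symm), add_zero] at this
            exact one_ne_zero this
          · rw [eq_empty_iff_forall_notMem]
            intro j hj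
            have := hb (grp 1) j
            rw [if_pos (show grp 1 = grp 1 ∧ j ∈ D 1 from ⟨rfl, hj⟩), if_neg (fun h' => h h'.1),
              zero_add] at this
            exact one_ne_zero this
      obtain ⟨i, hi⟩ := hDe
      by_cases e1 : i = 0
      · rw [e1, hD0.1] at hi
        exact not_nonempty_empty hi
      by_cases e2 : i = 1
      · rw [e2, hD0.2] at hi
        exact not_nonempty_empty hi
      rw [hi2 i e1 e2] at hi
      exact not_nonempty_empty hi
  refine h1.trans ?_
  rw [card_product, card_powerset, Fintype.card_piFinset]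
  refine Nat.mul_le_mul (Nat.pow_le_pow_right (by norm_num) hTc) (le_of_eq ?_)
  refine prod_congr rfl fun i _ => ?_
  split_ifs
  · exact card_singleton _
  · exact card_powerset _

end Pool.Agent.Q163.PW
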