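import Pool.Agent.Q163.PW.Prob

/-! Choice of the parameters. -/

set_option autoImplicit false

namespace Pool.Agent.Q163.PW

open Finset MeasureTheory Filter Topology Pool.Agent.Q163.RP Pool.Agent.Q163.RX Pool.Agent.Q163.GC
  Pool.Agent.Q163.HC

lemma log_sq (K : ℕ) : ∀ᶠ a : ℕ in atTop, K * (Nat.log 2 a + 1) ^ 2 ≤ a := by
  have h1 : ∀ᶠ t : ℕ in atTop, K * (t + 1) ^ 2 ≤ 2 ^ t := by
    have h2 := isLittleO_pow_const_const_pow_of_one_lt (R := ℝ) 2 (show (1 : ℝ) < 2 by norm_num)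
    have h3 := h2.def (show (0 : ℝ) < 1 / (2 * (K + 1)) by positivity)
    have h4 := (tendsto_add_atTop_nat 1).eventually h3
    filter_upwards [h4] with t ht
    rw [Real.norm_of_nonneg (by positivity), Real.norm_of_nonneg (by positivity)] at ht
    have h5 : (K : ℝ) * ((t : ℝ) + 1) ^ 2 ≤ 2 ^ t := by
      push_cast at ht
      have hK : (0 : ℝ) < K + 1 := by positivity
      rw [pow_succ (2 : ℝ) t] at ht
      have h6 : ((t : ℝ) + 1) ^ 2 * (K + 1) ≤ 2 ^ t := by
        calc ((t : ℝ) + 1) ^ 2 * (K + 1) ≤ 1 / (2 * (K + 1)) * (2 ^ t * 2) * (K + 1) :=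
              mul_le_mul_of_nonneg_right ht hK.le
          _ = 2 ^ t := by field_simp
      nlinarith [sq_nonneg ((t : ℝ) + 1)]
    exact_mod_cast h5
  have h2 : Tendsto (fun a : ℕ => Nat.log 2 a) atTop atTop := by
    refine tendsto_atTop.2 fun b => ?_
    filter_upwards [eventually_ge_atTop (2 ^ b)] with a ha
    exact Nat.le_log_of_pow_le (by norm_num) ha
  filter_upwards [h2.eventually h1, eventually_ge_atTop 1] with a ha h3
  exact ha.trans (Nat.pow_log_le_self 2 (by omega))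

lemma tendsto_log : Tendsto (fun H : ℕ => Nat.log 2 H) atTop atTop := by
  refine tendsto_atTop.2 fun b => ?_
  filter_upwards [eventually_ge_atTop (2 ^ b)] with a ha
  exact Nat.le_log_of_pow_le (by norm_num) ha

/-- the constant in the exponent -/
def c1 (A E : ℕ) : ℕ := 40 * (A + 3) * (2 * E + 5)

/-- the properties of the parameters -/
structure Par (A E a l b M h L : ℕ) : Prop where
  al : a ≤ 2 ^ l
  l1 : 1 ≤ l
  a4 : 4 ≤ a
  hb : 16 * b ≤ a
  hM : M = (A + 3) * l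
  hL : L = 40 * M
  hhM : h * M ≤ b
  f2 : a + 1 ≤ h * L
  f3 : L + l * (2 * E + 5) + 1 ≤ h
  f4 : 10 + L + l + c1 A E * l ^ 2 + 2 * (A + 1) * l ≤ b

lemma params (A E : ℕ) : ∀ᶠ a : ℕ in atTop,
    Par A E a (Nat.log 2 a + 1) (a / 16) ((A + 3) * (Nat.log 2 a + 1))
      (a / 16 / ((A + 3) * (Nat.log 2 a + 1))) (40 * ((A + 3) * (Nat.log 2 a + 1))) := by
  filter_upwards [log_sq (1000 * (A + 3) * (c1 A E + (A + 3) * (40 * (A + 3) + 2 * E + 6) + 100)),
    eventually_ge_atTop 16] with a ha ha16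
  set l := Nat.log 2 a + 1 with hl
  set b := a / 16 with hb
  have hl1 : 1 ≤ l := by omega
  have hll : l ≤ l ^ 2 := Nat.le_self_pow (by norm_num) l
  have hl1' : 1 ≤ l ^ 2 := le_trans hl1 hll
  have hb1 : 16 * b ≤ a := by omega
  have hb2 : a ≤ 16 * b + 15 := by omega
  have hA3 : 1 ≤ A + 3 := by omega
  obtain ⟨D, hD⟩ : ∃ D, D = c1 A E + (A + 3) * (40 * (A + 3) + 2 * E + 6) + 100 := ⟨_, rfl⟩
  rw [← hD] at ha
  have hD100 : 100 ≤ D := by omega
  -- the basic inequality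
  have hbD : 60 * ((A + 3) * D * l ^ 2) ≤ b := by
    have e1 : 1000 * (A + 3) * D * l ^ 2 = 1000 * ((A + 3) * D * l ^ 2) := by ring
    rw [e1] at ha
    have e2 : 1 ≤ (A + 3) * D * l ^ 2 := by
      exact Nat.one_le_iff_ne_zero.2 (mul_ne_zero (mul_ne_zero (by omega) (by omega)) (by omega))
    omega
  have hDb : 60 * (D * l ^ 2) ≤ b := by
    refine le_trans ?_ hbD
    have : D * l ^ 2 ≤ (A + 3) * D * l ^ 2 := by
      rw [mul_assoc]
      exact Nat.le_mul_of_pos_left _ (by omega)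
    omega
  have hMpos : 0 < (A + 3) * l := by positivity
  have hdiv := Nat.div_add_mod b ((A + 3) * l)
  have hmod := Nat.mod_lt b hMpos
  set h := b / ((A + 3) * l) with hh
  have e40 : 100 * (A + 3) * l ≤ b * 2 := by
    have e1 : (A + 3) * (100 * l) ≤ (A + 3) * (D * l ^ 2) := by
      refine Nat.mul_le_mul_left _ ?_
      have : 100 * l ≤ D * l := Nat.mul_le_mul_right _ (by omega)
      refine this.trans (Nat.mul_le_mul_left _ hll)
    have e2 : (A + 3) * (D * l ^ 2) = (A + 3) * D * l ^ 2 := by ring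
    have e3 : 100 * (A + 3) * l = (A + 3) * (100 * l) := by ring
    omega
  refine ⟨?_, hl1, by omega, hb1, rfl, rfl, ?_, ?_, ?_, ?_⟩
  · have := Nat.lt_pow_succ_log_self (b := 2) (by norm_num) a
    exact this.le
  · exact Nat.div_mul_le_self _ _
  · have e1 : h * (40 * ((A + 3) * l)) = 40 * ((A + 3) * l * h) := by ring
    rw [e1]
    have e3 : 100 * (A + 3) * l = 100 * ((A + 3) * l) := by ring
    rw [e3] at e40
    omega
  · rw [hh, Nat.le_div_iff_mul_le hMpos]
    have e1 : 40 * ((A + 3) * l) + l * (2 * E + 5) + 1 ≤ (40 * (A + 3) + 2 * E + 6) * l := by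
      nlinarith
    calc (40 * ((A + 3) * l) + l * (2 * E + 5) + 1) * ((A + 3) * l) ≤
          (40 * (A + 3) + 2 * E + 6) * l * ((A + 3) * l) := Nat.mul_le_mul_right _ e1
      _ = (A + 3) * (40 * (A + 3) + 2 * E + 6) * l ^ 2 := by ring
      _ ≤ D * l ^ 2 := Nat.mul_le_mul_right _ (by omega)
      _ ≤ b := by omega
  · have e1 : c1 A E * l ^ 2 ≤ D * l ^ 2 := Nat.mul_le_mul_right _ (by omega)
    have e2 : (A + 3) * l ≤ D * l ^ 2 := by
      have : A + 3 ≤ D := by
        rw [hD]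
        nlinarith
      exact Nat.mul_le_mul this hll
    have e3 : l ≤ D * l ^ 2 := by
      refine hll.trans (Nat.le_mul_of_pos_left _ (by omega))
    have e4 : 1 ≤ D * l ^ 2 := le_trans hl1 e3
    have e5 : 2 * (A + 1) * l ≤ 2 * ((A + 3) * l) := by nlinarith
    omega

end Pool.Agent.Q163.PW
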