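import Pool.Agent.Q163.PW.Lim

/-! Convergence of the factorial moments to those of a Poisson law gives convergence in law. -/

set_option autoImplicit false

namespace Pool.Agent.Q163.PW

open Finset Filter Topology

/-- Bonferroni's inequality for the number of points -/
lemma bonf (N j s : ℕ) :
    |(if N = j then (1 : ℝ) else 0) -
      ∑ t ∈ range (s + 1), (-1 : ℝ) ^ t * ((j + t).choose j * N.choose (j + t) : ℕ)| ≤
      ((j + s + 1).choose j * N.choose (j + s + 1) : ℕ) := by
  rcases lt_or_ge N j with h | h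
  · rw [if_neg (by omega), sum_eq_zero, sub_zero, abs_zero]
    · exact Nat.cast_nonneg _
    · intro t _
      rw [Nat.choose_eq_zero_of_lt (show N < j + t by omega)]
      simp
  obtain ⟨m, rfl⟩ := Nat.exists_eq_add_of_le h
  have h1 : ∀ t, (j + t).choose j * (j + m).choose (j + t) = (j + m).choose j * m.choose t := by
    intro t
    rw [mul_comm, Nat.choose_mul (Nat.le_add_right j t), Nat.add_sub_cancel_left,
      Nat.add_sub_cancel_left]
  rw [show j + s + 1 = j + (s + 1) by ring, h1]
  have h2 : ∑ t ∈ range (s + 1), (-1 : ℝ) ^ t * ((j + t).choose j * (j + m).choose (j + t) : ℕ) =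
      (j + m).choose j * ∑ t ∈ range (s + 1), (-1 : ℝ) ^ t * m.choose t := by
    rw [mul_sum]
    refine sum_congr rfl fun t _ => ?_
    rw [h1]
    push_cast
    ring
  rw [h2]
  rcases Nat.eq_zero_or_pos m with h0 | h0
  · subst h0
    rw [sum_range_succ', sum_eq_zero]
    · simp
    · intro t _
      rw [Nat.choose_zero_succ]
      simp
  · obtain ⟨m', rfl⟩ : ∃ m', m = m' + 1 := ⟨m - 1, by omega⟩
    have h3 : ∑ t ∈ range (s + 1), (-1 : ℝ) ^ t * (m' + 1).choose t = (-1) ^ s * m'.choose s := by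
      have := @Int.alternating_sum_range_choose_eq_choose m' s
      have h4 := congrArg (fun z : ℤ => (z : ℝ)) this
      push_cast at h4
      exact h4
    rw [h3, if_neg (by omega), zero_sub, abs_neg, abs_mul, abs_mul, abs_pow, abs_neg, abs_one, one_pow,
      one_mul, Nat.abs_cast, Nat.abs_cast, Nat.choose_succ_succ]
    push_cast
    have : (0 : ℝ) ≤ (j + (m' + 1)).choose j := Nat.cast_nonneg _
    have h5 : (0 : ℝ) ≤ m'.choose (s + 1) := Nat.cast_nonneg _
    nlinarith [mul_nonneg this h5]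

lemma exp_partial (l : ℝ) :
    Tendsto (fun s : ℕ => ∑ t ∈ range (s + 1), (-1) ^ t * (l ^ t / t.factorial)) atTop
      (𝓝 (Real.exp (-l))) := by
  have h1 : HasSum (fun t : ℕ => (-l) ^ t / t.factorial) (Real.exp (-l)) := by
    rw [Real.exp_eq_exp_ℝ]
    exact NormedSpace.expSeries_div_hasSum_exp (-l)
  have h2 := (h1.tendsto_sum_nat).comp (tendsto_add_atTop_nat 1)
  refine h2.congr fun s => ?_
  refine sum_congr rfl fun t _ => ?_
  rw [neg_pow]
  ring

/-- the method of moments -/
theorem poisson_of_moments (N : (k : ℕ) → (Fin k → Bool) → ℕ) (l : ℝ)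
    (h : ∀ r : ℕ, Tendsto (fun k : ℕ =>
      (∑ W : Fin k → Bool, (((N k W).descFactorial r : ℕ) : ℝ)) / 2 ^ k) atTop (𝓝 (l ^ r))) (j : ℕ) :
    Tendsto (fun k : ℕ => ((univ.filter fun W : Fin k → Bool => N k W = j).card : ℝ) / 2 ^ k) atTop
      (𝓝 (Real.exp (-l) * (l ^ j / j.factorial))) := by
  -- binomial moments
  have h1 : ∀ r : ℕ, Tendsto (fun k : ℕ =>
      (∑ W : Fin k → Bool, (((N k W).choose r : ℕ) : ℝ)) / 2 ^ k) atTop (𝓝 (l ^ r / r.factorial)) := by
    intro r
    refine ((h r).div_const (r.factorial : ℝ)).congr fun k => ?_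
    have hr : (r.factorial : ℝ) ≠ 0 := by exact_mod_cast r.factorial_ne_zero
    rw [div_div, mul_comm, ← div_div, sum_div]
    congr 1
    refine sum_congr rfl fun W _ => ?_
    rw [Nat.descFactorial_eq_factorial_mul_choose]
    push_cast
    field_simp
  set P : ℕ → ℝ := fun k => ((univ.filter fun W : Fin k → Bool => N k W = j).card : ℝ) / 2 ^ k with hP
  set Q : ℕ → ℕ → ℝ := fun s k => ∑ t ∈ range (s + 1), (-1) ^ t * (((j + t).choose j : ℝ) *
    ((∑ W : Fin k → Bool, (((N k W).choose (j + t) : ℕ) : ℝ)) / 2 ^ k)) with hQ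
  set R : ℕ → ℕ → ℝ := fun s k => ((j + s + 1).choose j : ℝ) *
    ((∑ W : Fin k → Bool, (((N k W).choose (j + s + 1) : ℕ) : ℝ)) / 2 ^ k) with hR
  have hPQ : ∀ s k, |P k - Q s k| ≤ R s k := by
    intro s k
    have e1 : P k - Q s k = (∑ W : Fin k → Bool, ((if N k W = j then (1 : ℝ) else 0) -
        ∑ t ∈ range (s + 1), (-1 : ℝ) ^ t * ((j + t).choose j * (N k W).choose (j + t) : ℕ))) / 2 ^ k := by
      rw [hP, hQ]
      simp only
      rw [sum_sub_distrib, sub_div, sum_boole, sum_comm, sum_div]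
      congr 1
      refine sum_congr rfl fun t _ => ?_
      rw [← mul_sum, mul_div_assoc]
      congr 1
      rw [← mul_div_assoc, mul_sum]
      congr 1
      refine sum_congr rfl fun W _ => ?_
      push_cast
      ring
    rw [e1, abs_div, abs_of_pos (show (0 : ℝ) < 2 ^ k by positivity), hR]
    simp only
    rw [← mul_div_assoc, mul_sum]
    refine div_le_div_of_nonneg_right ?_ (by positivity)
    refine (abs_sum_le_sum_abs _ _).trans (sum_le_sum fun W _ => ?_)
    refine (bonf (N k W) j s).trans (le_of_eq ?_)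
    push_cast
    ring
  have hQl : ∀ s, Tendsto (Q s) atTop (𝓝 (∑ t ∈ range (s + 1), (-1) ^ t *
      (((j + t).choose j : ℝ) * (l ^ (j + t) / (j + t).factorial)))) := by
    intro s
    refine tendsto_finsetSum _ fun t _ => ?_
    exact ((h1 (j + t)).const_mul _).const_mul _
  have hRl : ∀ s, Tendsto (R s) atTop (𝓝 (((j + s + 1).choose j : ℝ) *
      (l ^ (j + s + 1) / (j + s + 1).factorial))) := by
    intro s
    exact (h1 (j + s + 1)).const_mul _
  have hch : ∀ t, ((j + t).choose j : ℝ) * (l ^ (j + t) / (j + t).factorial) =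
      l ^ j / j.factorial * (l ^ t / t.factorial) := by
    intro t
    have e1 := Nat.add_choose_mul_factorial_mul_factorial j t
    rw [← Nat.choose_symm_add] at e1
    have e2 : ((j + t).choose j : ℝ) * j.factorial * t.factorial = (j + t).factorial := by
      exact_mod_cast e1
    have e3 : (j.factorial : ℝ) ≠ 0 := by exact_mod_cast j.factorial_ne_zero
    have e4 : (t.factorial : ℝ) ≠ 0 := by exact_mod_cast t.factorial_ne_zero
    have e5 : ((j + t).factorial : ℝ) ≠ 0 := by exact_mod_cast (j + t).factorial_ne_zero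
    rw [pow_add]
    field_simp
    rw [← e2]
    ring
  have hlim : Tendsto (fun s : ℕ => ∑ t ∈ range (s + 1), (-1) ^ t *
      (((j + t).choose j : ℝ) * (l ^ (j + t) / (j + t).factorial))) atTop
      (𝓝 (Real.exp (-l) * (l ^ j / j.factorial))) := by
    refine ((exp_partial l).mul_const (l ^ j / j.factorial)).congr fun s => ?_
    rw [sum_mul]
    refine sum_congr rfl fun t _ => ?_
    rw [hch]
    ring
  have hlim2 : Tendsto (fun s : ℕ => ((j + s + 1).choose j : ℝ) *
      (l ^ (j + s + 1) / (j + s + 1).factorial)) atTop (𝓝 0) := by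
    have e1 : Tendsto (fun s : ℕ => l ^ (s + 1) / (s + 1).factorial) atTop (𝓝 0) :=
      (FloorSemiring.tendsto_pow_div_factorial_atTop l).comp (tendsto_add_atTop_nat 1)
    have e2 := e1.const_mul (l ^ j / j.factorial)
    rw [mul_zero] at e2
    refine e2.congr fun s => ?_
    rw [show j + s + 1 = j + (s + 1) by ring, hch]
  rw [Metric.tendsto_nhds]
  intro ε hε
  have hε4 : 0 < ε / 4 := by positivity
  obtain ⟨s, hs1, hs2⟩ := (((Metric.tendsto_nhds.1 hlim) (ε / 4) hε4).and
    ((Metric.tendsto_nhds.1 hlim2) (ε / 4) hε4)).exists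
  filter_upwards [(Metric.tendsto_nhds.1 (hQl s)) (ε / 4) hε4,
    (Metric.tendsto_nhds.1 (hRl s)) (ε / 4) hε4] with k hk1 hk2
  rw [Real.dist_eq] at hs1 hs2 hk1 hk2 ⊢
  have h5 := hPQ s k
  rw [abs_lt] at hs1 hs2 hk1 hk2 ⊢
  rw [abs_le] at h5
  constructor <;> linarith

end Pool.Agent.Q163.PW
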