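import Pool.Agent.Q163.PW.Tup

/-! The probability that the number of occurrences of a pattern in the good windows is off. -/

set_option autoImplicit false

namespace Pool.Agent.Q163.PW

open Finset MeasureTheory Filter Pool.Agent.Q163.RP Pool.Agent.Q163.RX Pool.Agent.Q163.GC Pool.Agent.Q163.HC

lemma meas_Yo (G : Finset ℕ) (k : ℕ) (u : ℕ → ℕ → ℝ) : Measurable (Yo G k u) := by
  refine Finset.measurable_fun_sum _ fun n _ => Measurable.sub ?_ measurable_const
  exact Finset.measurable_fun_prod _ fun j _ => (((meas_ch _).const_mul _).const_add _)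

lemma abs_Yo (G : Finset ℕ) (k : ℕ) (u : ℕ → ℕ → ℝ) (hu : ∀ n j, |u n j| ≤ 1) (ω : ℕ → Bool) :
    |Yo G k u ω| ≤ (G ×ˢ ((range k).powerset.erase ∅)).card := by
  rw [Yo_eq]
  refine (abs_sum_le_sum_abs _ _).trans ?_
  rw [card_eq_sum_ones]
  push_cast
  refine sum_le_sum fun q _ => ?_
  rw [abs_mul, abs_cw, mul_one, abs_prod]
  exact prod_le_one (fun _ _ => abs_nonneg _) fun j _ => hu _ _

/-- the probability of a deviation -/
theorem prob_bound (y k θ m v V : ℕ) (hk : k ≤ y) (G : Finset ℕ) (hG : ∀ n ∈ G, n ≠ 0)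
    (ht : ∀ n ∈ G, ∀ j < k, θ ^ 2 ≤ ∏ p ∈ og y (n + j), p)
    (hg : ∀ n ∈ G, ∀ j < k, (og y (n + j)).Nonempty) (hv : ∀ n ∈ G, (bw y k n).card ≤ v)
    (hV : 2 * m * v ≤ V) (B0 B1 : ℝ) (hB1 : 0 < B1) (hB : B1 ≤ B0)
    (h0 : ∀ U : Finset ℕ, U.card ≤ V → ∑ n ∈ G, (2 : ℝ) ^ (Sn y k n U).card ≤ B0)
    (h1 : ∀ U : Finset ℕ, U.card ≤ V → ∀ G' ⊆ G, (∀ n ∈ G', sig y k θ n U) →
      ∑ n ∈ G', (2 : ℝ) ^ (Sn y k n U).card ≤ B1)
    (u : ℕ → ℕ → ℝ) (hu : ∀ n j, |u n j| ≤ 1) (t : ℝ) (ht0 : 0 < t) :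
    cm.real {ω | t < |Yo G k u ω|} ≤ 2 * (4 * B0 * B1 / t ^ 2) ^ m := by
  classical
  have h2 := (mom_rel G hG k (2 * m) u hu).trans
    (rel_count y k θ m v V hk G hG ht hg hv hV B0 B1 hB1 hB h0 fun U hU =>
      h1 U hU _ (filter_subset _ _) fun n hn => (mem_filter.1 hn).2)
  have hint : Integrable (fun ω => Yo G k u ω ^ (2 * m)) cm :=
    Integrable.of_bound ((meas_Yo G k u).pow_const _).aestronglyMeasurable
      (((G ×ˢ ((range k).powerset.erase ∅)).card : ℝ) ^ (2 * m))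
      (Eventually.of_forall fun ω => by
        rw [Real.norm_eq_abs, abs_pow]
        exact pow_le_pow_left₀ (abs_nonneg _) (abs_Yo G k u hu ω) _)
  have h3 := mul_meas_ge_le_integral_of_nonneg (μ := cm) (f := fun ω => Yo G k u ω ^ (2 * m))
    (Eventually.of_forall fun ω => (even_two_mul m).pow_nonneg _) hint (t ^ (2 * m))
  have h4 : cm.real {ω | t < |Yo G k u ω|} ≤ cm.real {ω | t ^ (2 * m) ≤ Yo G k u ω ^ (2 * m)} := by
    refine measureReal_mono (fun ω hω => ?_)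
    simp only [Set.mem_ofPred_eq] at hω ⊢
    rw [← (even_two_mul m).pow_abs (Yo G k u ω)]
    exact pow_le_pow_left₀ ht0.le hω.le _
  refine h4.trans ?_
  rw [div_pow, ← pow_mul, ← mul_div_assoc, le_div_iff₀ (by positivity), mul_comm]
  exact h3.trans h2

/-- the number of prime factors of a window -/
lemma card_bw (y k n c : ℕ) (hn : n ≠ 0) (hc : n + k ≤ 2 ^ c) : (bw y k n).card ≤ k * c := by
  unfold bw
  refine card_biUnion_le.trans ?_
  refine (sum_le_card_nsmul _ _ c fun j hj => ?_).trans (le_of_eq (by rw [card_range, smul_eq_mul]))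
  have hj := mem_range.1 hj
  refine (card_filter_le _ _).trans ?_
  have h1 : 2 ^ (n + j).primeFactors.card ≤ n + j := by
    have h2 : ∏ _p ∈ (n + j).primeFactors, 2 ≤ ∏ p ∈ (n + j).primeFactors, p :=
      prod_le_prod' fun p hp => (Nat.prime_of_mem_primeFactors hp).two_le
    rw [prod_const] at h2
    exact h2.trans (Nat.le_of_dvd (by omega) (Nat.prod_primeFactors_dvd _))
  have h3 : 2 ^ (n + j).primeFactors.card ≤ 2 ^ c := by omega
  exact (Nat.pow_le_pow_iff_right (by norm_num)).1 h3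

end Pool.Agent.Q163.PW
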