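import Pool.Agent.Q163.HC.Num

/-! Square products of the elements of short windows. -/

set_option autoImplicit false

namespace Pool.Agent.Q163.PW

open Finset Pool.Agent.Q163.HC

/-- the exponent of `p` in `m` modulo two -/
def vv (m p : ℕ) : ZMod 2 := (m.factorization p : ZMod 2)

/-- the primes above `y` dividing `m` -/
def bg (y m : ℕ) : Finset ℕ := m.primeFactors.filter fun p => y < p

/-- the primes above `y` dividing an element of the window `n, ..., n + k - 1` -/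
def bw (y k n : ℕ) : Finset ℕ := (range k).biUnion fun j => bg y (n + j)

/-- the primes above `y` with odd exponent in `m` -/
def og (y m : ℕ) : Finset ℕ := (od m).filter fun p => y < p

/-- the product of all elements of a family of subsets of windows is a square -/
def rel {ι : Type*} [Fintype ι] (z : ι → ℕ) (J : ι → Finset ℕ) : Prop :=
  ∀ p, ∑ i, ∑ j ∈ J i, vv (z i + j) p = 0

/-- the positions which share a large prime with `U` -/
def Sn (y k n : ℕ) (U : Finset ℕ) : Finset ℕ :=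
  (range k).filter fun j => ¬ Disjoint (bg y (n + j)) U

/-- the large primes of the previous windows -/
def Ux (P : ℕ → Finset ℕ) (U0 : Finset ℕ) {R : ℕ} (z : Fin R → ℕ) (i : Fin R) : Finset ℕ :=
  U0 ∪ (univ.filter fun i' => i' < i).biUnion fun i' => P (z i')

lemma vv_one {m p : ℕ} (h : p ∈ od m) : vv m p = 1 := by
  unfold vv
  have h1 := (mem_filter.1 h).2
  exact ZMod.natCast_eq_one_iff_odd.2 h1

lemma vv_zero {m p : ℕ} (h : ¬ p ∣ m) : vv m p = 0 := by
  unfold vv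
  rw [Nat.factorization_eq_zero_of_not_dvd h, Nat.cast_zero]

lemma mem_bg {y m p : ℕ} : p ∈ bg y m ↔ p.Prime ∧ p ∣ m ∧ m ≠ 0 ∧ y < p := by
  unfold bg
  rw [mem_filter, Nat.mem_primeFactors]
  tauto

lemma og_sub (y m : ℕ) : og y m ⊆ bg y m := by
  intro p hp
  have h1 := mem_filter.1 hp
  exact mem_filter.2 ⟨(mem_filter.1 h1.1).1, h1.2⟩

lemma uniq {y k n j j' p : ℕ} (hk : k ≤ y) (hj : j < k) (hj' : j' < k) (h : p ∣ n + j)
    (h' : p ∣ n + j') (hp : y < p) : j = j' := by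
  have h1 : n + j ≡ n + j' [MOD p] :=
    (Nat.modEq_zero_iff_dvd.2 h).trans (Nat.modEq_zero_iff_dvd.2 h').symm
  exact Nat.ModEq.eq_of_lt_of_lt (Nat.ModEq.add_left_cancel' n h1) (by omega) (by omega)

lemma not_dvd_of_not_bw {y k n j p : ℕ} (hn : n + j ≠ 0) (hj : j < k) (hpp : p.Prime) (hp : y < p)
    (h : p ∉ bw y k n) : ¬ p ∣ n + j := by
  intro h1
  exact h (mem_biUnion.2 ⟨j, mem_range.2 hj, mem_bg.2 ⟨hpp, h1, hn, hp⟩⟩)

/-- a private prime of one window forces a relation to avoid it -/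
lemma private_prime {ι : Type*} [Fintype ι] [DecidableEq ι] (y k : ℕ) (hk : k ≤ y) (z : ι → ℕ)
    (hz : ∀ i, z i ≠ 0) (K : ι → Finset ℕ) (hK : ∀ i, K i ⊆ range k) (hr : rel z K) (i : ι) (j p : ℕ)
    (hj : j ∈ K i) (hp : p ∈ og y (z i + j)) : ∃ i', i' ≠ i ∧ (K i').Nonempty ∧ p ∈ bw y k (z i') := by
  by_contra hcon
  push Not at hcon
  have hp1 := mem_bg.1 (og_sub _ _ hp)
  have h1 := hr p
  rw [sum_eq_single i, sum_eq_single j] at h1
  · rw [vv_one (mem_filter.1 hp).1] at h1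
    exact one_ne_zero h1
  · intro j' hj' hne
    refine vv_zero fun h2 => hne ?_
    exact (uniq hk (mem_range.1 (hK i hj)) (mem_range.1 (hK i hj')) hp1.2.1 h2 hp1.2.2.2).symm
  · intro h2
    exact absurd hj h2
  · intro i' _ hne
    refine sum_eq_zero fun j' hj' => ?_
    refine vv_zero (not_dvd_of_not_bw ?_ (mem_range.1 (hK i' hj')) hp1.1 hp1.2.2.2
      (hcon i' hne ⟨j', hj'⟩))
    have := hz i'
    omega
  · intro h2
    exact absurd (mem_univ i) h2

lemma last_empty {R : ℕ} (y k : ℕ) (hk : k ≤ y) (z : Fin R → ℕ) (hz : ∀ i, z i ≠ 0)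
    (hg : ∀ i, ∀ j < k, (og y (z i + j)).Nonempty) (K : Fin R → Finset ℕ)
    (hK : ∀ i, K i ⊆ range k) (hr : rel z K) (i : Fin R) (hl : ∀ i', i < i' → K i' = ∅)
    (hS : Disjoint (K i) (Sn y k (z i) (Ux (bw y k) ∅ z i))) : K i = ∅ := by
  by_contra hne
  obtain ⟨j, hj⟩ := nonempty_iff_ne_empty.2 hne
  obtain ⟨p, hp⟩ := hg i j (mem_range.1 (hK i hj))
  obtain ⟨i', hi', hKi', hp'⟩ := private_prime y k hk z hz K hK hr i j p hj hp
  rcases lt_trichotomy i' i with h | h | h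
  · refine disjoint_left.1 hS hj ?_
    unfold Sn
    rw [mem_filter]
    refine ⟨hK i hj, not_disjoint_iff.2 ⟨p, og_sub _ _ hp, ?_⟩⟩
    unfold Ux
    rw [empty_union, mem_biUnion]
    exact ⟨i', mem_filter.2 ⟨mem_univ _, h⟩, hp'⟩
  · exact hi' h
  · rw [hl i' h] at hKi'
    exact not_nonempty_empty hKi'

lemma sum_symmDiff {f : ℕ → ZMod 2} (A B : Finset ℕ) :
    ∑ j ∈ symmDiff A B, f j = ∑ j ∈ A, f j + ∑ j ∈ B, f j := by
  have h1 : ∑ j ∈ A, f j = ∑ j ∈ A \ B, f j + ∑ j ∈ A ∩ B, f j := by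
    rw [← sum_inter_add_sum_sdiff A B, add_comm]
  have h2 : ∑ j ∈ B, f j = ∑ j ∈ B \ A, f j + ∑ j ∈ A ∩ B, f j := by
    rw [← sum_inter_add_sum_sdiff B A, add_comm, inter_comm]
  have h3 : ∑ j ∈ symmDiff A B, f j = ∑ j ∈ A \ B, f j + ∑ j ∈ B \ A, f j := by
    rw [symmDiff_def, Finset.sup_eq_union, sum_union]
    exact disjoint_sdiff_sdiff
  rw [h1, h2, h3]
  have h4 : ∀ x : ZMod 2, x + x = 0 := by decide
  linear_combination (-1 : ZMod 2) * h4 (∑ j ∈ A ∩ B, f j)

lemma rel_symmDiff {ι : Type*} [Fintype ι] {z : ι → ℕ} {J J' : ι → Finset ℕ} (h : rel z J)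
    (h' : rel z J') : rel z fun i => symmDiff (J i) (J' i) := by
  intro p
  have h1 : ∀ i, ∑ j ∈ symmDiff (J i) (J' i), vv (z i + j) p =
      ∑ j ∈ J i, vv (z i + j) p + ∑ j ∈ J' i, vv (z i + j) p := fun i => sum_symmDiff _ _
  simp_rw [h1]
  rw [sum_add_distrib, h p, h' p, add_zero]

lemma disj_symmDiff {A B S : Finset ℕ} (h : A ∩ S = B ∩ S) : Disjoint (symmDiff A B) S := by
  rw [disjoint_left]
  intro x hx hS
  rw [mem_symmDiff] at hx
  rcases hx with ⟨h1, h2⟩ | ⟨h1, h2⟩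
  · have := mem_inter.2 ⟨h1, hS⟩
    rw [h] at this
    exact h2 (mem_inter.1 this).1
  · have := mem_inter.2 ⟨h1, hS⟩
    rw [← h] at this
    exact h2 (mem_inter.1 this).1

lemma sub_symmDiff {A B S : Finset ℕ} (h : A ⊆ S) (h' : B ⊆ S) : symmDiff A B ⊆ S := by
  intro x hx
  rw [mem_symmDiff] at hx
  rcases hx with ⟨h1, _⟩ | ⟨h1, _⟩
  · exact h h1
  · exact h' h1

/-- the last nonempty member of a family -/
lemma exists_last {R : ℕ} (K : Fin R → Finset ℕ) (h : ∃ i, (K i).Nonempty) :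
    ∃ i, (K i).Nonempty ∧ ∀ i', i < i' → K i' = ∅ := by
  classical
  obtain ⟨i0, hi0⟩ := h
  obtain ⟨i, hi, hmax⟩ := (univ.filter fun i => (K i).Nonempty).exists_max_image id
    ⟨i0, mem_filter.2 ⟨mem_univ _, hi0⟩⟩
  refine ⟨i, (mem_filter.1 hi).2, fun i' hi' => ?_⟩
  by_contra hne
  have := hmax i' (mem_filter.2 ⟨mem_univ _, nonempty_iff_ne_empty.2 hne⟩)
  exact absurd hi' (not_lt.2 this)

/-- the number of relations between given windows -/
theorem card_rel {R : ℕ} (y k : ℕ) (hk : k ≤ y) (z : Fin R → ℕ) (hz : ∀ i, z i ≠ 0)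
    (hg : ∀ i, ∀ j < k, (og y (z i + j)).Nonempty) (F : Finset (Fin R → Finset ℕ))
    (hF : ∀ J ∈ F, (∀ i, J i ⊆ range k) ∧ rel z J) :
    F.card ≤ ∏ i, 2 ^ (Sn y k (z i) (Ux (bw y k) ∅ z i)).card := by
  classical
  have h1 : F.card ≤ (Fintype.piFinset fun i => (Sn y k (z i) (Ux (bw y k) ∅ z i)).powerset).card := by
    refine card_le_card_of_injOn (fun J i => J i ∩ Sn y k (z i) (Ux (bw y k) ∅ z i)) ?_ ?_
    · intro J _
      rw [mem_coe, Fintype.mem_piFinset]
      exact fun i => mem_powerset.2 inter_subset_right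
    · intro J hJ J' hJ' he
      by_contra hne
      have h2 : ∃ i, (symmDiff (J i) (J' i)).Nonempty := by
        by_contra hcon
        push Not at hcon
        apply hne
        funext i
        have := hcon i
        rw [← Finset.bot_eq_empty, symmDiff_eq_bot] at this
        exact this
      obtain ⟨i, hi, hl⟩ := exists_last _ h2
      have h3 := last_empty y k hk z hz hg (fun i => symmDiff (J i) (J' i))
        (fun i => sub_symmDiff ((hF J hJ).1 i) ((hF J' hJ').1 i))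
        (rel_symmDiff (hF J hJ).2 (hF J' hJ').2) i hl (disj_symmDiff (congrFun he i))
      exact hi.ne_empty h3
  refine h1.trans (le_of_eq ?_)
  rw [Fintype.card_piFinset]
  exact prod_congr rfl fun i _ => card_powerset _

/-- the common part of the odd large primes of `m` and `U` -/
def Tp (y m : ℕ) (U : Finset ℕ) : ℕ := ∏ p ∈ (og y m).filter (fun p => p ∈ U), p

/-- some element of the window shares much with `U` -/
def sig (y k θ n : ℕ) (U : Finset ℕ) : Prop := ∃ j < k, θ ≤ Tp y (n + j) U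

lemma prod_le_of_cover {A B C : Finset ℕ} (h : A ⊆ B ∪ C) (hB : ∀ p ∈ B, 1 ≤ p)
    (hC : ∀ p ∈ C, 1 ≤ p) : ∏ p ∈ A, p ≤ (∏ p ∈ B, p) * ∏ p ∈ C, p := by
  have h1 : ∏ p ∈ A, p ≤ ∏ p ∈ B ∪ C, p := by
    refine prod_le_prod_of_subset_of_one_le' h fun p hp _ => ?_
    rcases mem_union.1 hp with h2 | h2
    · exact hB p h2
    · exact hC p h2
  refine h1.trans ?_
  rw [← prod_union_inter]
  refine Nat.le_mul_of_pos_right _ ?_
  exact prod_pos fun p hp => hB p (mem_inter.1 hp).1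

/-- in a relation without empty members every window shares much with the previous or with the
later ones -/
theorem sig_or {R : ℕ} (y k θ : ℕ) (hk : k ≤ y) (z : Fin R → ℕ) (hz : ∀ i, z i ≠ 0)
    (ht : ∀ i, ∀ j < k, θ ^ 2 ≤ ∏ p ∈ og y (z i + j), p) (J : Fin R → Finset ℕ)
    (hJ : ∀ i, J i ⊆ range k) (hr : rel z J) (i : Fin R) (hn : (J i).Nonempty) :
    sig y k θ (z i) (Ux (bw y k) ∅ z i) ∨
      sig y k θ (z i) ((univ.filter fun i' => i < i').biUnion fun i' => bw y k (z i')) := by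
  classical
  obtain ⟨j, hj⟩ := hn
  have hjk := mem_range.1 (hJ i hj)
  set A := (og y (z i + j)).filter (fun p => p ∈ Ux (bw y k) ∅ z i) with hA
  set B := (og y (z i + j)).filter
    (fun p => p ∈ (univ.filter fun i' => i < i').biUnion fun i' => bw y k (z i')) with hB
  have h1 : og y (z i + j) ⊆ A ∪ B := by
    intro p hp
    obtain ⟨i', hi', _, hp'⟩ := private_prime y k hk z hz J hJ hr i j p hj hp
    rw [mem_union]
    rcases lt_or_gt_of_ne hi' with h | h
    · left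
      rw [hA, mem_filter]
      refine ⟨hp, ?_⟩
      unfold Ux
      rw [empty_union, mem_biUnion]
      exact ⟨i', mem_filter.2 ⟨mem_univ _, h⟩, hp'⟩
    · right
      rw [hB, mem_filter, mem_biUnion]
      exact ⟨hp, i', mem_filter.2 ⟨mem_univ _, h⟩, hp'⟩
  have hpos : ∀ p ∈ og y (z i + j), 1 ≤ p := fun p hp => (mem_bg.1 (og_sub _ _ hp)).1.one_lt.le
  have h2 := prod_le_of_cover h1 (fun p hp => hpos p (mem_filter.1 hp).1)
    (fun p hp => hpos p (mem_filter.1 hp).1)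
  by_contra hcon
  rw [not_or] at hcon
  have h3 : ∏ p ∈ A, p < θ := by
    by_contra h
    exact hcon.1 ⟨j, hjk, not_lt.1 h⟩
  have h4 : ∏ p ∈ B, p < θ := by
    by_contra h
    exact hcon.2 ⟨j, hjk, not_lt.1 h⟩
  have h5 := ht i j hjk
  have h6 : (∏ p ∈ A, p) * ∏ p ∈ B, p < θ * θ := Nat.mul_lt_mul'' h3 h4
  rw [sq] at h5
  omega

end Pool.Agent.Q163.PW
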