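import Pool.Agent.Q163.PW.Fact

/-! The remainder in the factorial moments is small. -/

set_option autoImplicit false

namespace Pool.Agent.Q163.PW

open Finset MeasureTheory Filter Topology Pool.Agent.Q163.RP Pool.Agent.Q163.RX Pool.Agent.Q163.GC
  Pool.Agent.Q163.HC

section
variable {A E a l b M h L : ℕ}

open Classical in
/-- the number of balanced relations for the standard parameters -/
theorem Par.sec (P : Par A E a l b M h L) (hE : 1 ≤ E) (n : ℕ) {x k : ℕ} (hka : k ≤ a)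
    (hx : x ≤ 2 ^ (a ^ E)) (ha : 128 ≤ a) (hb : a ≤ 16 * b + 15) (hn : n + 2 ≤ 2 * a ^ E)
    (g1 : 4 * n + 13 + (n + 1) * (c1 A E * l ^ 2) + 4 * l ≤ a / 2)
    (g2 : (n + 2) + (n + 2) * ((n + 2) * L) + 5 * l + c1 A E * l ^ 2 + 2 ≤ b)
    (G : Finset ℕ) (hG : G ⊆ Gd (2 ^ h) M (2 ^ (4 * b)) k x (2 ^ a)) (grp : Fin (n + 2) → Bool) :
    ∑ z ∈ (Fintype.piFinset fun _ : Fin (n + 2) => G).filter
        (fun z => ∀ i i', i ≠ i' → grp i = grp i' → z i ≠ z i'), ((BF k grp z).card : ℝ) ≤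
      (2 ^ a) ^ (n + 2) / 2 ^ (4 * l) := by
  have hkl : k ≤ 2 ^ l := hka.trans P.al
  have hky : k ≤ 2 ^ h := hkl.trans (Nat.pow_le_pow_right (by norm_num) P.lh)
  have hy1 : 1 ≤ 2 ^ h := Nat.one_le_two_pow
  have hGI : G ⊆ Ioc x (x + 2 ^ a) := hG.trans (Gd_sub _ _ _ _ _ _)
  have hG1 : ∀ m ∈ G, x < m ∧ m ≤ x + 2 ^ a := fun m hm => mem_Ioc.1 (hGI hm)
  have hGc : G.card ≤ 2 ^ a := by
    have := card_le_card hGI
    rwa [Nat.card_Ioc, Nat.add_sub_cancel_left] at this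
  have haE : a ≤ a ^ E := Nat.le_self_pow (by omega) a
  set V := 2 ^ (l * (2 * E + 4)) with hV
  have hVk : V * k ≤ 2 ^ (l * (2 * E + 5)) := by
    calc V * k ≤ 2 ^ (l * (2 * E + 4)) * 2 ^ l := Nat.mul_le_mul_left _ hkl
      _ = 2 ^ (l * (2 * E + 5)) := by
          rw [← pow_add]
          congr 1
  have hc1 : l * (2 * E + 5) * L = c1 A E * l ^ 2 := by
    rw [P.hL, P.hM]
    unfold c1
    ring
  have hVkL : (V * k) ^ L ≤ 2 ^ (c1 A E * l ^ 2) := by
    calc (V * k) ^ L ≤ (2 ^ (l * (2 * E + 5))) ^ L := Nat.pow_le_pow_left hVk L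
      _ = _ := by rw [← pow_mul, hc1]
  have hdiv0 : 2 ^ a / (2 ^ h) ^ L = 0 := by
    refine Nat.div_eq_of_lt ?_
    rw [← pow_mul]
    refine Nat.pow_lt_pow_right (by norm_num) ?_
    have := P.f2
    omega
  have hlink : ∀ U : Finset ℕ, U.card ≤ V →
      ((Ioc x (x + 2 ^ a)).filter fun n => L ≤ (bw (2 ^ h) k n ∩ U).card).card ≤
        2 ^ (c1 A E * l ^ 2) := by
    intro U hU
    refine (link_count (2 ^ h) k L x (2 ^ a) hy1 U).trans ?_
    rw [hdiv0, zero_add, mul_one]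
    exact (Nat.pow_le_pow_left (Nat.mul_le_mul_right _ hU) L).trans hVkL
  have hab : 2 ^ b ≤ 2 ^ a := Nat.pow_le_pow_right (by norm_num) (by
    have := P.hb
    omega)
  have hbL : 2 ^ b ≤ (2 ^ h) ^ L := by
    rw [← pow_mul]
    refine Nat.pow_le_pow_right (by norm_num) ?_
    have h1 := P.f2
    have h2 := P.hb
    omega
  have h1 := bal_count (n := n) (2 ^ h) k (2 ^ b) (2 ^ a) 8 L (k * (a ^ E + a + 2)) V hky G
    (fun m hm => by
      have := (hG1 m hm).1
      omega)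
    (fun m hm j hj => (gd_og P.thy hy1 ((mem_Gd.1 (hG hm)).2 j hj)).le)
    (fun m hm j hj => nonempty_og P.thy hy1 Nat.one_le_two_pow ((mem_Gd.1 (hG hm)).2 j hj))
    (fun m hm => by
      refine card_bw _ _ _ _ ?_ ?_
      · have := (hG1 m hm).1
        omega
      · have h2 := (hG1 m hm).2
        have h3 : 2 ^ (a ^ E) ≤ 2 ^ (a ^ E + a) := Nat.pow_le_pow_right (by norm_num) (by omega)
        have h5 : a < 2 ^ a := Nat.lt_two_pow_self
        have h6 : 2 ^ a ≤ 2 ^ (a ^ E + a) := Nat.pow_le_pow_right (by norm_num) (by omega)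
        have h7 : 2 ^ (a ^ E + a + 2) = 4 * 2 ^ (a ^ E + a) := by
          rw [pow_succ, pow_succ]
          ring
        omega)
    (by
      have h2 : a ^ E + a + 2 ≤ 3 * a ^ E := by omega
      have h3 : a ^ (2 * E + 1) ≤ (2 ^ l) ^ (2 * E + 1) := Nat.pow_le_pow_left P.al _
      calc (n + 2) * (k * (a ^ E + a + 2)) ≤ 2 * a ^ E * (a * (3 * a ^ E)) := by gcongr
        _ = 6 * a ^ (2 * E + 1) := by
            rw [show 2 * E + 1 = E + E + 1 by ring, pow_succ, pow_add]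
            ring
        _ ≤ 2 ^ (3 * l) * (2 ^ l) ^ (2 * E + 1) := by
            refine Nat.mul_le_mul ?_ h3
            calc 6 ≤ 2 ^ 3 := by norm_num
              _ ≤ 2 ^ (3 * l) := Nat.pow_le_pow_right (by norm_num) (by
                  have := P.l1
                  omega)
        _ = 2 ^ (l * (2 * E + 4)) := by
            rw [← pow_mul, ← pow_add]
            congr 1
            ring)
    (by
      rw [← pow_mul, ← pow_mul]
      exact Nat.pow_lt_pow_right (by norm_num) (by omega))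
    (fun u hu w hw => by
      have := (hG1 u hu).2
      have := (hG1 w hw).1
      omega)
    (2 ^ (a + 2 + c1 A E * l ^ 2)) (2 ^ (c1 A E * l ^ 2))
    (2 ^ a * 2 ^ (l + c1 A E * l ^ 2 + 1) / 2 ^ b)
    (fun U hU => by
      refine (weight_sum (2 ^ h) k L V x (2 ^ a) hky hy1 U hU G hGI).trans ?_
      rw [hdiv0, zero_add, Nat.cast_one, mul_one]
      have e1 : 2 ^ a + 2 ^ L * (V * k * (2 ^ a / 2 ^ h + 1)) + 2 ^ k * (V * k) ^ L ≤
          2 ^ (a + 2 + c1 A E * l ^ 2) := by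
        have e2 : 2 ^ L * (V * k * (2 ^ a / 2 ^ h + 1)) ≤ 2 ^ a := by
          have e1 : 2 * (2 ^ L * (V * k * (2 ^ a / 2 ^ h + 1))) ≤ 2 * 2 ^ a := by
            calc 2 * (2 ^ L * (V * k * (2 ^ a / 2 ^ h + 1))) ≤
                  2 * (2 ^ L * (2 ^ (l * (2 * E + 5)) * (2 ^ a / 2 ^ h + 1))) := by gcongr
              _ = 2 ^ (L + l * (2 * E + 5) + 1) * (2 ^ a / 2 ^ h + 1) := by
                  rw [pow_succ, pow_add]
                  ring
              _ ≤ 2 ^ h * (2 ^ a / 2 ^ h + 1) :=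
                  Nat.mul_le_mul_right _ (Nat.pow_le_pow_right (by norm_num) P.f3)
              _ = 2 ^ h * (2 ^ a / 2 ^ h) + 2 ^ h := by ring
              _ ≤ 2 ^ a + 2 ^ a := by
                  refine add_le_add (Nat.mul_div_le _ _) ?_
                  refine Nat.pow_le_pow_right (by norm_num) ?_
                  have h1 := P.hhM
                  have h2 := P.hb
                  have h3 : h ≤ h * M := Nat.le_mul_of_pos_right _ (by
                    rw [P.hM]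
                    have := P.l1
                    positivity)
                  omega
              _ = 2 * 2 ^ a := by ring
          omega
        have e3 : 2 ^ k * (V * k) ^ L ≤ 2 ^ a * 2 ^ (c1 A E * l ^ 2) :=
          Nat.mul_le_mul (Nat.pow_le_pow_right (by norm_num) hka) hVkL
        have e4 : 2 ^ a ≤ 2 ^ a * 2 ^ (c1 A E * l ^ 2) :=
          Nat.le_mul_of_pos_right _ (by positivity)
        have e5 : 2 ^ (a + 2 + c1 A E * l ^ 2) = 4 * (2 ^ a * 2 ^ (c1 A E * l ^ 2)) := by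
          rw [pow_add, pow_add]
          ring
        omega
      exact_mod_cast e1)
    (fun U hU => by
      have e1 := (card_le_card (filter_subset_filter
        (fun n => L ≤ (bw (2 ^ h) k n ∩ U).card) hGI)).trans (hlink U hU)
      exact_mod_cast e1)
    (fun U hU => by
      have e1 : (G.filter fun n => sig (2 ^ h) k (2 ^ b) n U).card ≤
          k * (V + 1) ^ L * (2 ^ a / 2 ^ b + 1) := by
        refine (sig_count (2 ^ h) k (2 ^ b) L x (2 ^ a) Nat.one_le_two_pow hbL U _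
          ((filter_subset _ _).trans hGI) fun n hn => (mem_filter.1 hn).2).trans ?_
        exact Nat.mul_le_mul_right _ (Nat.mul_le_mul_left _
          (Nat.pow_le_pow_left (Nat.add_le_add_right hU 1) L))
      have e2 : (V + 1) ^ L ≤ 2 ^ (c1 A E * l ^ 2) := by
        rw [← hc1, pow_mul]
        refine Nat.pow_le_pow_left ?_ L
        calc V + 1 ≤ V * 2 := by
              have : 1 ≤ V := Nat.one_le_two_pow
              omega
          _ ≤ V * 2 ^ l := Nat.mul_le_mul_left _ (by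
              calc 2 = 2 ^ 1 := rfl
                _ ≤ 2 ^ l := Nat.pow_le_pow_right (by norm_num) P.l1)
          _ = 2 ^ (l * (2 * E + 5)) := by
              rw [hV, ← pow_add]
              congr 1
      have e3 : 2 ^ b * (2 ^ a / 2 ^ b + 1) ≤ 2 * 2 ^ a := by
        have := Nat.mul_div_le (2 ^ a) (2 ^ b)
        nlinarith
      rw [le_div_iff₀ (by positivity)]
      have e4 : (G.filter fun n => sig (2 ^ h) k (2 ^ b) n U).card * 2 ^ b ≤
          2 ^ a * 2 ^ (l + c1 A E * l ^ 2 + 1) := by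
        calc (G.filter fun n => sig (2 ^ h) k (2 ^ b) n U).card * 2 ^ b ≤
            k * (V + 1) ^ L * (2 ^ a / 2 ^ b + 1) * 2 ^ b := Nat.mul_le_mul_right _ e1
          _ = k * (V + 1) ^ L * (2 ^ b * (2 ^ a / 2 ^ b + 1)) := by ring
          _ ≤ 2 ^ l * 2 ^ (c1 A E * l ^ 2) * (2 * 2 ^ a) := by gcongr
          _ = 2 ^ a * 2 ^ (l + c1 A E * l ^ 2 + 1) := by
              rw [pow_add, pow_add]
              ring
      exact_mod_cast e4)
    grp
  refine h1.trans ?_
  have hn2 : ((n : ℝ) + 2) ≤ 2 ^ (n + 2) := by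
    have : n + 2 < 2 ^ (n + 2) := Nat.lt_two_pow_self
    exact_mod_cast this.le
  have hn0 : (0 : ℝ) ≤ (n : ℝ) + 2 := by positivity
  have hGR : (G.card : ℝ) ≤ 2 ^ a := by exact_mod_cast hGc
  have hG0 : (0 : ℝ) ≤ (G.card : ℝ) := Nat.cast_nonneg _
  have hhalf : ((2 : ℝ) ^ a) ^ (n + 2) / 2 ^ (4 * l) =
      (2 ^ a) ^ (n + 2) / 2 ^ (4 * l + 1) + (2 ^ a) ^ (n + 2) / 2 ^ (4 * l + 1) := by
    rw [pow_succ _ (4 * l)]
    field_simp
    norm_num
  rw [hhalf]
  refine add_le_add ?_ ?_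
  · rw [le_div_iff₀ (by positivity)]
    calc ((n : ℝ) + 2) ^ 2 * (2 ^ (k / 2 + 8) * ((2 ^ (a + 2 + c1 A E * l ^ 2)) ^ n *
          2 ^ (c1 A E * l ^ 2) * G.card)) * 2 ^ (4 * l + 1) ≤
          (2 ^ (n + 2)) ^ 2 * (2 ^ (a / 2 + 8) * ((2 ^ (a + 2 + c1 A E * l ^ 2)) ^ n *
            2 ^ (c1 A E * l ^ 2) * 2 ^ a)) * 2 ^ (4 * l + 1) := by
          have e1 : (2 : ℝ) ^ (k / 2 + 8) ≤ 2 ^ (a / 2 + 8) :=
            pow_le_pow_right₀ (by norm_num) (by omega)
          gcongr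
      _ = 2 ^ ((n + 2) * 2 + (a / 2 + 8 + ((a + 2 + c1 A E * l ^ 2) * n +
            c1 A E * l ^ 2 + a)) + (4 * l + 1)) := by
          rw [← pow_mul, ← pow_mul, ← pow_add, ← pow_add, ← pow_add, ← pow_add, ← pow_add]
      _ ≤ 2 ^ (a * (n + 2)) := by
          refine pow_le_pow_right₀ (by norm_num) ?_
          have e1 : (a + 2 + c1 A E * l ^ 2) * n = a * n + 2 * n + n * (c1 A E * l ^ 2) := by ring
          have e2 : (n + 1) * (c1 A E * l ^ 2) = n * (c1 A E * l ^ 2) + c1 A E * l ^ 2 := by ring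
          have e3 : a * (n + 2) = a * n + 2 * a := by ring
          omega
      _ = (2 ^ a) ^ (n + 2) := by rw [← pow_mul]
  · rw [le_div_iff₀ (by positivity)]
    have e0 : ((n : ℝ) + 2) * (2 ^ ((n + 2) * ((n + 2) * L)) * ((G.card : ℝ) ^ (n + 1) *
          (2 ^ a * 2 ^ (l + c1 A E * l ^ 2 + 1) / 2 ^ b))) * 2 ^ (4 * l + 1) =
          (((n : ℝ) + 2) * (2 ^ ((n + 2) * ((n + 2) * L)) * ((G.card : ℝ) ^ (n + 1) *
          (2 ^ a * 2 ^ (l + c1 A E * l ^ 2 + 1)))) * 2 ^ (4 * l + 1)) / 2 ^ b := by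
      ring
    rw [e0, div_le_iff₀ (by positivity)]
    calc ((n : ℝ) + 2) * (2 ^ ((n + 2) * ((n + 2) * L)) * ((G.card : ℝ) ^ (n + 1) *
          (2 ^ a * 2 ^ (l + c1 A E * l ^ 2 + 1)))) * 2 ^ (4 * l + 1) ≤
          2 ^ (n + 2) * (2 ^ ((n + 2) * ((n + 2) * L)) * ((2 ^ a) ^ (n + 1) *
          (2 ^ a * 2 ^ (l + c1 A E * l ^ 2 + 1)))) * 2 ^ (4 * l + 1) := by gcongr
      _ = (2 ^ a) ^ (n + 2) * 2 ^ ((n + 2) + (n + 2) * ((n + 2) * L) +
            (l + c1 A E * l ^ 2 + 1) + (4 * l + 1)) := by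
          rw [pow_add _ _ (4 * l + 1), pow_add _ _ (l + c1 A E * l ^ 2 + 1),
            pow_add _ (n + 2) ((n + 2) * ((n + 2) * L)), pow_succ _ (n + 1)]
          ring
      _ ≤ (2 ^ a) ^ (n + 2) * 2 ^ b := by
          refine mul_le_mul_of_nonneg_left (pow_le_pow_right₀ (by norm_num) ?_) (by positivity)
          omega

end

end Pool.Agent.Q163.PW
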