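import Pool.Agent.Q163.PW.Rel

/-! Sums over tuples of windows, one window after the other. -/

set_option autoImplicit false

namespace Pool.Agent.Q163.PW

open Finset

lemma Ux_zero (P : ℕ → Finset ℕ) (U0 : Finset ℕ) {R : ℕ} (z : Fin (R + 1) → ℕ) :
    Ux P U0 z 0 = U0 := by
  unfold Ux
  have h1 : (univ.filter fun i' : Fin (R + 1) => i' < 0) = ∅ := by
    rw [filter_eq_empty_iff]
    exact fun i _ => Fin.not_lt_zero i
  rw [h1, biUnion_empty, union_empty]

lemma Ux_succ (P : ℕ → Finset ℕ) (U0 : Finset ℕ) {R : ℕ} (n : ℕ) (z : Fin R → ℕ) (i : Fin R) :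
    Ux P U0 (Fin.cons n z : Fin (R + 1) → ℕ) i.succ = Ux P (U0 ∪ P n) z i := by
  unfold Ux
  ext p
  simp only [mem_union, mem_biUnion, mem_filter, mem_univ, true_and]
  constructor
  · rintro (h | ⟨i', hi', hp⟩)
    · exact Or.inl (Or.inl h)
    · rcases Fin.eq_zero_or_eq_succ i' with h0 | ⟨i'', h0⟩
      · subst h0
        rw [Fin.cons_zero] at hp
        exact Or.inl (Or.inr hp)
      · subst h0
        rw [Fin.cons_succ] at hp
        exact Or.inr ⟨i'', Fin.succ_lt_succ_iff.1 hi', hp⟩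
  · rintro ((h | h) | ⟨i', hi', hp⟩)
    · exact Or.inl h
    · exact Or.inr ⟨0, Fin.succ_pos i, by rw [Fin.cons_zero]; exact h⟩
    · exact Or.inr ⟨i'.succ, Fin.succ_lt_succ_iff.2 hi', by rw [Fin.cons_succ]; exact hp⟩

lemma sum_cons (G : Finset ℕ) (R : ℕ) (f : (Fin (R + 1) → ℕ) → ℝ) :
    ∑ z ∈ Fintype.piFinset (fun _ : Fin (R + 1) => G), f z =
      ∑ n ∈ G, ∑ z ∈ Fintype.piFinset (fun _ : Fin R => G), f (Fin.cons n z) := by
  rw [← sum_product']
  refine sum_nbij' (fun z => (z 0, fun i : Fin R => z i.succ)) (fun x => Fin.cons x.1 x.2) ?_ ?_ ?_ ?_ ?_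
  · intro z hz
    rw [Fintype.mem_piFinset] at hz
    rw [mem_product, Fintype.mem_piFinset]
    exact ⟨hz 0, fun i => hz i.succ⟩
  · intro x hx
    rw [mem_product, Fintype.mem_piFinset] at hx
    rw [Fintype.mem_piFinset]
    intro i
    rcases Fin.eq_zero_or_eq_succ i with h0 | ⟨i', h0⟩
    · subst h0
      rw [Fin.cons_zero]
      exact hx.1
    · subst h0
      rw [Fin.cons_succ]
      exact hx.2 i'
  · intro z _
    exact Fin.cons_self_tail z
  · intro x _
    rfl
  · intro z _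
    rw [show (Fin.cons (z 0) (fun i : Fin R => z i.succ) : Fin (R + 1) → ℕ) = z from
      Fin.cons_self_tail z]

/-- sums over tuples, one window after the other -/
theorem seq_sum (G : Finset ℕ) (P : ℕ → Finset ℕ) (v V : ℕ) (hP : ∀ n ∈ G, (P n).card ≤ v) :
    ∀ (R : ℕ) (w : ℕ → ℕ → Finset ℕ → ℝ) (B : ℕ → ℝ) (U0 : Finset ℕ), (∀ i n U, 0 ≤ w i n U) →
      (∀ i < R, ∀ U : Finset ℕ, U.card ≤ V → ∑ n ∈ G, w i n U ≤ B i) → U0.card + R * v ≤ V →
      ∑ z ∈ Fintype.piFinset (fun _ : Fin R => G), ∏ i : Fin R, w i (z i) (Ux P U0 z i) ≤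
        ∏ i ∈ range R, B i := by
  intro R
  induction R with
  | zero =>
    intro w B U0 _ _ _
    simp
  | succ R ih =>
    intro w B U0 hw hB hU
    rw [sum_cons]
    have hUV : U0.card ≤ V := le_trans (Nat.le_add_right _ _) hU
    have hBn : ∀ i < R + 1, 0 ≤ B i := fun i hi =>
      (sum_nonneg fun n _ => hw i n U0).trans (hB i hi U0 hUV)
    rw [prod_range_succ']
    have h1 : ∀ n ∈ G, ∑ z ∈ Fintype.piFinset (fun _ : Fin R => G), ∏ i : Fin (R + 1),
        w i ((Fin.cons n z : Fin (R + 1) → ℕ) i) (Ux P U0 (Fin.cons n z : Fin (R + 1) → ℕ) i) ≤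
        (∏ i ∈ range R, B (i + 1)) * w 0 n U0 := by
      intro n hn
      have h2 : ∀ z : Fin R → ℕ, ∏ i : Fin (R + 1),
          w i ((Fin.cons n z : Fin (R + 1) → ℕ) i) (Ux P U0 (Fin.cons n z : Fin (R + 1) → ℕ) i) =
          w 0 n U0 * ∏ i : Fin R, w (i + 1) (z i) (Ux P (U0 ∪ P n) z i) := by
        intro z
        rw [Fin.prod_univ_succ, Ux_zero, Fin.cons_zero]
        congr 1
        refine prod_congr rfl fun i _ => ?_
        rw [Ux_succ, Fin.cons_succ]
        rfl
      simp_rw [h2]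
      rw [← mul_sum, mul_comm]
      refine mul_le_mul_of_nonneg_right ?_ (hw 0 n U0)
      refine ih (fun i => w (i + 1)) (fun i => B (i + 1)) (U0 ∪ P n) (fun i n U => hw _ _ _)
        (fun i hi U hU' => hB (i + 1) (by omega) U hU') ?_
      have h3 := card_union_le U0 (P n)
      have h4 := hP n hn
      nlinarith
    refine (sum_le_sum h1).trans ?_
    rw [← mul_sum]
    refine mul_le_mul_of_nonneg_left (hB 0 (by omega) U0 hUV) ?_
    exact prod_nonneg fun i hi => hBn _ (by have := mem_range.1 hi; omega)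

end Pool.Agent.Q163.PW
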