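import Pool.Agent.Q163.PW.Mom

/-! The number of relations between windows. -/

set_option autoImplicit false

namespace Pool.Agent.Q163.PW

open Finset Pool.Agent.Q163.HC

open Classical in
/-- the number of windows sharing much with the previous ones -/
noncomputable def ns (y k θ : ℕ) {R : ℕ} (z : Fin R → ℕ) : ℕ :=
  (univ.filter fun i => sig y k θ (z i) (Ux (bw y k) ∅ z i)).card

/-- the weight of a tuple -/
noncomputable def wt (y k : ℕ) {R : ℕ} (z : Fin R → ℕ) : ℕ :=
  ∏ i, 2 ^ (Sn y k (z i) (Ux (bw y k) ∅ z i)).card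

lemma rel_rev {R : ℕ} (z : Fin R → ℕ) (J : Fin R → Finset ℕ) (h : rel z J) :
    rel (fun i => z (Fin.rev i)) fun i => J (Fin.rev i) := by
  intro p
  rw [← h p]
  exact Equiv.sum_comp (Fin.revPerm (n := R)) fun i => ∑ j ∈ J i, vv (z i + j) p

open Classical in
lemma ns_rev (y k θ : ℕ) {R : ℕ} (z : Fin R → ℕ) :
    ns y k θ (fun i => z (Fin.rev i)) = (univ.filter fun i => sig y k θ (z i)
      ((univ.filter fun i' => i < i').biUnion fun i' => bw y k (z i'))).card := by
  unfold ns
  refine card_bij (fun i _ => Fin.rev i) ?_ ?_ ?_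
  · intro i hi
    rw [mem_filter] at hi ⊢
    refine ⟨mem_univ _, ?_⟩
    have h1 : Ux (bw y k) ∅ (fun i => z (Fin.rev i)) i =
        (univ.filter fun i' => Fin.rev i < i').biUnion fun i' => bw y k (z i') := by
      unfold Ux
      rw [empty_union]
      ext p
      simp only [mem_biUnion, mem_filter, mem_univ, true_and]
      constructor
      · rintro ⟨i', hi', hp⟩
        exact ⟨Fin.rev i', Fin.rev_lt_rev.2 hi', hp⟩
      · rintro ⟨i', hi', hp⟩
        refine ⟨Fin.rev i', ?_, by rwa [Fin.rev_rev]⟩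
        rw [← Fin.rev_lt_rev, Fin.rev_rev]
        exact hi'
    rw [h1] at hi
    exact hi.2
  · intro a _ b _ h
    exact Fin.rev_injective h
  · intro i hi
    rw [mem_filter] at hi
    refine ⟨Fin.rev i, ?_, Fin.rev_rev i⟩
    rw [mem_filter]
    refine ⟨mem_univ _, ?_⟩
    have h1 : Ux (bw y k) ∅ (fun i => z (Fin.rev i)) (Fin.rev i) =
        (univ.filter fun i' => i < i').biUnion fun i' => bw y k (z i') := by
      unfold Ux
      rw [empty_union]
      ext p
      simp only [mem_biUnion, mem_filter, mem_univ, true_and]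
      constructor
      · rintro ⟨i', hi', hp⟩
        refine ⟨Fin.rev i', ?_, hp⟩
        rw [← Fin.rev_lt_rev, Fin.rev_rev]
        exact hi'
      · rintro ⟨i', hi', hp⟩
        refine ⟨Fin.rev i', Fin.rev_lt_rev.2 hi', by rwa [Fin.rev_rev]⟩
    rw [h1]
    simp only [Fin.rev_rev]
    exact hi.2

open Classical in
/-- the number of relations without empty members between given windows -/
theorem card_full {R : ℕ} (y k θ : ℕ) (hk : k ≤ y) (z : Fin R → ℕ) (hz : ∀ i, z i ≠ 0)
    (ht : ∀ i, ∀ j < k, θ ^ 2 ≤ ∏ p ∈ og y (z i + j), p)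
    (hg : ∀ i, ∀ j < k, (og y (z i + j)).Nonempty) :
    ((Fintype.piFinset fun _ : Fin R => (range k).powerset.erase ∅).filter (rel z)).card ≤
      (if R ≤ 2 * ns y k θ z then wt y k z else 0) +
        if R ≤ 2 * ns y k θ (fun i => z (Fin.rev i)) then wt y k (fun i => z (Fin.rev i)) else 0 := by
  set F := (Fintype.piFinset fun _ : Fin R => (range k).powerset.erase ∅).filter (rel z) with hF
  have hF1 : ∀ J ∈ F, (∀ i, J i ⊆ range k) ∧ rel z J := by
    intro J hJ
    rw [hF, mem_filter, Fintype.mem_piFinset] at hJ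
    exact ⟨fun i => mem_powerset.1 (mem_erase.1 (hJ.1 i)).2, hJ.2⟩
  rcases F.eq_empty_or_nonempty with h | ⟨J, hJ⟩
  · rw [h, card_empty]
    exact Nat.zero_le _
  have hJ1 := hF1 J hJ
  have hJn : ∀ i, (J i).Nonempty := by
    intro i
    rw [hF, mem_filter, Fintype.mem_piFinset] at hJ
    exact nonempty_iff_ne_empty.2 (mem_erase.1 (hJ.1 i)).1
  have h1 : R ≤ ns y k θ z + ns y k θ (fun i => z (Fin.rev i)) := by
    rw [ns_rev]
    unfold ns
    have h2 : (univ : Finset (Fin R)) ⊆ (univ.filter fun i => sig y k θ (z i) (Ux (bw y k) ∅ z i)) ∪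
        (univ.filter fun i => sig y k θ (z i)
          ((univ.filter fun i' => i < i').biUnion fun i' => bw y k (z i'))) := by
      intro i _
      rw [mem_union, mem_filter, mem_filter]
      rcases sig_or y k θ hk z hz ht J hJ1.1 hJ1.2 i (hJn i) with h | h
      · exact Or.inl ⟨mem_univ _, h⟩
      · exact Or.inr ⟨mem_univ _, h⟩
    have h3 := (card_le_card h2).trans (card_union_le _ _)
    rwa [card_univ, Fintype.card_fin] at h3
  rcases le_or_gt R (2 * ns y k θ z) with h2 | h2
  · rw [if_pos h2]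
    exact (card_rel y k hk z hz hg F hF1).trans (Nat.le_add_right _ _)
  · rw [if_pos (show R ≤ 2 * ns y k θ (fun i => z (Fin.rev i)) by omega)]
    refine le_trans ?_ (Nat.le_add_left _ _)
    have h3 : F.card = (F.image fun J i => J (Fin.rev i)).card := by
      rw [card_image_of_injective]
      intro J J' h
      funext i
      have := congrFun h (Fin.rev i)
      simpa using this
    rw [h3]
    refine card_rel y k hk _ (fun i => hz _) (fun i => hg _) _ fun J' hJ' => ?_
    obtain ⟨J, hJ, rfl⟩ := mem_image.1 hJ'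
    exact ⟨fun i => (hF1 J hJ).1 _, rel_rev z J (hF1 J hJ).2⟩

lemma sum_rev (G : Finset ℕ) (R : ℕ) (f : (Fin R → ℕ) → ℝ) :
    ∑ z ∈ Fintype.piFinset (fun _ : Fin R => G), f (fun i => z (Fin.rev i)) =
      ∑ z ∈ Fintype.piFinset (fun _ : Fin R => G), f z := by
  refine sum_nbij' (fun z i => z (Fin.rev i)) (fun z i => z (Fin.rev i)) ?_ ?_ ?_ ?_ ?_
  · intro z hz
    rw [Fintype.mem_piFinset] at hz ⊢
    exact fun i => hz _
  · intro z hz
    rw [Fintype.mem_piFinset] at hz ⊢
    exact fun i => hz _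
  · intro z _
    funext i
    simp
  · intro z _
    funext i
    simp
  · intro z _
    rfl

open Classical in
/-- the number of relations without empty members -/
theorem rel_count (y k θ m v V : ℕ) (hk : k ≤ y) (G : Finset ℕ) (hG : ∀ n ∈ G, n ≠ 0)
    (ht : ∀ n ∈ G, ∀ j < k, θ ^ 2 ≤ ∏ p ∈ og y (n + j), p)
    (hg : ∀ n ∈ G, ∀ j < k, (og y (n + j)).Nonempty) (hv : ∀ n ∈ G, (bw y k n).card ≤ v)
    (hV : 2 * m * v ≤ V) (B0 B1 : ℝ) (hB1 : 0 < B1) (hB : B1 ≤ B0)
    (h0 : ∀ U : Finset ℕ, U.card ≤ V → ∑ n ∈ G, (2 : ℝ) ^ (Sn y k n U).card ≤ B0)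
    (h1 : ∀ U : Finset ℕ, U.card ≤ V →
      ∑ n ∈ G.filter (fun n => sig y k θ n U), (2 : ℝ) ^ (Sn y k n U).card ≤ B1) :
    (((Fintype.piFinset fun _ : Fin (2 * m) => G ×ˢ ((range k).powerset.erase ∅)).filter
        fun p => rel (fun i => (p i).1) fun i => (p i).2).card : ℝ) ≤ 2 * (4 * B0 * B1) ^ m := by
  set R := 2 * m with hR
  have hB0 : 0 < B0 := hB1.trans_le hB
  set E := (Fintype.piFinset fun _ : Fin R => G ×ˢ ((range k).powerset.erase ∅)).filter
        (fun p => rel (fun i => (p i).1) fun i => (p i).2) with hE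
  set Z := Fintype.piFinset (fun _ : Fin R => G) with hZ
  have hEc : ∀ p ∈ E, (∀ i, (p i).1 ∈ G ∧ (p i).2 ∈ (range k).powerset.erase ∅) ∧
      rel (fun i => (p i).1) fun i => (p i).2 := by
    intro p hp
    rw [hE, mem_filter, Fintype.mem_piFinset] at hp
    exact ⟨fun i => mem_product.1 (hp.1 i), hp.2⟩
  have s1 : E.card ≤ ∑ z ∈ Z,
      ((Fintype.piFinset fun _ : Fin R => (range k).powerset.erase ∅).filter (rel z)).card := by
    have hmap : ∀ p ∈ E, (fun i => (p i).1) ∈ Z := by
      intro p hp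
      rw [hZ, Fintype.mem_piFinset]
      exact fun i => ((hEc p hp).1 i).1
    rw [card_eq_sum_card_fiberwise hmap]
    refine sum_le_sum fun z _ => ?_
    refine card_le_card_of_injOn (fun p i => (p i).2) ?_ ?_
    · intro p hp
      rw [mem_coe, mem_filter] at hp
      rw [mem_coe, mem_filter, Fintype.mem_piFinset]
      refine ⟨fun i => ((hEc p hp.1).1 i).2, ?_⟩
      rw [← hp.2]
      exact (hEc p hp.1).2
    · intro p hp p' hp' he
      rw [mem_coe, mem_filter] at hp hp'
      funext i
      have e1 := congrFun hp.2 i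
      have e2 := congrFun hp'.2 i
      have e3 := congrFun he i
      simp only at e1 e2 e3
      exact Prod.ext (e1.trans e2.symm) e3
  have s2 : (E.card : ℝ) ≤ ∑ z ∈ Z, ((if R ≤ 2 * ns y k θ z then (wt y k z : ℝ) else 0) +
      if R ≤ 2 * ns y k θ (fun i => z (Fin.rev i)) then
        (wt y k (fun i => z (Fin.rev i)) : ℝ) else 0) := by
    have e1 : (E.card : ℝ) ≤ ∑ z ∈ Z,
      ((((Fintype.piFinset fun _ : Fin R => (range k).powerset.erase ∅).filter (rel z)).card : ℕ) : ℝ) := by
      exact_mod_cast s1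
    refine e1.trans (sum_le_sum fun z hz => ?_)
    rw [hZ, Fintype.mem_piFinset] at hz
    have e2 := card_full y k θ hk z (fun i => hG _ (hz i)) (fun i => ht _ (hz i))
      (fun i => hg _ (hz i))
    have e3 : ((((Fintype.piFinset fun _ : Fin R => (range k).powerset.erase ∅).filter
        (rel z)).card : ℕ) : ℝ) ≤ ((if R ≤ 2 * ns y k θ z then wt y k z else 0) +
        if R ≤ 2 * ns y k θ (fun i => z (Fin.rev i)) then wt y k (fun i => z (Fin.rev i)) else 0 : ℕ) := by
      exact_mod_cast e2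
    refine e3.trans (le_of_eq ?_)
    push_cast
    rfl
  have s3 := sum_rev G R (fun z => if R ≤ 2 * ns y k θ z then (wt y k z : ℝ) else 0)
  rw [sum_add_distrib] at s2
  rw [← hZ] at s3
  rw [s3, ← two_mul] at s2
  set lam := B0 / B1 with hlam
  have hlam1 : 1 ≤ lam := by
    rw [hlam, le_div_iff₀ hB1, one_mul]
    exact hB
  have hlam0 : 0 < lam := by linarith
  set w : ℕ → ℕ → Finset ℕ → ℝ := fun _ n U =>
    (2 : ℝ) ^ (Sn y k n U).card * (if sig y k θ n U then lam else 1) with hw
  have s4 : ∀ z ∈ Z, (if R ≤ 2 * ns y k θ z then (wt y k z : ℝ) else 0) ≤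
      (∏ i : Fin R, w i (z i) (Ux (bw y k) ∅ z i)) / lam ^ m := by
    intro z _
    have e1 : ∏ i : Fin R, w i (z i) (Ux (bw y k) ∅ z i) = wt y k z * lam ^ ns y k θ z := by
      rw [hw]
      simp only
      rw [prod_mul_distrib, prod_ite, prod_const, prod_const_one, mul_one]
      unfold wt ns
      push_cast
      rfl
    rw [e1]
    split_ifs with h
    · rw [le_div_iff₀ (by positivity)]
      refine mul_le_mul_of_nonneg_left (pow_le_pow_right₀ hlam1 (by omega)) (Nat.cast_nonneg _)
    · positivity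
  have s5 := seq_sum G (bw y k) v V hv R w (fun _ => B0 + lam * B1) ∅ (by
      intro i n U
      rw [hw]
      simp only
      split_ifs <;> positivity) (by
      intro i _ U hU
      rw [hw]
      simp only
      have e1 : ∀ n ∈ G, (2 : ℝ) ^ (Sn y k n U).card * (if sig y k θ n U then lam else 1) ≤
          (2 : ℝ) ^ (Sn y k n U).card +
            lam * (if sig y k θ n U then (2 : ℝ) ^ (Sn y k n U).card else 0) := by
        intro n _
        have : (0 : ℝ) < (2 : ℝ) ^ (Sn y k n U).card := by positivity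
        split_ifs
        · linarith
        · linarith
      refine (sum_le_sum e1).trans ?_
      rw [sum_add_distrib, ← mul_sum, ← sum_filter]
      exact add_le_add (h0 U hU) (mul_le_mul_of_nonneg_left (h1 U hU) hlam0.le)) (by
      rw [card_empty, zero_add, hR]
      exact hV)
  rw [prod_const, card_range] at s5
  have s6 : ∑ z ∈ Z, (if R ≤ 2 * ns y k θ z then (wt y k z : ℝ) else 0) ≤
      (B0 + lam * B1) ^ R / lam ^ m := by
    refine (sum_le_sum s4).trans ?_
    rw [← sum_div]
    exact div_le_div_of_nonneg_right s5 (by positivity)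
  refine s2.trans ((mul_le_mul_of_nonneg_left s6 (by norm_num)).trans (le_of_eq ?_))
  have e1 : lam * B1 = B0 := by
    rw [hlam]
    field_simp
  rw [e1, hR, pow_mul, ← div_pow]
  congr 2
  rw [hlam]
  field_simp
  ring

end Pool.Agent.Q163.PW
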