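import Pool.Agent.Q163.PW.Pair

/-! The number of balanced relations. -/

set_option autoImplicit false

namespace Pool.Agent.Q163.PW

open Finset Pool.Agent.Q163.HC

lemma exists_perm {n : ℕ} (a b : Fin (n + 2)) (h : a ≠ b) :
    ∃ σ : Equiv.Perm (Fin (n + 2)), σ 0 = a ∧ σ 1 = b := by
  have h01 : (0 : Fin (n + 2)) ≠ 1 := by simp
  set c := Equiv.swap 0 a b with hc
  have hc0 : c ≠ 0 := by
    intro h0
    apply h
    have : Equiv.swap 0 a c = b := by rw [hc, Equiv.swap_apply_self]
    rw [h0, Equiv.swap_apply_left] at this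
    exact this
  refine ⟨(Equiv.swap 1 c).trans (Equiv.swap 0 a), ?_, ?_⟩
  · rw [Equiv.trans_apply, Equiv.swap_apply_of_ne_of_ne h01 (Ne.symm hc0), Equiv.swap_apply_left]
  · rw [Equiv.trans_apply, Equiv.swap_apply_left, hc, Equiv.swap_apply_self]

lemma exists_perm_last {n : ℕ} (a : Fin (n + 2)) :
    ∃ σ : Equiv.Perm (Fin (n + 2)), σ (Fin.last (n + 1)) = a :=
  ⟨Equiv.swap (Fin.last (n + 1)) a, Equiv.swap_apply_left _ _⟩

lemma rel_perm {ι : Type*} [Fintype ι] (σ : Equiv.Perm ι) (z : ι → ℕ) (J : ι → Finset ℕ)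
    (h : rel z J) : rel (fun i => z (σ i)) fun i => J (σ i) := by
  intro p
  rw [← h p]
  exact Equiv.sum_comp σ fun i => ∑ j ∈ J i, vv (z i + j) p

lemma bal_perm {ι : Type*} [Fintype ι] (σ : Equiv.Perm ι) (grp : ι → Bool) (J : ι → Finset ℕ)
    (h : bal grp J) : bal (fun i => grp (σ i)) fun i => J (σ i) := by
  intro γ j
  refine Eq.trans ?_ (h γ j)
  exact Equiv.sum_comp σ fun i => (if grp i = γ ∧ j ∈ J i then (1 : ZMod 2) else 0)

lemma sum_perm {ι : Type*} [Fintype ι] [DecidableEq ι] (σ : Equiv.Perm ι) (G : Finset ℕ)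
    (f : (ι → ℕ) → ℝ) :
    ∑ z ∈ Fintype.piFinset (fun _ : ι => G), f (fun i => z (σ i)) =
      ∑ z ∈ Fintype.piFinset (fun _ : ι => G), f z := by
  refine sum_nbij' (fun z i => z (σ i)) (fun z i => z (σ.symm i)) ?_ ?_ ?_ ?_ ?_
  · intro z hz
    rw [Fintype.mem_piFinset] at hz ⊢
    exact fun i => hz _
  · intro z hz
    rw [Fintype.mem_piFinset] at hz ⊢
    exact fun i => hz _
  · intro z _
    funext i
    simp
  · intro z _
    funext i
    simp
  · intro z _
    rfl

open Classical in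
/-- the balanced relations with a nonempty member -/
noncomputable def BF {ι : Type*} [Fintype ι] (k : ℕ) (grp : ι → Bool) (z : ι → ℕ) :
    Finset (ι → Finset ℕ) :=
  (Fintype.piFinset fun _ : ι => (range k).powerset).filter fun K =>
    rel z K ∧ bal grp K ∧ ∃ i, (K i).Nonempty

lemma mem_BF {ι : Type*} [Fintype ι] {k : ℕ} {grp : ι → Bool} {z : ι → ℕ} {K : ι → Finset ℕ} :
    K ∈ BF k grp z ↔ (∀ i, K i ⊆ range k) ∧ rel z K ∧ bal grp K ∧ ∃ i, (K i).Nonempty := by
  unfold BF
  simp only [mem_filter, Fintype.mem_piFinset, mem_powerset]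

/-- weight of a tuple whose first two windows are linked -/
noncomputable def wl (y k L : ℕ) (i n : ℕ) (U : Finset ℕ) : ℝ :=
  if i = 0 then 1 else if i = 1 then (if L ≤ (bw y k n ∩ U).card then 1 else 0)
    else (2 : ℝ) ^ (Sn y k n U).card

open Classical in
/-- weight of a tuple whose last window shares much with the others -/
noncomputable def ws (y k θ e : ℕ) (i n : ℕ) (U : Finset ℕ) : ℝ :=
  if i = e then (if sig y k θ n U then 1 else 0) else 1

open Classical in
theorem card_BF {n : ℕ} (y k θ H c L : ℕ) (hk : k ≤ y) (z : Fin (n + 2) → ℕ) (hz : ∀ i, z i ≠ 0)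
    (hg : ∀ i, ∀ j < k, (og y (z i + j)).Nonempty)
    (ht : ∀ i, ∀ j < k, θ ^ 2 ≤ ∏ p ∈ og y (z i + j), p)
    (hθ : H < (θ ^ 2) ^ (c + 1)) (hd : ∀ i i', z i ≤ z i' + H) (grp : Fin (n + 2) → Bool)
    (hne : ∀ i i', i ≠ i' → grp i = grp i' → z i ≠ z i')
    (σ : Fin (n + 2) → Fin (n + 2) → Equiv.Perm (Fin (n + 2)))
    (hσ : ∀ a b, a ≠ b → σ a b 0 = a ∧ σ a b 1 = b)
    (τ : Fin (n + 2) → Equiv.Perm (Fin (n + 2))) (hτ : ∀ a, τ a (Fin.last (n + 1)) = a) :
    ((BF k grp z).card : ℝ) ≤
      ∑ a, ∑ b, 2 ^ (k / 2 + c) * (∏ i : Fin (n + 2), wl y k L i ((fun i => z (σ a b i)) i)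
          (Ux (bw y k) ∅ (fun i => z (σ a b i)) i)) +
      ∑ a, 2 ^ ((n + 2) * ((n + 2) * L)) * ∏ i : Fin (n + 2), ws y k θ (n + 1) i ((fun i => z (τ a i)) i)
          (Ux (bw y k) ∅ (fun i => z (τ a i)) i) := by
  have hwl : ∀ i n U, 0 ≤ wl y k L i n U := by
    intro i n U
    unfold wl
    split_ifs <;> positivity
  have hws : ∀ i n U, 0 ≤ ws y k θ (n + 1) i n U := by
    intro i n U
    unfold ws
    split_ifs <;> positivity
  have hws' : ∀ e i n U, 0 ≤ ws y k θ e i n U := by
    intro e i n U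
    unfold ws
    split_ifs <;> positivity
  have hFm : ∀ K ∈ BF k grp z, (∀ i, K i ⊆ range k) ∧ rel z K ∧ bal grp K := by
    intro K hK
    rw [mem_BF] at hK
    exact ⟨hK.1, hK.2.1, hK.2.2.1⟩
  have hn1 : 0 ≤ ∑ a, ∑ b, 2 ^ (k / 2 + c) * (∏ i : Fin (n + 2), wl y k L i
      ((fun i => z (σ a b i)) i) (Ux (bw y k) ∅ (fun i => z (σ a b i)) i)) :=
    sum_nonneg fun a _ => sum_nonneg fun b _ => mul_nonneg (by positivity)
      (prod_nonneg fun i _ => hwl _ _ _)
  have hn2 : 0 ≤ ∑ a, (2 : ℝ) ^ ((n + 2) * ((n + 2) * L)) * ∏ i : Fin (n + 2),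
      ws y k θ (n + 1) i ((fun i => z (τ a i)) i) (Ux (bw y k) ∅ (fun i => z (τ a i)) i) :=
    sum_nonneg fun a _ => mul_nonneg (by positivity) (prod_nonneg fun i _ => hws' _ _ _ _)
  by_cases hlink : ∃ a b, a ≠ b ∧ L ≤ (bw y k (z b) ∩ bw y k (z a)).card
  · obtain ⟨a, b, hab, hL⟩ := hlink
    obtain ⟨ha, hb⟩ := hσ a b hab
    set s := σ a b with hs
    have h1 : (BF k grp z).card = ((BF k grp z).image fun K i => K (s i)).card := by
      rw [card_image_of_injective]
      intro K K' h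
      funext i
      have := congrFun h (s.symm i)
      simpa using this
    have h2 := card_pair y k θ H c hk (fun i => z (s i)) (fun i => hz _) (fun i => hg _)
      (fun i => ht _) hθ (fun i i' => hd _ _) (fun i => grp (s i))
      (fun h => hne _ _ (by rw [ha, hb]; exact hab) h)
      ((BF k grp z).image fun K i => K (s i)) (fun K' hK' => by
        obtain ⟨K, hK, rfl⟩ := mem_image.1 hK'
        have h3 := hFm K hK
        exact ⟨fun i => h3.1 _, rel_perm s z K h3.2.1, bal_perm s grp K h3.2.2⟩)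
    rw [← h1] at h2
    have h3 : ((∏ i : Fin (n + 2), if (i : ℕ) < 2 then 1 else
        2 ^ (Sn y k (z (s i)) (Ux (bw y k) ∅ (fun i => z (s i)) i)).card : ℕ) : ℝ) =
        ∏ i : Fin (n + 2), wl y k L i ((fun i => z (s i)) i) (Ux (bw y k) ∅ (fun i => z (s i)) i) := by
      push_cast
      refine prod_congr rfl fun i _ => ?_
      unfold wl
      by_cases e0 : (i : ℕ) = 0
      · rw [if_pos (by omega), if_pos e0]
      by_cases e1 : (i : ℕ) = 1
      · have hi : i = 1 := Fin.ext (by simpa using e1)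
        have hLi : L ≤ (bw y k (z (s i)) ∩ Ux (bw y k) ∅ (fun i => z (s i)) i).card := by
          subst hi
          have : Ux (bw y k) ∅ (fun i => z (s i)) 1 = bw y k (z (s 0)) := by
            unfold Ux
            rw [empty_union]
            have h5 : (univ.filter fun i' : Fin (n + 2) => i' < 1) = {0} := by
              ext i'
              rw [mem_filter, mem_singleton]
              constructor
              · rintro ⟨_, h⟩
                refine Fin.ext ?_
                have := Fin.lt_def.1 h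
                simp at this
                simpa using this
              · rintro rfl
                exact ⟨mem_univ _, by rw [Fin.lt_def]; simp⟩
            rw [h5, singleton_biUnion]
          rw [this, ha, hb]
          exact hL
        rw [if_pos (by omega), if_neg e0, if_pos e1, if_pos hLi]
      · rw [if_neg (by omega), if_neg e0, if_neg e1]
    have h4 : ((BF k grp z).card : ℝ) ≤ 2 ^ (k / 2 + c) * (∏ i : Fin (n + 2), wl y k L i
        ((fun i => z (s i)) i) (Ux (bw y k) ∅ (fun i => z (s i)) i)) := by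
      rw [← h3]
      exact_mod_cast h2
    refine h4.trans (le_trans ?_ (le_add_of_nonneg_right hn2))
    have h5 := single_le_sum (f := fun b => 2 ^ (k / 2 + c) * (∏ i : Fin (n + 2), wl y k L i
      ((fun i => z (σ a b i)) i) (Ux (bw y k) ∅ (fun i => z (σ a b i)) i)))
      (fun b _ => mul_nonneg (by positivity) (prod_nonneg fun i _ => hwl _ _ _)) (mem_univ b)
    refine h5.trans ?_
    exact single_le_sum (f := fun a => ∑ b, 2 ^ (k / 2 + c) * (∏ i : Fin (n + 2), wl y k L i
      ((fun i => z (σ a b i)) i) (Ux (bw y k) ∅ (fun i => z (σ a b i)) i)))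
      (fun a _ => sum_nonneg fun b _ => mul_nonneg (by positivity) (prod_nonneg fun i _ => hwl _ _ _))
      (mem_univ a)
  · push Not at hlink
    rcases (BF k grp z).eq_empty_or_nonempty with h0 | ⟨K, hK⟩
    · rw [h0, card_empty, Nat.cast_zero]
      exact add_nonneg hn1 hn2
    have hK1 := hFm K hK
    obtain ⟨i0, hi0⟩ : ∃ i, (K i).Nonempty := (mem_BF.1 hK).2.2.2
    obtain ⟨j, hj⟩ := hi0
    have hjk := mem_range.1 (hK1.1 i0 hj)
    set s := τ i0 with hs
    have hs0 := hτ i0
    have hsig : sig y k θ (z (s (Fin.last (n + 1)))) (Ux (bw y k) ∅ (fun i => z (s i)) (Fin.last (n + 1))) := by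
      refine ⟨j, hjk, ?_⟩
      rw [hs0]
      have h1 : (og y (z i0 + j)).filter
          (fun p => p ∈ Ux (bw y k) ∅ (fun i => z (s i)) (Fin.last (n + 1))) = og y (z i0 + j) := by
        rw [filter_eq_self]
        intro p hp
        obtain ⟨i', hi', _, hp'⟩ := private_prime y k hk z hz K hK1.1 hK1.2.1 i0 j p hj hp
        unfold Ux
        rw [empty_union, mem_biUnion]
        refine ⟨s.symm i', mem_filter.2 ⟨mem_univ _, ?_⟩, ?_⟩
        · rw [Fin.lt_last_iff_ne_last]
          intro h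
          apply hi'
          have : s (s.symm i') = s (Fin.last (n + 1)) := by rw [h]
          rw [Equiv.apply_symm_apply, hs0] at this
          exact this
        · show p ∈ bw y k (z (s (s.symm i')))
          rw [Equiv.apply_symm_apply]
          exact hp'
      unfold Tp
      rw [h1]
      refine le_trans ?_ (ht i0 j hjk)
      exact Nat.le_self_pow (by norm_num) θ
    have hcount := card_rel y k hk z hz hg (BF k grp z) fun J hJ => ⟨(hFm J hJ).1, (hFm J hJ).2.1⟩
    have hSn : ∀ i, (Sn y k (z i) (Ux (bw y k) ∅ z i)).card ≤ (n + 2) * L := by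
      intro i
      refine (card_Sn y k (z i) hk _).trans ?_
      have h2 : bw y k (z i) ∩ Ux (bw y k) ∅ z i ⊆
          (univ.filter fun i' => i' < i).biUnion fun i' => bw y k (z i) ∩ bw y k (z i') := by
        intro p hp
        rw [mem_inter] at hp
        unfold Ux at hp
        rw [empty_union, mem_biUnion] at hp
        obtain ⟨h3, i', hi', hp'⟩ := hp
        rw [mem_biUnion]
        exact ⟨i', hi', mem_inter.2 ⟨h3, hp'⟩⟩
      refine (card_le_card h2).trans (card_biUnion_le.trans ?_)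
      have h3 : ∀ i' ∈ univ.filter (fun i' => i' < i), (bw y k (z i) ∩ bw y k (z i')).card ≤ L := by
        intro i' hi'
        have h4 := (mem_filter.1 hi').2
        exact (hlink i' i (ne_of_lt h4)).le
      refine (sum_le_card_nsmul _ _ _ h3).trans ?_
      rw [smul_eq_mul]
      refine Nat.mul_le_mul_right _ ((card_filter_le _ _).trans ?_)
      rw [card_univ, Fintype.card_fin]
    have hc2 : (BF k grp z).card ≤ 2 ^ ((n + 2) * ((n + 2) * L)) := by
      refine hcount.trans ?_
      refine (prod_le_prod' fun i _ => Nat.pow_le_pow_right (by norm_num) (hSn i)).trans ?_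
      rw [prod_const, card_univ, Fintype.card_fin, ← pow_mul, mul_comm ((n + 2) * L)]
    have hone : ∏ i : Fin (n + 2), ws y k θ (n + 1) i ((fun i => z (s i)) i)
        (Ux (bw y k) ∅ (fun i => z (s i)) i) = 1 := by
      refine prod_eq_one fun i _ => ?_
      unfold ws
      split_ifs with e1 e2
      · rfl
      · exfalso
        have : i = Fin.last (n + 1) := Fin.ext (by simpa using e1)
        subst this
        exact e2 hsig
      · rfl
    refine le_trans ?_ (le_add_of_nonneg_left hn1)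
    have h5 := single_le_sum (f := fun a => (2 : ℝ) ^ ((n + 2) * ((n + 2) * L)) *
      ∏ i : Fin (n + 2), ws y k θ (n + 1) i ((fun i => z (τ a i)) i)
        (Ux (bw y k) ∅ (fun i => z (τ a i)) i))
      (fun a _ => mul_nonneg (by positivity) (prod_nonneg fun i _ => hws' _ _ _ _)) (mem_univ i0)
    refine le_trans ?_ h5
    simp only
    rw [← hs, hone, mul_one]
    exact_mod_cast hc2

open Classical in
/-- the number of balanced relations between windows which are distinct within the groups -/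
theorem bal_count {n : ℕ} (y k θ H c L v V : ℕ) (hk : k ≤ y) (G : Finset ℕ) (hG : ∀ n ∈ G, n ≠ 0)
    (ht : ∀ n ∈ G, ∀ j < k, θ ^ 2 ≤ ∏ p ∈ og y (n + j), p)
    (hg : ∀ n ∈ G, ∀ j < k, (og y (n + j)).Nonempty) (hv : ∀ n ∈ G, (bw y k n).card ≤ v)
    (hV : (n + 2) * v ≤ V) (hθ : H < (θ ^ 2) ^ (c + 1)) (hd : ∀ u ∈ G, ∀ w ∈ G, u ≤ w + H)
    (B2 lk sc : ℝ)
    (h2 : ∀ U : Finset ℕ, U.card ≤ V → ∑ n ∈ G, (2 : ℝ) ^ (Sn y k n U).card ≤ B2)
    (hlk : ∀ U : Finset ℕ, U.card ≤ V → ((G.filter fun n => L ≤ (bw y k n ∩ U).card).card : ℝ) ≤ lk)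
    (hsc : ∀ U : Finset ℕ, U.card ≤ V → ((G.filter fun n => sig y k θ n U).card : ℝ) ≤ sc)
    (grp : Fin (n + 2) → Bool) :
    ∑ z ∈ (Fintype.piFinset fun _ : Fin (n + 2) => G).filter
        (fun z => ∀ i i', i ≠ i' → grp i = grp i' → z i ≠ z i'), ((BF k grp z).card : ℝ) ≤
      (n + 2) ^ 2 * (2 ^ (k / 2 + c) * (B2 ^ n * lk * G.card)) +
        (n + 2) * (2 ^ ((n + 2) * ((n + 2) * L)) * (G.card ^ (n + 1) * sc)) := by
  have hex : ∀ a b : Fin (n + 2), ∃ σ : Equiv.Perm (Fin (n + 2)), a ≠ b → σ 0 = a ∧ σ 1 = b := by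
    intro a b
    by_cases h : a = b
    · exact ⟨1, fun h' => absurd h h'⟩
    · obtain ⟨σ, h1⟩ := exists_perm a b h
      exact ⟨σ, fun _ => h1⟩
  choose σ hσ using hex
  choose τ hτ using fun a : Fin (n + 2) => exists_perm_last a
  have hwl : ∀ i n U, 0 ≤ wl y k L i n U := by
    intro i n U
    unfold wl
    split_ifs <;> positivity
  have hws : ∀ i n U, 0 ≤ ws y k θ (n + 1) i n U := by
    intro i n U
    unfold ws
    split_ifs <;> positivity
  have hws' : ∀ e i n U, 0 ≤ ws y k θ e i n U := by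
    intro e i n U
    unfold ws
    split_ifs <;> positivity
  set Z := Fintype.piFinset fun _ : Fin (n + 2) => G with hZ
  set f1 : (Fin (n + 2) → ℕ) → ℝ := fun z => ∏ i : Fin (n + 2), wl y k L i (z i)
    (Ux (bw y k) ∅ z i) with hf1
  set f2 : (Fin (n + 2) → ℕ) → ℝ := fun z => ∏ i : Fin (n + 2), ws y k θ (n + 1) i (z i)
    (Ux (bw y k) ∅ z i) with hf2
  have hf1n : ∀ z, 0 ≤ f1 z := fun z => prod_nonneg fun i _ => hwl _ _ _
  have hf2n : ∀ z, 0 ≤ f2 z := fun z => prod_nonneg fun i _ => hws' _ _ _ _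
  have hVv : (∅ : Finset ℕ).card + (n + 2) * v ≤ V := by
    rw [card_empty, zero_add]
    exact hV
  have hcard0 : ∀ U : Finset ℕ, U.card ≤ V → ∑ _n ∈ G, (1 : ℝ) ≤ G.card := by
    intro U _
    rw [sum_const, nsmul_one]
  have s1 : ∑ z ∈ Z, f1 z ≤ B2 ^ n * lk * G.card := by
    have h := seq_sum G (bw y k) v V hv (n + 2) (wl y k L)
      (fun i => if i = 0 then (G.card : ℝ) else if i = 1 then lk else B2) ∅ hwl (by
        intro i _ U hU
        unfold wl
        by_cases e0 : i = 0
        · simp only [e0, if_true]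
          exact hcard0 U hU
        by_cases e1 : i = 1
        · simp only [e1, if_true]
          rw [if_neg (by norm_num)]
          simp only [Nat.one_ne_zero, if_false]
          rw [sum_boole]
          exact hlk U hU
        · simp only [e0, e1, if_false]
          exact h2 U hU) hVv
    refine h.trans (le_of_eq ?_)
    rw [prod_range_succ', prod_range_succ']
    simp
  have s2 : ∑ z ∈ Z, f2 z ≤ G.card ^ (n + 1) * sc := by
    have h := seq_sum G (bw y k) v V hv (n + 2) (ws y k θ (n + 1))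
      (fun i => if i = n + 1 then sc else (G.card : ℝ)) ∅ (hws' _) (by
        intro i _ U hU
        unfold ws
        by_cases e0 : i = n + 1
        · simp only [e0, if_true]
          rw [sum_boole]
          exact hsc U hU
        · simp only [e0, if_false]
          exact hcard0 U hU) hVv
    refine h.trans (le_of_eq ?_)
    rw [prod_range_succ, if_pos rfl]
    congr 1
    rw [prod_congr rfl (g := fun _ => (G.card : ℝ)) fun i hi => if_neg (by
      have := mem_range.1 hi
      omega), prod_const, card_range]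
  have hz : ∀ z ∈ Z.filter (fun z => ∀ i i', i ≠ i' → grp i = grp i' → z i ≠ z i'),
      ((BF k grp z).card : ℝ) ≤ ∑ a, ∑ b, 2 ^ (k / 2 + c) * f1 (fun i => z (σ a b i)) +
        ∑ a, 2 ^ ((n + 2) * ((n + 2) * L)) * f2 (fun i => z (τ a i)) := by
    intro z hz
    rw [mem_filter, hZ, Fintype.mem_piFinset] at hz
    exact card_BF y k θ H c L hk z (fun i => hG _ (hz.1 i)) (fun i => hg _ (hz.1 i))
      (fun i => ht _ (hz.1 i)) hθ (fun i i' => hd _ (hz.1 i) _ (hz.1 i')) grp hz.2 σ hσ τ hτ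
  refine (sum_le_sum hz).trans ?_
  have hext : ∑ z ∈ Z.filter (fun z => ∀ i i', i ≠ i' → grp i = grp i' → z i ≠ z i'),
      (∑ a, ∑ b, 2 ^ (k / 2 + c) * f1 (fun i => z (σ a b i)) +
        ∑ a, 2 ^ ((n + 2) * ((n + 2) * L)) * f2 (fun i => z (τ a i))) ≤
      ∑ z ∈ Z, (∑ a, ∑ b, 2 ^ (k / 2 + c) * f1 (fun i => z (σ a b i)) +
        ∑ a, 2 ^ ((n + 2) * ((n + 2) * L)) * f2 (fun i => z (τ a i))) := by
    refine sum_le_sum_of_subset_of_nonneg (filter_subset _ _) fun z _ _ => ?_
    refine add_nonneg (sum_nonneg fun a _ => sum_nonneg fun b _ => ?_) (sum_nonneg fun a _ => ?_)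
    · exact mul_nonneg (by positivity) (hf1n _)
    · exact mul_nonneg (by positivity) (hf2n _)
  refine hext.trans ?_
  rw [sum_add_distrib]
  refine add_le_add ?_ ?_
  · rw [sum_comm]
    have h3 : ∀ a ∈ (univ : Finset (Fin (n + 2))), ∑ z ∈ Z, ∑ b, (2 : ℝ) ^ (k / 2 + c) *
        f1 (fun i => z (σ a b i)) ≤ (n + 2) * (2 ^ (k / 2 + c) * (B2 ^ n * lk * G.card)) := by
      intro a _
      rw [sum_comm]
      have h4 : ∀ b ∈ (univ : Finset (Fin (n + 2))), ∑ z ∈ Z, (2 : ℝ) ^ (k / 2 + c) *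
          f1 (fun i => z (σ a b i)) ≤ 2 ^ (k / 2 + c) * (B2 ^ n * lk * G.card) := by
        intro b _
        rw [← mul_sum, sum_perm (σ a b) G f1]
        exact mul_le_mul_of_nonneg_left s1 (by positivity)
      refine (sum_le_sum h4).trans (le_of_eq ?_)
      rw [sum_const, card_univ, Fintype.card_fin, nsmul_eq_mul]
      push_cast
      ring
    refine (sum_le_sum h3).trans (le_of_eq ?_)
    rw [sum_const, card_univ, Fintype.card_fin, nsmul_eq_mul]
    push_cast
    ring
  · rw [sum_comm]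
    have h3 : ∀ a ∈ (univ : Finset (Fin (n + 2))), ∑ z ∈ Z, (2 : ℝ) ^ ((n + 2) * ((n + 2) * L)) *
        f2 (fun i => z (τ a i)) ≤ 2 ^ ((n + 2) * ((n + 2) * L)) * (G.card ^ (n + 1) * sc) := by
      intro a _
      rw [← mul_sum, sum_perm (τ a) G f2]
      exact mul_le_mul_of_nonneg_left s2 (by positivity)
    refine (sum_le_sum h3).trans (le_of_eq ?_)
    rw [sum_const, card_univ, Fintype.card_fin, nsmul_eq_mul]
    push_cast
    ring

end Pool.Agent.Q163.PW
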